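import Pool.Agent.Lib.H44W.W0
/-!
CHUNK E1 (S). Rules for ee.
Proof: all by unfolding ee, Complex.exp_add, Complex.norm_exp (real part of 2 pi x I is 0), Complex.exp_int_mul_two_pi_mul_I,
Complex.exp_conj. ee_orth: if l does not divide m the sum is geometric with ratio ee(m/l), which is not 1
(Complex.exp_eq_one_iff) and ratio^l = ee(m) = 1 (geom_sum / mul_neg_geom_sum); if l divides m every term is 1.
-/
namespace Pool.Agent.H44W
open Finset

theorem norm_ee (x : ℝ) : ‖ee x‖ = 1 := by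
  have h : (2 * Real.pi * x * Complex.I : ℂ) = ((2 * Real.pi * x : ℝ) : ℂ) * Complex.I := by
    push_cast; ring
  rw [ee, h, Complex.norm_exp_ofReal_mul_I]

theorem ee_add (x y : ℝ) : ee (x + y) = ee x * ee y := by
  rw [ee, ee, ee, ← Complex.exp_add]
  congr 1
  push_cast
  ring

theorem ee_neg (x : ℝ) : ee (-x) = (starRingEnd ℂ) (ee x) := by
  rw [ee, ee, ← Complex.exp_conj]
  congr 1
  simp only [map_mul, Complex.conj_ofReal, Complex.conj_I, map_ofNat]
  push_cast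
  ring

theorem ee_zero : ee 0 = 1 := by
  simp [ee]

theorem ee_int (m : ℤ) : ee m = 1 := by
  rw [ee, Complex.exp_eq_one_iff]
  exact ⟨m, by push_cast; ring⟩

theorem ee_half (m : ℤ) : ee ((m:ℝ) / 2) = if Even m then 1 else -1 := by
  by_cases h : Even m
  · rw [if_pos h]
    obtain ⟨k, rfl⟩ := h
    have : (((k + k : ℤ):ℝ) / 2) = ((k:ℤ):ℝ) := by push_cast; ring
    rw [this, ee_int]
  · rw [if_neg h]
    obtain ⟨k, rfl⟩ := Int.not_even_iff_odd.1 h
    have : (((2 * k + 1 : ℤ):ℝ) / 2) = ((k:ℤ):ℝ) + 1 / 2 := by push_cast; ring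
    rw [this, ee_add, ee_int, one_mul, ee]
    have h2 : (2 * Real.pi * ((1 / 2 : ℝ) : ℂ) * Complex.I : ℂ) = Real.pi * Complex.I := by
      push_cast; ring
    rw [h2, Complex.exp_pi_mul_I]

theorem ee_orth (l : ℕ) (hl : 0 < l) (m : ℤ) :
    ∑ k ∈ range l, ee ((k:ℝ) * m / l) = if (l:ℤ) ∣ m then (l:ℂ) else 0 := by
  have hl' : (l:ℝ) ≠ 0 := by positivity
  have hpow : ∀ k : ℕ, ee ((k:ℝ) * m / l) = (ee ((m:ℝ) / l)) ^ k := by
    intro k
    induction k with
    | zero => simp [ee_zero]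
    | succ k ih =>
      have : (((k + 1 : ℕ):ℝ) * m / l) = (k:ℝ) * m / l + (m:ℝ) / l := by push_cast; ring
      rw [this, ee_add, ih, pow_succ]
  rw [Finset.sum_congr rfl fun k _ => hpow k]
  by_cases h : (l:ℤ) ∣ m
  · rw [if_pos h]
    obtain ⟨t, rfl⟩ := h
    have h1 : (((l:ℤ) * t : ℤ):ℝ) / l = ((t:ℤ):ℝ) := by push_cast; field_simp
    rw [h1, ee_int]
    simp
  · rw [if_neg h]
    have hne : ee ((m:ℝ) / l) ≠ 1 := by
      intro h1
      apply h
      rw [ee, Complex.exp_eq_one_iff] at h1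
      obtain ⟨t, ht⟩ := h1
      refine ⟨t, ?_⟩
      have hpi : (2 * Real.pi * Complex.I : ℂ) ≠ 0 := Complex.two_pi_I_ne_zero
      have h2 : (((m:ℝ) / l : ℝ) : ℂ) = (t : ℂ) := by
        have h3 : (2 * Real.pi * Complex.I : ℂ) * (((m:ℝ) / l : ℝ) : ℂ) = (2 * Real.pi * Complex.I) * t := by
          rw [mul_comm _ (t:ℂ), ← ht]; ring
        exact mul_left_cancel₀ hpi h3
      have h4 : ((m:ℝ) / l) = (t:ℝ) := by exact_mod_cast h2
      rw [div_eq_iff hl'] at h4
      have h5 : (m:ℝ) = ((l * t : ℤ):ℝ) := by rw [h4]; push_cast; ring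
      exact_mod_cast h5
    have hp : (ee ((m:ℝ) / l)) ^ l = 1 := by
      rw [← hpow l]
      have : ((l:ℝ) * m / l) = ((m:ℤ):ℝ) := by field_simp
      rw [this, ee_int]
    have := mul_neg_geom_sum (ee ((m:ℝ) / l)) l
    rw [hp, sub_self] at this
    rcases mul_eq_zero.1 this with h1 | h1
    · exact absurd (sub_eq_zero.1 h1).symm hne
    · exact h1

end Pool.Agent.H44W
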