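import Pool.Agent.Lib.H44W.W0
/-!
H44W: Type II pieces and the interface of module B (class_two).
-/
namespace Pool.Agent.H44W
open Finset

/-- Type II piece: a in [K, 2K), b in [M, 2M), arbitrary coefficients. -/
noncomputable def tII (K M : ℕ) (al be : ℕ → ℂ) (m : ℤ) : ℂ :=
  ∑ a ∈ Ico K (2 * K), ∑ b ∈ Ico M (2 * M), if ((a * b : ℕ) : ℤ) = m then al a * be b else 0

/-- Type I sum with divisors up to A. -/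
noncomputable def psi (A : ℕ) (al : ℕ → ℂ) (m : ℤ) : ℂ :=
  ∑ a ∈ Icc 1 A, if (a:ℤ) ∣ m then al a else 0

/-- The statement of module B (helper3's form, with the divisor hypothesis). -/
def ClassTwo (C : ℕ) : Prop :=
  ∀ (n K M : ℕ) (D : ℝ), 2 ≤ D → (∀ m : ℕ, 1 ≤ m → m ≤ 2 * n → (m.divisors.card : ℝ) ≤ D) →
    D ^ C ≤ K → (K:ℝ) ^ 2 * D ^ C ≤ n →
    ∀ al be : ℕ → ℂ, (∀ a, ‖al a‖ ≤ 1) → (∀ b, ‖be b‖ ≤ 1) →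
    ∀ W f g : ℤ → ℂ, (∀ x, ‖W x‖ ≤ 1) → (∀ x, ‖f x‖ ≤ 1) → (∀ x, ‖g x‖ ≤ 1) →
    (n:ℝ) ^ 2 / D ≤ ‖TF n (tII K M al be) W f g‖ →
    ∃ th : ℝ, (n:ℝ) / D ^ C ≤ ‖∑ z ∈ Icc (1:ℤ) n, g z * ee (th * z)‖

end Pool.Agent.H44W
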