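import Pool.Agent.Lib.H44W.M1
/-!
CHUNK M2 (S/M). The inverse property for a Type I sum times a slowly varying factor, given by an expansion of the factor in additive
characters with total mass A0.
Proof. On the points m = x + y in [2, 2n] which occur in TF the function Mm is sum_j c j * ee(ph j * m) * psi A al m. TF is linear in
its kernel, so TF n Mm W f g = sum_j c j * TF n (fun m => ee (ph j * m) * psi A al m) W f g
= sum_j c j * S * TF n (psi A (al/S)) W (fun x => f x * ee (ph j * x)) (fun y => g y * ee (ph j * y))   (ee_add, the factor splits on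
x + y). The norm is <= sum_j |c j| * S * (...): if every term |TF n (psi A (al/S)) W f_j g_j| were < n^2/(D A0 S) the total would be
< n^2/D (strict unless all c j = 0, in which case TF = 0 < n^2/D, impossible as n >= 2). So some j has
n^2/(D A0 S) <= |TF n (psi A (al/S)) W f_j g_j| and psi_cf (M1) with D := D * A0 * S >= 2 gives th with
n/(80 (D A0 S)(1+log n)^2)^(C+1) <= |sum g z ee(ph j z) ee(th z)| = |sum g z ee((ph j + th) z)|.
-/
namespace Pool.Agent.H44W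
open Finset

theorem m2_psi (A : ℕ) (al : ℕ → ℂ) (S : ℝ) (hS : 1 ≤ S) (m : ℤ) :
    psi A al m = (S : ℂ) * psi A (fun a => al a / S) m := by
  have hS0 : (S : ℂ) ≠ 0 := by
    have : (0 : ℝ) < S := by linarith
    exact_mod_cast this.ne'
  unfold psi
  rw [Finset.mul_sum]
  refine Finset.sum_congr rfl fun a _ => ?_
  split_ifs
  · field_simp
  · rw [mul_zero]

theorem m2_expand (n A : ℕ) (S : ℝ) (hS : 1 ≤ S) (J : ℕ) (c : ℕ → ℂ) (ph : ℕ → ℝ) (al : ℕ → ℂ) (Mm : ℤ → ℂ)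
    (hM : ∀ m : ℤ, 2 ≤ m → m ≤ 2 * n →
      Mm m = (∑ j ∈ range J, c j * ee (ph j * m)) * psi A al m) (W f g : ℤ → ℂ) :
    TF n Mm W f g = ∑ j ∈ range J, c j * ((S : ℂ) * TF n (psi A (fun a => al a / S)) W
      (fun x => f x * ee (ph j * x)) (fun y => g y * ee (ph j * y))) := by
  unfold TF
  have e1 : ∀ x ∈ Icc (1:ℤ) n, ∑ y ∈ Icc (1:ℤ) n, f x * g y * Mm (x + y) * W (x - y) =
      ∑ j ∈ range J, ∑ y ∈ Icc (1:ℤ) n, c j * ((S : ℂ) * (f x * ee (ph j * x) * (g y * ee (ph j * y)) *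
        psi A (fun a => al a / S) (x + y) * W (x - y))) := by
    intro x hx
    rw [Finset.sum_comm]
    refine Finset.sum_congr rfl fun y hy => ?_
    rw [Finset.mem_Icc] at hx hy
    rw [hM (x + y) (by omega) (by omega), m2_psi A al S hS, Finset.sum_mul, Finset.mul_sum, Finset.sum_mul]
    refine Finset.sum_congr rfl fun j _ => ?_
    have e2 : ee (ph j * ((x + y : ℤ) : ℝ)) = ee (ph j * x) * ee (ph j * y) := by
      rw [← ee_add]
      congr 1
      push_cast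
      ring
    rw [e2]
    ring
  rw [Finset.sum_congr rfl e1, Finset.sum_comm]
  refine Finset.sum_congr rfl fun j _ => ?_
  rw [Finset.mul_sum, Finset.mul_sum]
  refine Finset.sum_congr rfl fun x _ => ?_
  rw [Finset.mul_sum, Finset.mul_sum]

theorem model_cf (C : ℕ) (h2 : ClassTwo C)
    (hone : ∀ (n A : ℕ) (al : ℕ → ℂ), 1 ≤ n → (∀ a, ‖al a‖ ≤ 1) → ∀ W f g : ℤ → ℂ,
      (∀ x, ‖W x‖ ≤ 1) → (∀ x, ‖f x‖ ≤ 1) → (∀ x, ‖g x‖ ≤ 1) →
      ∃ th : ℝ, ‖TF n (psi A al) W f g‖ ≤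
        20 * A * (1 + Real.log n) * n * ‖∑ z ∈ Icc (1:ℤ) n, g z * ee (th * z)‖)
    (n A : ℕ) (hn : 2 ≤ n) (hA4 : (A:ℝ) ≤ (n:ℝ) ^ (1 / 4 : ℝ)) (D A0 S : ℝ) (hD : 2 ≤ D)
    (hdiv : ∀ m : ℕ, 1 ≤ m → m ≤ 2 * n → (m.divisors.card : ℝ) ≤ D)
    (hA0 : 1 ≤ A0) (hS : 1 ≤ S) (J : ℕ) (c : ℕ → ℂ) (ph : ℕ → ℝ)
    (hc : ∑ j ∈ range J, ‖c j‖ ≤ A0) (al : ℕ → ℂ) (hal : ∀ a, ‖al a‖ ≤ S) (Mm : ℤ → ℂ)
    (hM : ∀ m : ℤ, 2 ≤ m → m ≤ 2 * n →
      Mm m = (∑ j ∈ range J, c j * ee (ph j * m)) * psi A al m)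
    (W f g : ℤ → ℂ) (hW : ∀ x, ‖W x‖ ≤ 1) (hf : ∀ x, ‖f x‖ ≤ 1) (hg : ∀ x, ‖g x‖ ≤ 1)
    (hT : (n:ℝ) ^ 2 / D ≤ ‖TF n Mm W f g‖) :
    ∃ th : ℝ, (n:ℝ) / (80 * (D * A0 * S) * (1 + Real.log n) ^ 2) ^ (C + 1) ≤
      ‖∑ z ∈ Icc (1:ℤ) n, g z * ee (th * z)‖ := by
  have hn0 : (0 : ℝ) < n := by
    have : (2 : ℝ) ≤ n := by exact_mod_cast hn
    linarith
  have hD0 : 0 < D := by linarith
  have hS0 : 0 < S := by linarith
  have hA00 : 0 < A0 := by linarith
  have hpos : 0 < (n:ℝ) ^ 2 / D := by positivity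
  have hexp := m2_expand n A S hS J c ph al Mm hM W f g
  have hJ : (range J).Nonempty := by
    rw [Finset.nonempty_range_iff]
    rintro rfl
    rw [Finset.range_zero, Finset.sum_empty] at hexp
    rw [hexp, norm_zero] at hT
    linarith
  obtain ⟨j, hj, hmax⟩ := Finset.exists_max_image (range J) (fun j => ‖TF n (psi A (fun a => al a / S)) W
      (fun x => f x * ee (ph j * x)) (fun y => g y * ee (ph j * y))‖) hJ
  have h1 : ‖TF n Mm W f g‖ ≤ A0 * (S * ‖TF n (psi A (fun a => al a / S)) W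
      (fun x => f x * ee (ph j * x)) (fun y => g y * ee (ph j * y))‖) := by
    rw [hexp]
    refine (norm_sum_le _ _).trans ?_
    have h3 : ∀ i ∈ range J, ‖c i * ((S : ℂ) * TF n (psi A (fun a => al a / S)) W
        (fun x => f x * ee (ph i * x)) (fun y => g y * ee (ph i * y)))‖ ≤
        ‖c i‖ * (S * ‖TF n (psi A (fun a => al a / S)) W
          (fun x => f x * ee (ph j * x)) (fun y => g y * ee (ph j * y))‖) := by
      intro i hi
      rw [norm_mul, norm_mul, Complex.norm_real, Real.norm_of_nonneg hS0.le]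
      exact mul_le_mul_of_nonneg_left (mul_le_mul_of_nonneg_left (hmax i hi) hS0.le) (norm_nonneg _)
    refine (Finset.sum_le_sum h3).trans ?_
    rw [← Finset.sum_mul]
    exact mul_le_mul_of_nonneg_right hc (by positivity)
  have h4 : (n:ℝ) ^ 2 / (D * A0 * S) ≤ ‖TF n (psi A (fun a => al a / S)) W
      (fun x => f x * ee (ph j * x)) (fun y => g y * ee (ph j * y))‖ := by
    have h3 := hT.trans h1
    rw [div_le_iff₀ (by positivity)] at h3 ⊢
    linarith
  have hDS : 2 ≤ D * A0 * S := by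
    have h3 : 2 ≤ D * A0 := by nlinarith
    nlinarith
  have hDD : D ≤ D * A0 * S := by
    have h5 : D ≤ D * A0 := le_mul_of_one_le_right hD0.le hA0
    exact h5.trans (le_mul_of_one_le_right (by positivity) hS)
  obtain ⟨th, hth⟩ := psi_cf C h2 hone n A hn hA4 (D * A0 * S) hDS
    (fun m h5 h6 => (hdiv m h5 h6).trans hDD) (fun a => al a / S) (fun a => by
      rw [norm_div, Complex.norm_real, Real.norm_of_nonneg hS0.le, div_le_one hS0]
      exact hal a) W (fun x => f x * ee (ph j * x)) (fun y => g y * ee (ph j * y)) hW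
    (fun x => by rw [norm_mul, norm_ee, mul_one]; exact hf x) (fun x => by rw [norm_mul, norm_ee, mul_one]; exact hg x) h4
  refine ⟨ph j + th, hth.trans (le_of_eq ?_)⟩
  congr 1
  refine Finset.sum_congr rfl fun z _ => ?_
  have e2 : ee ((ph j + th) * (z : ℝ)) = ee (ph j * z) * ee (th * z) := by
    rw [← ee_add]
    congr 1
    ring
  rw [e2]
  ring

end Pool.Agent.H44W
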