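import Pool.Agent.Lib.H44W.W1
import Pool.Agent.Lib.H81E.C4
import Pool.Agent.Lib.H21T.Defs
/-!
CHUNK M3 (M). The factor lbox of the model: expansion in additive characters.
lboxr q .. m is lbox .. (m/q) written with log m - log q (so it makes sense for all m).
(a) lboxr_eq: for k >= 1, q >= 1: lboxr q A1 A2 B1 B2 (q k) = lbox A1 A2 B1 B2 k (Real.log_mul).
(b) lbox_bd: 0 <= lbox <= 1 if A2 <= 2 A1, 1 <= A1 (min (log A2) .. - max (log A1) .. <= log A2 - log A1 <= log 2 <= 1; for A2 = 0 use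
log 0 = 0). The same for lboxr.
(c) lbox_empty: if A2 < A1 (or B2 < B1) then lbox = 0, and lboxr = 0: (min (log A2) s2 - max (log A1) s1 <= log A2 - log A1 <= 0; for
B2 < B1, B2 >= 1: s2 - s1 = log B2 - log B1 <= 0; if B2 = 0, log B2 = 0 <= log B1.)
(d) lboxr_rep: put a1 = log A1 <= a2 = log A2, s1(m) = log m - log q - log B2 <= s2(m) = log m - log q - log B1 and cl s = min a2 (max a1 s).
Then max 0 (min a2 s2 - max a1 s1) = cl s2 - cl s1 (case distinction; a1 <= a2, s1 <= s2). cl s2(m) and cl s1(m) are increasing in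
m >= 1 with values in [a1, a2], so sum over j < 2n of |F (j+3) - F (j+2)| <= 2 (a2 - a1) <= 2 log 2 <= 2 (telescoping, Finset.sum_range_sub).
Rep.bv (H81E): Rep n (|F 2| + (3 + log n) * 2) F, and |F 2| <= 1: 1 + 2 (3 + log n) <= 7 (1 + log n).
-/
namespace Pool.Agent.H44W
open Finset

/-- lbox at m/q. -/
noncomputable def lboxr (q A1 A2 B1 B2 : ℕ) (m : ℤ) : ℝ :=
  max 0 (min (Real.log A2) (Real.log m - Real.log q - Real.log B1) -
    max (Real.log A1) (Real.log m - Real.log q - Real.log B2))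

theorem lboxr_eq (q A1 A2 B1 B2 k : ℕ) (hq : 1 ≤ q) (hk : 1 ≤ k) :
    lboxr q A1 A2 B1 B2 ((q:ℤ) * k) = Pool.Agent.Lib.H21T.lbox A1 A2 B1 B2 k := by
  unfold lboxr Pool.Agent.Lib.H21T.lbox
  have hq0 : (q : ℝ) ≠ 0 := by
    have : (1 : ℝ) ≤ q := by exact_mod_cast hq
    positivity
  have hk0 : (k : ℝ) ≠ 0 := by
    have : (1 : ℝ) ≤ k := by exact_mod_cast hk
    positivity
  have h1 : Real.log (((q : ℤ) * k : ℤ) : ℝ) - Real.log q = Real.log k := by
    push_cast
    rw [Real.log_mul hq0 hk0]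
    ring
  rw [h1]

theorem m3_logle (A B : ℕ) (hB : 1 ≤ B) (h : A ≤ B) : Real.log A ≤ Real.log B := by
  rcases Nat.eq_zero_or_pos A with hA | hA
  · rw [hA, Nat.cast_zero, Real.log_zero]
    exact Real.log_nonneg (by exact_mod_cast hB)
  · exact Real.log_le_log (by exact_mod_cast hA) (by exact_mod_cast h)

theorem m3_two (A1 A2 : ℕ) (hA : 1 ≤ A1) (hA2 : A2 ≤ 2 * A1) : Real.log A2 - Real.log A1 ≤ 1 := by
  have h1 := m3_logle A2 (2 * A1) (by omega) hA2
  have hA0 : (A1 : ℝ) ≠ 0 := by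
    have : (1 : ℝ) ≤ A1 := by exact_mod_cast hA
    positivity
  have h2 : Real.log ((2 * A1 : ℕ) : ℝ) = Real.log 2 + Real.log A1 := by
    push_cast
    rw [Real.log_mul two_ne_zero hA0]
  have h3 : Real.log 2 < 0.6931471808 := Real.log_two_lt_d9
  rw [h2] at h1
  linarith

theorem m3_cl (a1 a2 s1 s2 : ℝ) (ha : a1 ≤ a2) (hs : s1 ≤ s2) :
    max 0 (min a2 s2 - max a1 s1) = min a2 (max a1 s2) - min a2 (max a1 s1) := by
  rcases le_total s2 a1 with h1 | h1
  · rw [max_eq_left h1, max_eq_left (hs.trans h1), sub_self]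
    refine max_eq_left ?_
    have := min_le_right a2 s2
    linarith
  · rw [max_eq_right h1]
    rcases le_total a2 s1 with h2 | h2
    · rw [max_eq_right (ha.trans h2), min_eq_left h2, min_eq_left (h2.trans hs), sub_self]
      exact max_eq_left (by linarith)
    · rw [min_eq_right (max_le ha h2)]
      refine max_eq_right (sub_nonneg.2 ?_)
      exact le_min (max_le ha h2) (max_le h1 hs)

theorem m3_sum (G : ℕ → ℝ) (a1 a2 : ℝ) (hmono : ∀ j, G j ≤ G (j + 1)) (h1 : a1 ≤ G 0) (h2 : ∀ j, G j ≤ a2) (N : ℕ) :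
    ∑ j ∈ range N, |G (j + 1) - G j| ≤ a2 - a1 := by
  have h3 : ∀ j ∈ range N, |G (j + 1) - G j| = G (j + 1) - G j := fun j _ => abs_of_nonneg (by linarith [hmono j])
  rw [sum_congr rfl h3, sum_range_sub]
  linarith [h2 N]

theorem lbox_bd (A1 A2 B1 B2 k : ℕ) (hA : 1 ≤ A1) (hA2 : A2 ≤ 2 * A1) :
    0 ≤ Pool.Agent.Lib.H21T.lbox A1 A2 B1 B2 k ∧ Pool.Agent.Lib.H21T.lbox A1 A2 B1 B2 k ≤ 1 := by
  unfold Pool.Agent.Lib.H21T.lbox
  refine ⟨le_max_left _ _, max_le zero_le_one ?_⟩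
  have h1 := m3_two A1 A2 hA hA2
  have h2 := min_le_left (Real.log A2) (Real.log k - Real.log B1)
  have h3 := le_max_left (Real.log A1) (Real.log k - Real.log B2)
  linarith

theorem lbox_empty (A1 A2 B1 B2 k : ℕ) (hA : 1 ≤ A1) (hB : 1 ≤ B1) (h : A2 < A1 ∨ B2 < B1) :
    Pool.Agent.Lib.H21T.lbox A1 A2 B1 B2 k = 0 := by
  unfold Pool.Agent.Lib.H21T.lbox
  refine max_eq_left ?_
  rcases h with h | h
  · have h1 := m3_logle A2 A1 hA h.le
    have h2 := min_le_left (Real.log A2) (Real.log k - Real.log B1)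
    have h3 := le_max_left (Real.log A1) (Real.log k - Real.log B2)
    linarith
  · have h1 := m3_logle B2 B1 hB h.le
    have h2 := min_le_right (Real.log A2) (Real.log k - Real.log B1)
    have h3 := le_max_right (Real.log A1) (Real.log k - Real.log B2)
    linarith

theorem lboxr_rep (n q A1 A2 B1 B2 : ℕ) (hn : 1 ≤ n) (hq : 1 ≤ q) (hA : 1 ≤ A1) (hA1 : A1 ≤ A2)
    (hA2 : A2 ≤ 2 * A1) (hB : 1 ≤ B1) (hB1 : B1 ≤ B2) :
    Pool.Agent.H81E.Rep n (7 * (1 + Real.log n)) (fun m => ((lboxr q A1 A2 B1 B2 m : ℝ) : ℂ)) := by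
  have ha : Real.log A1 ≤ Real.log A2 := m3_logle A1 A2 (hA.trans hA1) hA1
  have hb : Real.log B1 ≤ Real.log B2 := m3_logle B1 B2 (hB.trans hB1) hB1
  have h2 := m3_two A1 A2 hA hA2
  have hcl : ∀ m : ℤ, lboxr q A1 A2 B1 B2 m =
      min (Real.log A2) (max (Real.log A1) (Real.log m - Real.log q - Real.log B1)) -
      min (Real.log A2) (max (Real.log A1) (Real.log m - Real.log q - Real.log B2)) := by
    intro m
    unfold lboxr
    exact m3_cl _ _ _ _ ha (by linarith)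
  have hbd : ∀ m : ℤ, |lboxr q A1 A2 B1 B2 m| ≤ 1 := by
    intro m
    have h3 : 0 ≤ lboxr q A1 A2 B1 B2 m := le_max_left _ _
    rw [abs_of_nonneg h3, hcl]
    have h4 := min_le_left (Real.log A2) (max (Real.log A1) (Real.log m - Real.log q - Real.log B1))
    have h5 : Real.log A1 ≤ min (Real.log A2) (max (Real.log A1) (Real.log m - Real.log q - Real.log B2)) :=
      le_min ha (le_max_left _ _)
    linarith
  have hv : ∀ B : ℕ, ∑ j ∈ range (2 * n),
      |min (Real.log A2) (max (Real.log A1) (Real.log (((j : ℤ) + 3 : ℤ) : ℝ) - Real.log q - Real.log B)) -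
        min (Real.log A2) (max (Real.log A1) (Real.log (((j : ℤ) + 2 : ℤ) : ℝ) - Real.log q - Real.log B))| ≤ 1 := by
    intro B
    have h3 := m3_sum (fun j : ℕ => min (Real.log A2) (max (Real.log A1) (Real.log (((j : ℤ) + 2 : ℤ) : ℝ) -
      Real.log q - Real.log B))) (Real.log A1) (Real.log A2) (by
        intro j
        have h4 : Real.log (((j : ℤ) + 2 : ℤ) : ℝ) ≤ Real.log ((((j + 1 : ℕ) : ℤ) + 2 : ℤ) : ℝ) := by
          refine Real.log_le_log ?_ ?_
          · push_cast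
            positivity
          · push_cast
            linarith
        exact min_le_min le_rfl (max_le_max le_rfl (by linarith)))
      (le_min ha (le_max_left _ _)) (fun j => min_le_left _ _) (2 * n)
    refine le_trans (le_of_eq (sum_congr rfl fun j _ => ?_)) (h3.trans h2)
    have e1 : ((j : ℤ) + 3 : ℤ) = (((j + 1 : ℕ) : ℤ) + 2 : ℤ) := by
      push_cast
      ring
    rw [e1]
  have hbv := Pool.Agent.H81E.Rep.bv n hn (fun m => ((lboxr q A1 A2 B1 B2 m : ℝ) : ℂ))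
  refine hbv.mono ?_
  have hlog : 0 ≤ Real.log n := Real.log_nonneg (by exact_mod_cast hn)
  have h5 : ‖((lboxr q A1 A2 B1 B2 2 : ℝ) : ℂ)‖ ≤ 1 := by
    rw [Complex.norm_real, Real.norm_eq_abs]
    exact hbd 2
  have h6 : ∑ j ∈ range (2 * n), ‖((lboxr q A1 A2 B1 B2 ((j : ℤ) + 3) : ℝ) : ℂ) -
      ((lboxr q A1 A2 B1 B2 ((j : ℤ) + 2) : ℝ) : ℂ)‖ ≤ 2 := by
    have h7 : ∀ j ∈ range (2 * n), ‖((lboxr q A1 A2 B1 B2 ((j : ℤ) + 3) : ℝ) : ℂ) -
        ((lboxr q A1 A2 B1 B2 ((j : ℤ) + 2) : ℝ) : ℂ)‖ ≤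
        |min (Real.log A2) (max (Real.log A1) (Real.log (((j : ℤ) + 3 : ℤ) : ℝ) - Real.log q - Real.log B1)) -
          min (Real.log A2) (max (Real.log A1) (Real.log (((j : ℤ) + 2 : ℤ) : ℝ) - Real.log q - Real.log B1))| +
        |min (Real.log A2) (max (Real.log A1) (Real.log (((j : ℤ) + 3 : ℤ) : ℝ) - Real.log q - Real.log B2)) -
          min (Real.log A2) (max (Real.log A1) (Real.log (((j : ℤ) + 2 : ℤ) : ℝ) - Real.log q - Real.log B2))| := by
      intro j _
      rw [← Complex.ofReal_sub, Complex.norm_real, Real.norm_eq_abs, hcl, hcl]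
      generalize min (Real.log A2) (max (Real.log A1) (Real.log (((j : ℤ) + 3 : ℤ) : ℝ) - Real.log q - Real.log B1)) = w1
      generalize min (Real.log A2) (max (Real.log A1) (Real.log (((j : ℤ) + 3 : ℤ) : ℝ) - Real.log q - Real.log B2)) = w2
      generalize min (Real.log A2) (max (Real.log A1) (Real.log (((j : ℤ) + 2 : ℤ) : ℝ) - Real.log q - Real.log B1)) = w3
      generalize min (Real.log A2) (max (Real.log A1) (Real.log (((j : ℤ) + 2 : ℤ) : ℝ) - Real.log q - Real.log B2)) = w4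
      have e1 : w1 - w2 - (w3 - w4) = (w1 - w3) - (w2 - w4) := by ring
      rw [e1]
      exact abs_sub _ _
    refine (sum_le_sum h7).trans ?_
    rw [sum_add_distrib]
    linarith [hv B1, hv B2]
  have h8 := mul_le_mul_of_nonneg_left h6 (by linarith : 0 ≤ 3 + Real.log n)
  linarith

end Pool.Agent.H44W
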