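import Pool.Agent.Lib.H44W.W2
import Pool.Agent.Lib.H44W.M3
import Pool.Agent.Lib.H44W.E1
/-!
CHUNK M4 (M). The local bound (hX) for pd q - Mq from D34.
(a) pd_eq: for m >= 1, q >= 1: pd q (Ico A1 A2) (Ico B1 B2) m = dbox A1 A2 B1 B2 (m/q) if q | m, else 0 (the pairs (a,b) of integers >= 0;
m = q k: q a b = q k iff a b = k; card of the image under the cast N x N -> Z x Z).
(b) hX_of: the hypothesis h34 is the conclusion of H21T.D34 for N = 2n (with Q = floor((2n)^ep)). Let q >= 1.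
Case q A1 B1 > 2n: for m in [u, v), m <= 2n: if q | m then k = m/q < A1 B1 and dbox = 0 = lbox (H21T.z0_low, or directly): the sum is 0.
Case A2 < A1 or B2 < B1: dbox = 0 (empty Ico) and lbox = 0 (lbox_empty): the sum is 0.
Case q A1 B1 <= 2n, A1 <= A2, B1 <= B2: A1 B1 <= 2n = N. With m = q k the sum is the sum over k in Ico u' v', u' = ceil(u/q), v' = ceil(v/q), of
(dbox - Mbox)(k) ee((th q) k), v' - u' <= (v - u)/q + 1 <= 2l + 1. Let H0 = l (>= N^(1/2 - ka) by hl). Sum over Ico u' v' =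
sum over Ico u' (v' + l) - sum over Ico v' (v' + l): both intervals have length >= l >= N^(1/2-ka), so the norm is
<= ((v' - u' + l) + l) N^(-ep/2) <= (2l + 1 + 2l) N^(-ep/2) <= 5 l (2n)^(-ep/2) <= l (5 n^(-ep/2)).
-/
namespace Pool.Agent.H44W
open Finset

open Pool.Agent.Lib.H21T (dbox Mbox lbox)

theorem pd_eq (q A1 A2 B1 B2 : ℕ) (hq : 1 ≤ q) (m : ℤ) (hm : 1 ≤ m) :
    pd q (Ico (A1:ℤ) A2) (Ico (B1:ℤ) B2) m =
      if (q:ℤ) ∣ m then (Pool.Agent.Lib.H21T.dbox A1 A2 B1 B2 (m / q).toNat : ℂ) else 0 := by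
  unfold pd
  have hq0 : (0:ℤ) < q := by exact_mod_cast hq
  by_cases h : (q:ℤ) ∣ m
  · rw [if_pos h]
    obtain ⟨k, rfl⟩ := h
    have hk : 0 < k := by
      by_contra h0
      have : (q:ℤ) * k ≤ 0 := mul_nonpos_of_nonneg_of_nonpos hq0.le (not_lt.1 h0)
      omega
    rw [Int.mul_ediv_cancel_left k hq0.ne']
    congr 1
    unfold Pool.Agent.Lib.H21T.dbox
    symm
    refine Finset.card_bij (fun (p : ℕ × ℕ) _ => ((p.1:ℤ), (p.2:ℤ))) ?_ ?_ ?_
    · intro p hp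
      rw [mem_filter, mem_product, mem_Ico, mem_Ico] at hp
      rw [mem_filter, mem_product, mem_Ico, mem_Ico]
      refine ⟨⟨⟨Int.ofNat_le.2 hp.1.1.1, Int.ofNat_lt.2 hp.1.1.2⟩, Int.ofNat_le.2 hp.1.2.1, Int.ofNat_lt.2 hp.1.2.2⟩, ?_⟩
      have h2 : ((p.1 * p.2 : ℕ):ℤ) = k := by rw [hp.2]; omega
      push_cast at h2
      show (q:ℤ) * (p.1:ℤ) * (p.2:ℤ) = q * k
      rw [mul_assoc, h2]
    · intro p _ p' _ hpp
      have h1 : (p.1:ℤ) = p'.1 := congrArg Prod.fst hpp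
      have h2 : (p.2:ℤ) = p'.2 := congrArg Prod.snd hpp
      exact Prod.ext (by exact_mod_cast h1) (by exact_mod_cast h2)
    · intro p hp
      rw [mem_filter, mem_product, mem_Ico, mem_Ico] at hp
      obtain ⟨⟨⟨h1, h2⟩, h3, h4⟩, h5⟩ := hp
      have hp1 : 0 ≤ p.1 := le_trans (by positivity) h1
      have hp2 : 0 ≤ p.2 := le_trans (by positivity) h3
      obtain ⟨a, ha⟩ := Int.eq_ofNat_of_zero_le hp1
      obtain ⟨b, hb⟩ := Int.eq_ofNat_of_zero_le hp2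
      refine ⟨(a, b), ?_, Prod.ext ha.symm hb.symm⟩
      rw [mem_filter, mem_product, mem_Ico, mem_Ico]
      rw [ha] at h1 h2
      rw [hb] at h3 h4
      refine ⟨⟨⟨by exact_mod_cast h1, by exact_mod_cast h2⟩, by exact_mod_cast h3, by exact_mod_cast h4⟩, ?_⟩
      rw [ha, hb, mul_assoc] at h5
      have h6 : ((a:ℤ)) * b = k := mul_left_cancel₀ hq0.ne' h5
      have h7 : ((a * b : ℕ):ℤ) = k := by push_cast; exact h6
      show a * b = k.toNat
      omega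
  · rw [if_neg h]
    have : ((Ico (A1:ℤ) A2 ×ˢ Ico (B1:ℤ) B2).filter (fun p => (q:ℤ) * p.1 * p.2 = m)) = ∅ := by
      rw [Finset.filter_eq_empty_iff]
      intro p _ h1
      exact h ⟨p.1 * p.2, by rw [← h1, mul_assoc]⟩
    rw [this]
    simp

theorem m4_dbox_empty (A1 A2 B1 B2 k : ℕ) (h : A2 < A1 ∨ B2 < B1) : dbox A1 A2 B1 B2 k = 0 := by
  unfold Pool.Agent.Lib.H21T.dbox
  rw [Finset.card_eq_zero, Finset.filter_eq_empty_iff]
  intro p hp
  rw [mem_product, mem_Ico, mem_Ico] at hp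
  rcases h with h | h <;> omega

theorem m4_dbox_low (A1 A2 B1 B2 k : ℕ) (h : k < A1 * B1) : dbox A1 A2 B1 B2 k = 0 := by
  unfold Pool.Agent.Lib.H21T.dbox
  rw [Finset.card_eq_zero, Finset.filter_eq_empty_iff]
  intro p hp h1
  rw [mem_product, mem_Ico, mem_Ico] at hp
  have : A1 * B1 ≤ p.1 * p.2 := Nat.mul_le_mul hp.1.1 hp.2.1
  omega

theorem m4_lbox_low (A1 A2 B1 B2 k : ℕ) (hA : 1 ≤ A1) (hB : 1 ≤ B1) (h : k < A1 * B1) :
    lbox A1 A2 B1 B2 k = 0 := by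
  unfold Pool.Agent.Lib.H21T.lbox
  apply max_eq_left
  have hA' : (0:ℝ) < A1 := by exact_mod_cast hA
  have hB' : (0:ℝ) < B1 := by exact_mod_cast hB
  have h1 : Real.log k ≤ Real.log A1 + Real.log B1 := by
    rw [← Real.log_mul hA'.ne' hB'.ne']
    rcases Nat.eq_zero_or_pos k with h0 | h0
    · rw [h0, Nat.cast_zero, Real.log_zero]
      apply Real.log_nonneg
      have : 1 ≤ A1 * B1 := by omega
      exact_mod_cast this
    · apply Real.log_le_log (by exact_mod_cast h0)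
      exact_mod_cast h.le
  have h2 : min (Real.log A2) (Real.log k - Real.log B1) ≤ Real.log k - Real.log B1 := min_le_right _ _
  have h3 : Real.log A1 ≤ max (Real.log A1) (Real.log k - Real.log B2) := le_max_left _ _
  linarith

theorem hX_of (ka ep : ℝ) (n Q A1 A2 B1 B2 l q : ℕ) (hn : 1 ≤ n) (hep : 0 < ep) (hl1 : 1 ≤ l)
    (hA : 1 ≤ A1) (hB : 1 ≤ B1) (hq : 1 ≤ q) (hA2 : A2 ≤ 2 * A1) (hB2 : B2 ≤ 2 * B1)
    (h34 : A1 ≤ A2 → B1 ≤ B2 → A1 * B1 ≤ 2 * n → ∀ (x H : ℕ) (α : ℝ),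
      ((2 * n : ℕ):ℝ) ^ (1 / 2 - ka) ≤ H →
      ‖∑ m ∈ Ico x (x + H), ((Pool.Agent.Lib.H21T.dbox A1 A2 B1 B2 m : ℂ) -
        (Pool.Agent.Lib.H21T.Mbox Q A1 A2 B1 B2 m : ℂ)) * ee (α * m)‖ ≤
        H * ((2 * n : ℕ):ℝ) ^ (-(ep / 2)))
    (hl : ((2 * n : ℕ):ℝ) ^ (1 / 2 - ka) ≤ l)
    (u v : ℤ) (hu : 1 ≤ u) (huv : u ≤ v) (hv : v ≤ 2 * n + 1) (hvu : v - u ≤ 2 * l) (th : ℝ) :
    ‖∑ m ∈ Ico u v, (pd q (Ico (A1:ℤ) A2) (Ico (B1:ℤ) B2) m - Mq Q A1 A2 B1 B2 q m) *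
      ee (th * m)‖ ≤ l * (5 * (n:ℝ) ^ (-(ep / 2))) := by
  have hq0 : (0:ℤ) < q := by exact_mod_cast hq
  -- the difference as a function of k = m / q
  have hdiff : ∀ m : ℤ, 1 ≤ m → pd q (Ico (A1:ℤ) A2) (Ico (B1:ℤ) B2) m - Mq Q A1 A2 B1 B2 q m =
      if (q:ℤ) ∣ m then ((dbox A1 A2 B1 B2 (m / q).toNat : ℂ) - (Mbox Q A1 A2 B1 B2 (m / q).toNat : ℂ)) else 0 := by
    intro m hm
    rw [pd_eq q A1 A2 B1 B2 hq m hm, Mq]
    by_cases h : (q:ℤ) ∣ m
    · rw [if_pos h, if_pos h, if_pos h]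
    · rw [if_neg h, if_neg h, if_neg h, sub_zero]
  have hR0 : 0 ≤ (l:ℝ) * (5 * (n:ℝ) ^ (-(ep / 2))) := by positivity
  have hzero : (∀ k : ℕ, q * k ≤ 2 * n → dbox A1 A2 B1 B2 k = 0 ∧ lbox A1 A2 B1 B2 k = 0) →
      ‖∑ m ∈ Ico u v, (pd q (Ico (A1:ℤ) A2) (Ico (B1:ℤ) B2) m - Mq Q A1 A2 B1 B2 q m) *
      ee (th * m)‖ ≤ l * (5 * (n:ℝ) ^ (-(ep / 2))) := by
    intro hz
    have : ∑ m ∈ Ico u v, (pd q (Ico (A1:ℤ) A2) (Ico (B1:ℤ) B2) m - Mq Q A1 A2 B1 B2 q m) * ee (th * m) = 0 := by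
      refine Finset.sum_eq_zero fun m hm => ?_
      rw [mem_Ico] at hm
      rw [hdiff m (by omega)]
      by_cases h : (q:ℤ) ∣ m
      · rw [if_pos h]
        obtain ⟨k, rfl⟩ := h
        rw [Int.mul_ediv_cancel_left k hq0.ne']
        have hk : 0 < k := by
          by_contra h0
          have : (q:ℤ) * k ≤ 0 := mul_nonpos_of_nonneg_of_nonpos hq0.le (not_lt.1 h0)
          omega
        have h1 : q * k.toNat ≤ 2 * n := by
          have h2 : ((q * k.toNat : ℕ):ℤ) = q * k := by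
            push_cast
            rw [Int.toNat_of_nonneg hk.le]
          omega
        obtain ⟨h3, h4⟩ := hz k.toNat h1
        rw [h3, Pool.Agent.Lib.H21T.Mbox, h4]
        simp
      · rw [if_neg h, zero_mul]
    rw [this, norm_zero]
    exact hR0
  by_cases c1 : A1 ≤ A2 ∧ B1 ≤ B2
  swap
  · apply hzero
    intro k _
    have c2 : A2 < A1 ∨ B2 < B1 := by omega
    exact ⟨m4_dbox_empty A1 A2 B1 B2 k c2, lbox_empty A1 A2 B1 B2 k hA hB c2⟩
  by_cases c2 : q * (A1 * B1) ≤ 2 * n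
  swap
  · apply hzero
    intro k hk
    have c3 : k < A1 * B1 := by
      by_contra h0
      have : q * (A1 * B1) ≤ q * k := Nat.mul_le_mul_left q (not_lt.1 h0)
      omega
    exact ⟨m4_dbox_low A1 A2 B1 B2 k c3, m4_lbox_low A1 A2 B1 B2 k hA hB c3⟩
  have c3 : A1 * B1 ≤ 2 * n := le_trans (Nat.le_mul_of_pos_left _ hq) c2
  have h35 := h34 c1.1 c1.2 c3
  -- change of variables m = q k
  obtain ⟨U, hU⟩ : ∃ U : ℕ, U = (u.toNat + q - 1) / q := ⟨_, rfl⟩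
  obtain ⟨V, hV⟩ : ∃ V : ℕ, V = (v.toNat + q - 1) / q := ⟨_, rfl⟩
  have hmem : ∀ k : ℕ, (U ≤ k ∧ k < V) ↔ (u ≤ (q:ℤ) * k ∧ (q:ℤ) * k < v) := by
    intro k
    have e1 : U ≤ k ↔ u.toNat ≤ q * k := by
      rw [hU, Nat.div_le_iff_le_mul_add_pred hq]
      omega
    have e2 : V ≤ k ↔ v.toNat ≤ q * k := by
      rw [hV, Nat.div_le_iff_le_mul_add_pred hq]
      omega
    have e3 : ((q * k : ℕ):ℤ) = (q:ℤ) * k := by push_cast; ring
    constructor
    · rintro ⟨h1, h2⟩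
      have h3 := e1.1 h1
      have h4 : ¬ (v.toNat ≤ q * k) := fun h => absurd (e2.2 h) (by omega)
      constructor
      · rw [← e3]; omega
      · rw [← e3]; omega
    · rintro ⟨h1, h2⟩
      rw [← e3] at h1 h2
      constructor
      · exact e1.2 (by omega)
      · by_contra h0
        have := e2.1 (by omega)
        omega
  have hUV : U ≤ V := by
    rw [hU, hV]
    apply Nat.div_le_div_right
    omega
  have hVU : V ≤ U + 2 * l + 1 := by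
    have e1 : V ≤ U + 2 * l + 1 ↔ v.toNat + q - 1 ≤ q * (U + 2 * l + 1) + (q - 1) := by
      rw [hV, Nat.div_le_iff_le_mul_add_pred hq]
    rw [e1]
    have e2 : u.toNat ≤ q * U := by
      have : U ≤ U := le_refl _
      rw [hU, Nat.div_le_iff_le_mul_add_pred hq, ← hU] at this
      omega
    have e3 : q * (U + 2 * l + 1) = q * U + q * (2 * l + 1) := by ring
    have e4 : 2 * l + 1 ≤ q * (2 * l + 1) := Nat.le_mul_of_pos_left _ hq
    have e5 : v.toNat ≤ u.toNat + 2 * l := by omega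
    rw [e3]
    omega
  obtain ⟨Fk, hFk⟩ : ∃ Fk : ℕ → ℂ, Fk = fun k => ((dbox A1 A2 B1 B2 k : ℂ) - (Mbox Q A1 A2 B1 B2 k : ℂ)) * ee (th * q * k) := ⟨_, rfl⟩
  have hsum : ∑ m ∈ Ico u v, (pd q (Ico (A1:ℤ) A2) (Ico (B1:ℤ) B2) m - Mq Q A1 A2 B1 B2 q m) * ee (th * m) =
      ∑ k ∈ Ico U V, Fk k := by
    have e1 : ∑ m ∈ Ico u v, (pd q (Ico (A1:ℤ) A2) (Ico (B1:ℤ) B2) m - Mq Q A1 A2 B1 B2 q m) * ee (th * m) =
        ∑ m ∈ (Ico u v).filter (fun m => (q:ℤ) ∣ m), Fk (m / q).toNat := by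
      rw [Finset.sum_filter]
      refine Finset.sum_congr rfl fun m hm => ?_
      rw [mem_Ico] at hm
      rw [hdiff m (by omega)]
      by_cases h : (q:ℤ) ∣ m
      · rw [if_pos h, if_pos h, hFk]
        obtain ⟨k, rfl⟩ := h
        rw [Int.mul_ediv_cancel_left k hq0.ne']
        have hk : 0 < k := by
          by_contra h0
          have : (q:ℤ) * k ≤ 0 := mul_nonpos_of_nonneg_of_nonpos hq0.le (not_lt.1 h0)
          omega
        have hk2 : ((k.toNat : ℕ) : ℝ) = (k:ℝ) := by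
          have : ((k.toNat : ℕ) : ℤ) = k := Int.toNat_of_nonneg hk.le
          exact_mod_cast congrArg (fun z : ℤ => (z:ℝ)) this
        simp only
        rw [hk2]
        congr 2
        push_cast
        ring
      · rw [if_neg h, if_neg h, zero_mul]
    rw [e1]
    symm
    refine Finset.sum_bij (fun (k : ℕ) _ => (q:ℤ) * k) ?_ ?_ ?_ ?_
    · intro k hk
      rw [mem_Ico] at hk
      rw [mem_filter, mem_Ico]
      exact ⟨(hmem k).1 hk, dvd_mul_right _ _⟩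
    · intro a _ b _ hab
      have := mul_left_cancel₀ hq0.ne' hab
      exact_mod_cast this
    · intro m hm
      rw [mem_filter, mem_Ico] at hm
      obtain ⟨hm1, k, rfl⟩ := hm
      have hk : 0 < k := by
        by_contra h0
        have : (q:ℤ) * k ≤ 0 := mul_nonpos_of_nonneg_of_nonpos hq0.le (not_lt.1 h0)
        omega
      obtain ⟨k', hk'⟩ := Int.eq_ofNat_of_zero_le hk.le
      refine ⟨k', ?_, by rw [hk']⟩
      rw [mem_Ico, hmem k']
      rw [hk'] at hm1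
      exact hm1
    · intro k _
      rw [Int.mul_ediv_cancel_left _ hq0.ne', Int.toNat_natCast]
  rw [hsum]
  have hsplit : ∑ k ∈ Ico U V, Fk k = ∑ k ∈ Ico U (U + (V - U + l)), Fk k - ∑ k ∈ Ico V (V + l), Fk k := by
    have e1 : U + (V - U + l) = V + l := by omega
    rw [e1, ← Finset.sum_Ico_consecutive Fk hUV (by omega : V ≤ V + l), add_sub_cancel_right]
  have hFsum : ∀ x H : ℕ, ((2 * n : ℕ):ℝ) ^ (1 / 2 - ka) ≤ H →
      ‖∑ k ∈ Ico x (x + H), Fk k‖ ≤ H * ((2 * n : ℕ):ℝ) ^ (-(ep / 2)) := by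
    intro x H hH
    rw [hFk]
    exact h35 x H (th * q) hH
  have b1 := hFsum U (V - U + l) (hl.trans (by exact_mod_cast (by omega : l ≤ V - U + l)))
  have b2 := hFsum V l hl
  have hpow : ((2 * n : ℕ):ℝ) ^ (-(ep / 2)) ≤ (n:ℝ) ^ (-(ep / 2)) := by
    apply Real.rpow_le_rpow_of_nonpos
    · exact_mod_cast hn
    · exact_mod_cast (by omega : n ≤ 2 * n)
    · linarith
  have hp0 : 0 ≤ ((2 * n : ℕ):ℝ) ^ (-(ep / 2)) := Real.rpow_nonneg (Nat.cast_nonneg _) _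
  rw [hsplit]
  refine (norm_sub_le _ _).trans ((add_le_add b1 b2).trans ?_)
  have h7 : ((V - U + l : ℕ):ℝ) + l ≤ 5 * l := by
    have : (V - U + l) + l ≤ 5 * l := by omega
    exact_mod_cast this
  calc ((V - U + l : ℕ):ℝ) * ((2 * n : ℕ):ℝ) ^ (-(ep / 2)) + l * ((2 * n : ℕ):ℝ) ^ (-(ep / 2))
      = (((V - U + l : ℕ):ℝ) + l) * ((2 * n : ℕ):ℝ) ^ (-(ep / 2)) := by ring
    _ ≤ (5 * l) * (n:ℝ) ^ (-(ep / 2)) := mul_le_mul h7 hpow hp0 (by positivity)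
    _ = l * (5 * (n:ℝ) ^ (-(ep / 2))) := by ring

end Pool.Agent.H44W
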