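import Pool.Agent.Lib.H44W.M0
import Pool.Agent.Lib.H44W.M2
import Pool.Agent.Lib.H44W.M3
import Pool.Agent.Lib.H44W.M4
import Pool.Agent.Lib.H21T.M1
/-!
CHUNK M7 (M). The model Mq has the inverse property with polynomial loss, uniformly in its level Q.
Proof. If A2 < A1 or B2 < B1 then lbox = 0 (lbox_empty), so Mq = 0 and TF = 0, impossible (n^2/D > 0). Otherwise lboxr_rep gives
J, c, al' with sum |c j| <= A0 := 7 (1 + log n) (unfold H81E.Rep) and lboxr q .. m = sum_j c j * ee (al' j * m) for 2 <= m <= 2n.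
For 2 <= m <= 2n: Mq Q A1 A2 B1 B2 q m = lboxr q .. m * psi (q Q) al m, with al a = lam Q (a/q) if q | a, else 0: if q does not divide m, then
a | m and q | a are impossible, both sides 0; if m = q k: Mbox k = lbox k * sum_{d <= Q, d | k} lam Q d and a = q d, a | m iff d | k,
a <= q Q iff d <= Q; lbox k = lboxr (q k) (lboxr_eq). |al a| <= S := 1 + log Q (H21T.m1).
model_cf (M2) with hone := type_one_psi (M0), A = q Q: n/(80 (D A0 S)(1+log n)^2)^(C+1) <= |ghat|; and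
80 * 7 * (1+log n) (1 + log Q)(1+log n)^2 * D <= 560 (1+log n)^4 D <= D^2 as Q <= n^(1/4) <= n and 560 (1+log n)^4 <= D (hD2).
So n/D^(2(C+1)) <= |ghat|. (n >= 2 because (1+log n)^4 * 560 <= D and D^(..) .. use hn.)
-/
namespace Pool.Agent.H44W
open Finset

/-- The coefficients of the model with cofactor q. -/
noncomputable def m7_al (Q q : ℕ) (a : ℕ) : ℂ :=
  if q ∣ a then ((Pool.Agent.Lib.H21T.lam Q (a / q) : ℝ) : ℂ) else 0

theorem m7_psi (Q q k : ℕ) (hq : 1 ≤ q) :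
    psi (q * Q) (m7_al Q q) ((q:ℤ) * k) = ((Pool.Agent.Lib.H21T.gQ Q k : ℝ) : ℂ) := by
  unfold psi Pool.Agent.Lib.H21T.gQ
  rw [Complex.ofReal_sum]
  have h1 : ∀ a ∈ Icc 1 (q * Q), (if ((a:ℕ):ℤ) ∣ (q:ℤ) * k then m7_al Q q a else 0) =
      if a ∣ q * k ∧ q ∣ a then ((Pool.Agent.Lib.H21T.lam Q (a / q) : ℝ) : ℂ) else 0 := by
    intro a _
    have h2 : (((a:ℕ):ℤ) ∣ (q:ℤ) * k) ↔ a ∣ q * k := by
      rw [← Int.natCast_dvd_natCast]
      push_cast
      rfl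
    unfold m7_al
    by_cases h3 : a ∣ q * k
    · rw [if_pos (h2.2 h3)]
      by_cases h4 : q ∣ a
      · rw [if_pos h4, if_pos ⟨h3, h4⟩]
      · rw [if_neg h4, if_neg (fun h => h4 h.2)]
    · rw [if_neg (fun h => h3 (h2.1 h)), if_neg (fun h => h3 h.1)]
  rw [sum_congr rfl h1, ← sum_filter]
  symm
  refine sum_nbij' (fun d => q * d) (fun a => a / q) ?_ ?_ ?_ ?_ ?_
  · intro d hd
    rw [mem_filter, mem_Icc] at hd
    rw [mem_filter, mem_Icc]
    exact ⟨⟨Nat.mul_pos hq hd.1.1, Nat.mul_le_mul_left q hd.1.2⟩, Nat.mul_dvd_mul_left q hd.2,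
      Dvd.intro _ rfl⟩
  · intro a ha
    rw [mem_filter, mem_Icc] at ha
    obtain ⟨⟨h2, h3⟩, h4, d, rfl⟩ := ha
    rw [mem_filter, mem_Icc, Nat.mul_div_cancel_left _ hq]
    refine ⟨⟨?_, Nat.le_of_mul_le_mul_left h3 hq⟩, Nat.dvd_of_mul_dvd_mul_left hq h4⟩
    rcases Nat.eq_zero_or_pos d with h5 | h5
    · subst h5
      rw [mul_zero] at h2
      omega
    · exact h5
  · intro d _
    exact Nat.mul_div_cancel_left _ hq
  · intro a ha
    rw [mem_filter] at ha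
    exact Nat.mul_div_cancel' ha.2.2
  · intro d _
    rw [Nat.mul_div_cancel_left _ hq]

theorem m7_psi_zero (Q q : ℕ) (m : ℤ) (h : ¬ (q:ℤ) ∣ m) : psi (q * Q) (m7_al Q q) m = 0 := by
  unfold psi
  refine sum_eq_zero fun a _ => ?_
  by_cases h1 : (a:ℤ) ∣ m
  · rw [if_pos h1]
    unfold m7_al
    rw [if_neg]
    intro h2
    exact h ((Int.natCast_dvd_natCast.2 h2).trans h1)
  · rw [if_neg h1]

theorem m7_Mq (Q A1 A2 B1 B2 q : ℕ) (hq : 1 ≤ q) (m : ℤ) (hm : 1 ≤ m) :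
    Mq Q A1 A2 B1 B2 q m = ((lboxr q A1 A2 B1 B2 m : ℝ) : ℂ) * psi (q * Q) (m7_al Q q) m := by
  unfold Mq
  by_cases h : (q:ℤ) ∣ m
  · rw [if_pos h]
    obtain ⟨z, rfl⟩ := h
    have hq0 : (0:ℤ) < q := by exact_mod_cast hq
    have hz : 1 ≤ z := by
      by_contra hcon
      have h1 : z ≤ 0 := by omega
      have h2 : (q:ℤ) * z ≤ 0 := mul_nonpos_of_nonneg_of_nonpos hq0.le h1
      omega
    obtain ⟨k, rfl⟩ := Int.eq_ofNat_of_zero_le (by omega : 0 ≤ z)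
    have hk : 1 ≤ k := by exact_mod_cast hz
    have h3 : ((q:ℤ) * (k:ℤ) / q).toNat = k := by
      rw [Int.mul_ediv_cancel_left _ hq0.ne']
      exact Int.toNat_natCast k
    rw [h3, m7_psi Q q k hq, lboxr_eq q A1 A2 B1 B2 k hq hk]
    unfold Pool.Agent.Lib.H21T.Mbox
    rw [Complex.ofReal_mul]
  · rw [if_neg h, m7_psi_zero Q q m h, mul_zero]

theorem mq_cf (C : ℕ) (h2 : ClassTwo C) (n Q A1 A2 B1 B2 q : ℕ) (hn : 2 ≤ n) (hQ : 1 ≤ Q)
    (hq : 1 ≤ q) (hqQ : ((q * Q : ℕ):ℝ) ≤ (n:ℝ) ^ (1 / 4 : ℝ)) (hA : 1 ≤ A1) (hB : 1 ≤ B1)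
    (hA2 : A2 ≤ 2 * A1) (D : ℝ) (hD2 : 560 * (1 + Real.log n) ^ 4 ≤ D)
    (hdiv : ∀ m : ℕ, 1 ≤ m → m ≤ 2 * n → (m.divisors.card : ℝ) ≤ D)
    (W f g : ℤ → ℂ) (hW : ∀ x, ‖W x‖ ≤ 1) (hf : ∀ x, ‖f x‖ ≤ 1) (hg : ∀ x, ‖g x‖ ≤ 1)
    (hT : (n:ℝ) ^ 2 / D ≤ ‖TF n (Mq Q A1 A2 B1 B2 q) W f g‖) :
    ∃ th : ℝ, (n:ℝ) / D ^ (2 * (C + 1)) ≤ ‖∑ z ∈ Icc (1:ℤ) n, g z * ee (th * z)‖ := by
  have hL0 : 0 ≤ Real.log n := Real.log_natCast_nonneg n
  have hL1 : 1 ≤ 1 + Real.log n := by linarith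
  have hL4 : 1 ≤ (1 + Real.log n) ^ 4 := one_le_pow₀ hL1
  have hD560 : 560 ≤ D := by linarith
  have hD0 : 0 < D := by linarith
  have hn0 : (0:ℝ) < n := by
    have : 0 < n := by omega
    exact_mod_cast this
  have hn1 : (1:ℝ) ≤ n := by
    have : 1 ≤ n := by omega
    exact_mod_cast this
  by_cases hE : A2 < A1 ∨ B2 < B1
  · exfalso
    have h0 : TF n (Mq Q A1 A2 B1 B2 q) W f g = 0 := by
      unfold TF
      refine sum_eq_zero fun x _ => sum_eq_zero fun y _ => ?_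
      have h1 : Mq Q A1 A2 B1 B2 q (x + y) = 0 := by
        unfold Mq Pool.Agent.Lib.H21T.Mbox
        rw [lbox_empty A1 A2 B1 B2 _ hA hB hE, zero_mul, Complex.ofReal_zero, ite_self]
      rw [h1, mul_zero, zero_mul]
    rw [h0, norm_zero] at hT
    have : 0 < (n:ℝ) ^ 2 / D := by positivity
    linarith
  · rw [not_or, not_lt, not_lt] at hE
    obtain ⟨J, c, ph, hc, hrep⟩ :=
      lboxr_rep n q A1 A2 B1 B2 (by omega) hq hA hE.1 hA2 hB hE.2
    have hlQ0 : 0 ≤ Real.log Q := Real.log_natCast_nonneg Q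
    have hal : ∀ a, ‖m7_al Q q a‖ ≤ 1 + Real.log Q := by
      intro a
      unfold m7_al
      by_cases h : q ∣ a
      · rw [if_pos h, Complex.norm_real, Real.norm_eq_abs]
        exact Pool.Agent.Lib.H21T.m1 Q (a / q) hQ
      · rw [if_neg h, norm_zero]
        linarith
    obtain ⟨th, hth⟩ := model_cf C h2 type_one_psi n (q * Q) hn hqQ D (7 * (1 + Real.log n))
      (1 + Real.log Q) (by linarith) hdiv (by linarith) (by linarith) J c ph hc (m7_al Q q) hal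
      (Mq Q A1 A2 B1 B2 q) (fun m hm hm2 => by
        rw [m7_Mq Q A1 A2 B1 B2 q hq m (by omega)]
        have h5 := hrep m hm hm2
        simp only at h5
        rw [h5]) W f g hW hf hg hT
    refine ⟨th, le_trans ?_ hth⟩
    have hQn : (Q:ℝ) ≤ n := by
      have h1 : (Q:ℝ) ≤ ((q * Q : ℕ):ℝ) := by
        exact_mod_cast Nat.le_mul_of_pos_left Q hq
      have h3 : (n:ℝ) ^ (1 / 4 : ℝ) ≤ n := by
        calc (n:ℝ) ^ (1 / 4 : ℝ) ≤ (n:ℝ) ^ (1 : ℝ) :=
              Real.rpow_le_rpow_of_exponent_le hn1 (by norm_num)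
          _ = n := Real.rpow_one _
      linarith
    have hlogQ : Real.log Q ≤ Real.log n := by
      apply Real.log_le_log _ hQn
      exact_mod_cast hQ
    have hkey : 80 * (D * (7 * (1 + Real.log n)) * (1 + Real.log Q)) * (1 + Real.log n) ^ 2 ≤
        D ^ 2 := by
      have h1 : (1 + Real.log Q) ≤ 1 + Real.log n := by linarith
      calc 80 * (D * (7 * (1 + Real.log n)) * (1 + Real.log Q)) * (1 + Real.log n) ^ 2
          = D * (560 * ((1 + Real.log n) ^ 3 * (1 + Real.log Q))) := by ring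
        _ ≤ D * (560 * ((1 + Real.log n) ^ 3 * (1 + Real.log n))) := by gcongr
        _ = D * (560 * (1 + Real.log n) ^ 4) := by ring
        _ ≤ D * D := by gcongr
        _ = D ^ 2 := by ring
    have hpos : 0 < 80 * (D * (7 * (1 + Real.log n)) * (1 + Real.log Q)) *
        (1 + Real.log n) ^ 2 := by positivity
    rw [pow_mul]
    exact div_le_div_of_nonneg_left hn0.le (pow_pos hpos _) (pow_le_pow_left₀ hpos.le hkey _)

end Pool.Agent.H44W
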