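import Mathlib
/-!
H44W: near-diagonal pieces, part D1 + D2 (MP_443e5f, candidate T). Definitions.

TF n F W f g is the bilinear form sum over x, y in [1,n] of f x * g y * F (x+y) * W (x-y).
pd q I1 I2 is the near-diagonal piece: m is sent to the number of (a,b) in I1 x I2 with q*a*b = m.
WL l w: w is locally linear on the windows of length l of a partition of the integers.
-/
namespace Pool.Agent.H44W
open Finset

/-- e(x) = exp(2 pi i x). -/
noncomputable def ee (x : ℝ) : ℂ := Complex.exp (2 * Real.pi * x * Complex.I)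

/-- The bilinear form. -/
noncomputable def TF (n : ℕ) (F W f g : ℤ → ℂ) : ℂ :=
  ∑ x ∈ Icc (1:ℤ) n, ∑ y ∈ Icc (1:ℤ) n, f x * g y * F (x + y) * W (x - y)

/-- The near-diagonal piece. -/
noncomputable def pd (q : ℕ) (I1 I2 : Finset ℤ) (m : ℤ) : ℂ :=
  (((I1 ×ˢ I2).filter (fun p => (q:ℤ) * p.1 * p.2 = m)).card : ℂ)

/-- Window-linear functions: windows of length l, one linear phase on each window. -/
def WL (l : ℕ) (w : ℤ → ℂ) : Prop :=
  ∃ (r : ℤ) (ep : ℤ → ℂ) (th : ℤ → ℝ), (∀ k, ‖ep k‖ ≤ 1) ∧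
    ∀ y, w y = ep ((y - r) / l) * ee (th ((y - r) / l) * y)

/-- Truncation to [1,n]. -/
noncomputable def cut (n : ℕ) (f : ℤ → ℂ) (x : ℤ) : ℂ := if x ∈ Icc (1:ℤ) n then f x else 0

/-- Correlation of Th with its translate by t. -/
noncomputable def Cor (S : Finset (ℤ × ℤ)) (V : Finset ℤ) (Th : ℤ × ℤ → ℤ → ℂ) (t : ℤ × ℤ) : ℂ :=
  ∑ p ∈ S, ∑ v ∈ V, Th (p + t) v * (starRingEnd ℂ) (Th p v)

/-- Largest Fourier coefficient (frequencies k/l) of G on the window [z, z+l). -/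
noncomputable def amp (l : ℕ) (G : ℤ → ℂ) (z : ℤ) : ℝ :=
  ⨆ k : Fin l, ‖∑ w ∈ range l, G (z + w) * ee ((k:ℝ) * w / l)‖

/-- C_G(D, D'), the fourfold correlation. -/
noncomputable def CG (n : ℕ) (G : ℤ → ℂ) (D E : ℤ) : ℂ :=
  ∑ y ∈ Icc (1:ℤ) n, G y * (starRingEnd ℂ) (G (y + D)) * (starRingEnd ℂ) (G (y + E)) * G (y + D + E)

/-- The shift D of the first van der Corput step. -/
def sD (q : ℕ) (s t : ℤ) (p : ℤ × ℤ) : ℤ := (q:ℤ) * (p.1 * t + p.2 * s + 2 * s * t)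

/-- The shift D' of the second van der Corput step. -/
def sE (q : ℕ) (s t h : ℤ) (p : ℤ × ℤ) : ℤ := (q:ℤ) * (h * (s * p.2 - t * p.1) - h ^ 2 * s * t)

/-- The function of the first step (v = x - y; the parity condition makes x, y integers). -/
noncomputable def Th1 (n q : ℕ) (S : Finset (ℤ × ℤ)) (f g : ℤ → ℂ) (p : ℤ × ℤ) (v : ℤ) : ℂ :=
  if p ∈ S ∧ Even ((q:ℤ) * p.1 * p.2 + v) then
    cut n f (((q:ℤ) * p.1 * p.2 + v) / 2) * cut n g (((q:ℤ) * p.1 * p.2 - v) / 2) else 0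

/-- The weight of the second step. -/
noncomputable def w2 (n q : ℕ) (s t : ℤ) (f : ℤ → ℂ) (p : ℤ × ℤ) (x : ℤ) : ℂ :=
  cut n f (x + sD q s t p) * (starRingEnd ℂ) (cut n f x)

/-- The function of the second step. -/
noncomputable def Th2 (n q : ℕ) (S : Finset (ℤ × ℤ)) (s t : ℤ) (g : ℤ → ℂ) (p : ℤ × ℤ) (x : ℤ) : ℂ :=
  if p ∈ S then
    cut n g ((q:ℤ) * p.1 * p.2 - x + sD q s t p) *
      (starRingEnd ℂ) (cut n g ((q:ℤ) * p.1 * p.2 - x)) else 0

/-- A box. -/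
noncomputable def bx (a1 b1 a2 b2 : ℤ) : Finset (ℤ × ℤ) := Ico a1 b1 ×ˢ Ico a2 b2

end Pool.Agent.H44W
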