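import Pool.Agent.Lib.H44W.W0
/-!
CHUNK V6 (M). The second correlation is a sum of fourfold correlations CG over a box.
Let S2 = S.filter (p + (2s,2t) in S), S = bx A1 B1 A2 B2, tau = (h s, -(h t)). For p and y := q p1 p2 - x:
Th2 (p + tau) x * conj (Th2 p x) = [p + tau in S2][p in S2] G(y' + sD) conj G(y') * conj G(y + sD) * G(y), with G = cut n g,
y' = q (p1 + h s)(p2 - h t) - x = y + sE q s t h p (ring), and sD (p + tau) = sD p. For p in S2 the map x -> y = q p1 p2 - x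
sends the x with y in [1,n] into V2 = Icc (-n) M provided q p1 p2 <= M + 1 and q p1 p2 >= 0 - fine for p in S when
q B1 B2 <= M; terms with y outside [1,n] vanish (factor G y). So the sum over x in V2 is CG n G (sD p) (sE p)
(CG n G D E = sum_{y in [1,n]} G y conj G(y+D) conj G(y+E) G(y+D+E)).
The set of p with p, p + (2s,2t), p + tau, p + tau + (2s,2t) all in S = Ico x Ico is again a product of two Ico's
(intersection of four translates of intervals): Ico a1 b1 x Ico a2 b2 with a1 = max of A1, A1 - 2s, A1 - h s, A1 - h s - 2s, b1 = min of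
B1, B1 - 2s, .. etc.
-/
namespace Pool.Agent.H44W
open Finset

theorem v6_cut_zero {n : ℕ} {f : ℤ → ℂ} {x : ℤ} (hx : x ∉ Icc (1:ℤ) n) : cut n f x = 0 := by
  unfold cut
  rw [if_neg hx]

theorem v6_inner (n : ℕ) (M m : ℤ) (hm : 0 ≤ m) (hmM : m ≤ M) (G : ℤ → ℂ) (hG : ∀ y, y ∉ Icc (1:ℤ) n → G y = 0) (D E : ℤ) :
    ∑ x ∈ Icc (-(n:ℤ)) M, G (m + E - x + D) * (starRingEnd ℂ) (G (m + E - x)) *
      (starRingEnd ℂ) (G (m - x + D) * (starRingEnd ℂ) (G (m - x))) = CG n G D E := by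
  unfold CG
  symm
  refine Finset.sum_bij_ne_zero (fun y _ _ => m - y) ?_ ?_ ?_ ?_
  · intro y hy _
    rw [Finset.mem_Icc] at hy ⊢
    omega
  · intro a _ _ b _ _ h
    omega
  · intro x hx h
    have h1 : G (m - x) ≠ 0 := by
      intro h0
      apply h
      rw [h0, map_zero, mul_zero, map_zero, mul_zero]
    have h2 : m - x ∈ Icc (1:ℤ) n := by
      by_contra h3
      exact h1 (hG _ h3)
    refine ⟨m - x, h2, ?_, by ring⟩
    intro h4
    apply h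
    rw [map_mul, Complex.conj_conj]
    have e1 : m + E - x + D = m - x + D + E := by ring
    have e2 : m + E - x = m - x + E := by ring
    rw [e1, e2]
    linear_combination h4
  · intro y _ _
    rw [map_mul, Complex.conj_conj]
    have e1 : m + E - (m - y) + D = y + D + E := by ring
    have e2 : m + E - (m - y) = y + E := by ring
    have e3 : m - (m - y) = y := by ring
    rw [e1, e2, e3]
    ring

theorem cor2_eq (n q A1 A2 B1 B2 : ℕ) (M : ℤ) (hM : (q:ℤ) * B1 * B2 ≤ M) (g : ℤ → ℂ)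
    (s t h : ℤ) :
    ∃ a1 b1 a2 b2 : ℤ, (A1:ℤ) ≤ a1 ∧ b1 ≤ B1 ∧ (A2:ℤ) ≤ a2 ∧ b2 ≤ B2 ∧
      Cor ((bx A1 B1 A2 B2).filter (fun p => p + (2 * s, 2 * t) ∈ bx A1 B1 A2 B2))
        (Icc (-(n:ℤ)) M)
        (Th2 n q ((bx A1 B1 A2 B2).filter (fun p => p + (2 * s, 2 * t) ∈ bx A1 B1 A2 B2)) s t g)
        (h * s, -(h * t)) =
      ∑ p ∈ bx a1 b1 a2 b2, CG n (cut n g) (sD q s t p) (sE q s t h p) := by
  set S := bx A1 B1 A2 B2 with hS
  set S2 := S.filter (fun p => p + (2 * s, 2 * t) ∈ S) with hS2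
  refine ⟨max (max (A1:ℤ) (A1 - 2 * s)) (max (A1 - h * s) (A1 - h * s - 2 * s)),
    min (min (B1:ℤ) (B1 - 2 * s)) (min (B1 - h * s) (B1 - h * s - 2 * s)),
    max (max (A2:ℤ) (A2 - 2 * t)) (max (A2 + h * t) (A2 + h * t - 2 * t)),
    min (min (B2:ℤ) (B2 - 2 * t)) (min (B2 + h * t) (B2 + h * t - 2 * t)),
    le_trans (le_max_left _ _) (le_max_left _ _), le_trans (min_le_left _ _) (min_le_left _ _),
    le_trans (le_max_left _ _) (le_max_left _ _), le_trans (min_le_left _ _) (min_le_left _ _), ?_⟩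
  have hbox : bx (max (max (A1:ℤ) (A1 - 2 * s)) (max (A1 - h * s) (A1 - h * s - 2 * s)))
      (min (min (B1:ℤ) (B1 - 2 * s)) (min (B1 - h * s) (B1 - h * s - 2 * s)))
      (max (max (A2:ℤ) (A2 - 2 * t)) (max (A2 + h * t) (A2 + h * t - 2 * t)))
      (min (min (B2:ℤ) (B2 - 2 * t)) (min (B2 + h * t) (B2 + h * t - 2 * t))) =
      S2.filter (fun p => p + (h * s, -(h * t)) ∈ S2) := by
    ext ⟨x, y⟩
    rw [hS2, hS]
    unfold bx
    simp only [Finset.mem_filter, Finset.mem_product, Finset.mem_Ico, Prod.mk_add_mk, max_le_iff, lt_min_iff]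
    constructor
    · rintro ⟨⟨⟨⟨h1, h2⟩, h3, h4⟩, ⟨h5, h6⟩, h7, h8⟩, ⟨⟨h9, h10⟩, h11, h12⟩, ⟨h13, h14⟩, h15, h16⟩
      refine ⟨⟨⟨⟨?_, ?_⟩, ?_, ?_⟩, ⟨?_, ?_⟩, ?_, ?_⟩, ⟨⟨?_, ?_⟩, ?_, ?_⟩, ⟨?_, ?_⟩, ?_, ?_⟩ <;> linarith
    · rintro ⟨⟨⟨⟨h1, h2⟩, h3, h4⟩, ⟨h5, h6⟩, h7, h8⟩, ⟨⟨h9, h10⟩, h11, h12⟩, ⟨h13, h14⟩, h15, h16⟩
      refine ⟨⟨⟨⟨?_, ?_⟩, ?_, ?_⟩, ⟨?_, ?_⟩, ?_, ?_⟩, ⟨⟨?_, ?_⟩, ?_, ?_⟩, ⟨?_, ?_⟩, ?_, ?_⟩ <;> linarith
  rw [hbox, Finset.sum_filter]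
  unfold Cor
  refine Finset.sum_congr rfl fun p hp => ?_
  by_cases hp2 : p + (h * s, -(h * t)) ∈ S2
  · rw [if_pos hp2]
    have hpS : p ∈ S := (Finset.mem_filter.1 hp).1
    have hpb : ((A1:ℤ) ≤ p.1 ∧ p.1 < B1) ∧ (A2:ℤ) ≤ p.2 ∧ p.2 < B2 := by
      rw [hS] at hpS
      unfold bx at hpS
      rw [Finset.mem_product, Finset.mem_Ico, Finset.mem_Ico] at hpS
      exact hpS
    obtain ⟨⟨p1, p2⟩, p3, p4⟩ := hpb
    have hp10 : 0 ≤ p.1 := le_trans (by positivity) p1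
    have hp20 : 0 ≤ p.2 := le_trans (by positivity) p3
    have hm0 : 0 ≤ (q:ℤ) * p.1 * p.2 := by positivity
    have hmM : (q:ℤ) * p.1 * p.2 ≤ M := by
      refine le_trans ?_ hM
      gcongr
    rw [← v6_inner n M ((q:ℤ) * p.1 * p.2) hm0 hmM (cut n g) (fun y hy => v6_cut_zero hy) (sD q s t p) (sE q s t h p)]
    refine Finset.sum_congr rfl fun x _ => ?_
    have e1 : (q:ℤ) * (p + (h * s, -(h * t))).1 * (p + (h * s, -(h * t))).2 = (q:ℤ) * p.1 * p.2 + sE q s t h p := by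
      unfold sE
      change (q:ℤ) * (p.1 + h * s) * (p.2 + -(h * t)) = _
      ring
    have e2 : sD q s t (p + (h * s, -(h * t))) = sD q s t p := by
      unfold sD
      change (q:ℤ) * ((p.1 + h * s) * t + (p.2 + -(h * t)) * s + 2 * s * t) = _
      ring
    unfold Th2
    rw [if_pos hp2, if_pos hp, e1, e2]
  · rw [if_neg hp2]
    refine Finset.sum_eq_zero fun x _ => ?_
    unfold Th2
    rw [if_neg hp2, zero_mul]

end Pool.Agent.H44W
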