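import Pool.Agent.Lib.H44W.E4
/-!
CHUNK E5 (S/M). The fourfold correlation summed over two independent progressions.
CG n G (D + P j) (E + Q i) = sum_{y in [1,n]} G y * conj G(y + D + P j) * conj G(y + E + Q i) * G(y + D + E + P j + Q i).
Exchange sums: the sum over i, j is sum_y G y * [sum_ij G1 j * G2 i * G(z_y + P j + Q i)] with z_y = y + D + E,
G1 j = conj G(y + D + P j), G2 i = conj G(y + E + Q i), all of norm <= 1 (G = cut n g, norm_cut below). local_u2 (E3) gives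
<= N amp l G (y + D + E - X), X = N(|P|+|Q|); sum over y in [1,n] with amp_sum_le (E4), ka = D + E - X: <= N * (l * m).
-/
namespace Pool.Agent.H44W
open Finset

theorem norm_cut (n : ℕ) (f : ℤ → ℂ) (hf : ∀ x, ‖f x‖ ≤ 1) (x : ℤ) : ‖cut n f x‖ ≤ 1 := by
  unfold cut
  split_ifs
  · exact hf x
  · rw [norm_zero]
    exact zero_le_one

theorem CG_prog (l n N : ℕ) (hN : 0 < N) (P Q : ℤ) (hP : P ≠ 0) (hQ : Q ≠ 0)
    (hl : 2 * ((N:ℤ) * (|P| + |Q|)) ≤ l) (g : ℤ → ℂ) (hg : ∀ x, ‖g x‖ ≤ 1) (m : ℝ)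
    (hm : ∀ w : ℤ → ℂ, WL l w → ‖∑ y ∈ Icc (1:ℤ) n, g y * w y‖ ≤ m) (D E : ℤ) :
    ‖∑ i ∈ range N, ∑ j ∈ range N, CG n (cut n g) (D + P * j) (E + Q * i)‖ ≤ (N:ℝ) * (l * m) := by
  have hl0 : 0 < l := by
    have hN' : (1:ℤ) ≤ N := by exact_mod_cast hN
    have hP' : 1 ≤ |P| := Int.one_le_abs hP
    have hQ' : 1 ≤ |Q| := Int.one_le_abs hQ
    have h1 : (1:ℤ) * 2 ≤ (N:ℤ) * (|P| + |Q|) :=
      mul_le_mul hN' (by linarith) (by norm_num) (by linarith)
    have h2 : (0:ℤ) < l := by linarith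
    exact_mod_cast h2
  obtain ⟨G, hG⟩ : ∃ G, G = cut n g := ⟨_, rfl⟩
  have hG1 : ∀ x, ‖G x‖ ≤ 1 := by
    intro x
    rw [hG]
    exact norm_cut n g hg x
  have hconj : ∀ x, ‖(starRingEnd ℂ) (G x)‖ ≤ 1 := by
    intro x
    rw [RCLike.norm_conj]
    exact hG1 x
  have hamp := amp_sum_le l n hl0 g m hm (D + E - (N:ℤ) * (|P| + |Q|))
  rw [← hG] at hamp ⊢
  have e1 : ∑ i ∈ range N, ∑ j ∈ range N, CG n G (D + P * j) (E + Q * i) =
      ∑ y ∈ Icc (1:ℤ) n, G y * ∑ i ∈ range N, ∑ j ∈ range N,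
        (starRingEnd ℂ) (G (y + (D + P * j))) * (starRingEnd ℂ) (G (y + (E + Q * i))) *
          G ((y + D + E) + P * j + Q * i) := by
    unfold CG
    have e2 : ∀ i ∈ range N, ∑ j ∈ range N, ∑ y ∈ Icc (1:ℤ) n,
        G y * (starRingEnd ℂ) (G (y + (D + P * j))) * (starRingEnd ℂ) (G (y + (E + Q * i))) *
          G (y + (D + P * j) + (E + Q * i)) =
        ∑ y ∈ Icc (1:ℤ) n, ∑ j ∈ range N, G y *
          ((starRingEnd ℂ) (G (y + (D + P * j))) * (starRingEnd ℂ) (G (y + (E + Q * i))) *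
          G ((y + D + E) + P * j + Q * i)) := by
      intro i _
      rw [Finset.sum_comm]
      refine Finset.sum_congr rfl fun y _ => Finset.sum_congr rfl fun j _ => ?_
      have e3 : y + (D + P * j) + (E + Q * i) = (y + D + E) + P * j + Q * i := by ring
      rw [e3]
      ring
    rw [Finset.sum_congr rfl e2, Finset.sum_comm]
    refine Finset.sum_congr rfl fun y _ => ?_
    rw [Finset.mul_sum]
    refine Finset.sum_congr rfl fun i _ => ?_
    rw [Finset.mul_sum]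
  rw [e1]
  refine (norm_sum_le _ _).trans ?_
  have h1 : ∀ y ∈ Icc (1:ℤ) n, ‖G y * ∑ i ∈ range N, ∑ j ∈ range N,
        (starRingEnd ℂ) (G (y + (D + P * j))) * (starRingEnd ℂ) (G (y + (E + Q * i))) *
          G ((y + D + E) + P * j + Q * i)‖ ≤
      (N:ℝ) * amp l G (y + (D + E - (N:ℤ) * (|P| + |Q|))) := by
    intro y _
    rw [norm_mul]
    have h2 := local_u2 l N hN P Q hP hQ hl G (fun j => (starRingEnd ℂ) (G (y + (D + P * j))))
      (fun i => (starRingEnd ℂ) (G (y + (E + Q * i)))) (fun j => hconj _) (fun i => hconj _)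
      (y + D + E)
    have e4 : y + D + E - (N:ℤ) * (|P| + |Q|) = y + (D + E - (N:ℤ) * (|P| + |Q|)) := by ring
    rw [e4] at h2
    calc ‖G y‖ * _ ≤ 1 * ((N:ℝ) * amp l G (y + (D + E - (N:ℤ) * (|P| + |Q|)))) :=
          mul_le_mul (hG1 y) h2 (norm_nonneg _) zero_le_one
      _ = _ := one_mul _
  refine (Finset.sum_le_sum h1).trans ?_
  rw [← Finset.mul_sum]
  exact mul_le_mul_of_nonneg_left hamp (Nat.cast_nonneg N)

end Pool.Agent.H44W
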