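import Pool.Agent.Lib.H44W.V7
import Pool.Agent.Lib.H44W.E5
/-!
CHUNK V8 (M). The fourfold correlations over a box are small if g has no correlation with window-linear functions.
Apply box_avg (V7) with ph p = CG n (cut n g) (sD q s t p) (sE q s t h p), |ph| <= n (n terms of norm <= 1: norm_cut).
For p' = p + ((i+j) s, (j-i) t): sD q s t p' = sD q s t p + P j with P = 2 q s t, and sE q s t h p' = sE q s t h p + Q i with
Q = -(2 q h s t) (ring). P, Q are not 0 (q >= 1). |P| + |Q| = 2 q |s t| (1 + |h|) <= 2 q L^2 (1 + H), so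
2 N (|P| + |Q|) <= 4 q L^2 (1+H) N <= l. CG_prog (E5): the inner double sum is <= N * (l * m). The box has at most A1 A2 points.
So N^2 |sum| <= N^2 * 4 n N L (A1 + A2) + A1 A2 * N l m; divide by N^2.
-/
namespace Pool.Agent.H44W
open Finset

theorem cg_box (n q l N L H A1 A2 : ℕ) (hq : 1 ≤ q) (hN : 1 ≤ N)
    (hl : 4 * q * L ^ 2 * (1 + H) * N ≤ l) (a1 b1 a2 b2 : ℤ) (h1 : b1 - a1 ≤ A1)
    (h2 : b2 - a2 ≤ A2) (s t h : ℤ) (hs0 : s ≠ 0) (ht0 : t ≠ 0) (hh0 : h ≠ 0) (hs : |s| ≤ L)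
    (ht : |t| ≤ L) (hh : |h| ≤ H) (g : ℤ → ℂ) (hg : ∀ x, ‖g x‖ ≤ 1) (m : ℝ)
    (hm : ∀ w : ℤ → ℂ, WL l w → ‖∑ y ∈ Icc (1:ℤ) n, g y * w y‖ ≤ m) :
    ‖∑ p ∈ bx a1 b1 a2 b2, CG n (cut n g) (sD q s t p) (sE q s t h p)‖ ≤
      4 * n * N * L * (A1 + A2) + A1 * A2 * l * m / N := by
  have hN0 : 0 < N := by omega
  have hNr : (0:ℝ) < N := by exact_mod_cast hN0
  have hm0 : 0 ≤ m := by
    have h := hm (fun _ => 0) ⟨0, fun _ => 0, fun _ => 0, fun _ => by simp, fun y => by simp⟩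
    exact (norm_nonneg _).trans h
  have hph : ∀ p : ℤ × ℤ, ‖CG n (cut n g) (sD q s t p) (sE q s t h p)‖ ≤ (n:ℝ) := by
    intro p
    unfold CG
    refine (norm_sum_le _ _).trans ?_
    have hc : ∀ x, ‖cut n g x‖ ≤ 1 := norm_cut n g hg
    have h1 : ∀ y ∈ Icc (1:ℤ) n, ‖cut n g y * (starRingEnd ℂ) (cut n g (y + sD q s t p)) *
        (starRingEnd ℂ) (cut n g (y + sE q s t h p)) *
        cut n g (y + sD q s t p + sE q s t h p)‖ ≤ 1 := by
      intro y _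
      rw [norm_mul, norm_mul, norm_mul, RCLike.norm_conj, RCLike.norm_conj]
      exact mul_le_one₀ (mul_le_one₀ (mul_le_one₀ (hc _) (norm_nonneg _) (hc _)) (norm_nonneg _) (hc _))
        (norm_nonneg _) (hc _)
    refine (Finset.sum_le_sum h1).trans ?_
    rw [Finset.sum_const, Int.card_Icc]
    simp
  have hbox := box_avg a1 b1 a2 b2 A1 A2 h1 h2 (n:ℝ) (Nat.cast_nonneg n)
    (fun p => CG n (cut n g) (sD q s t p) (sE q s t h p)) hph N L hN s t hs ht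
  have hq0 : (q:ℤ) ≠ 0 := by
    have : q ≠ 0 := by omega
    exact_mod_cast this
  have hP : 2 * (q:ℤ) * s * t ≠ 0 := mul_ne_zero (mul_ne_zero (mul_ne_zero two_ne_zero hq0) hs0) ht0
  have hQ : -(2 * (q:ℤ) * h * s * t) ≠ 0 :=
    neg_ne_zero.2 (mul_ne_zero (mul_ne_zero (mul_ne_zero (mul_ne_zero two_ne_zero hq0) hh0) hs0) ht0)
  have hl' : 2 * ((N:ℤ) * (|2 * (q:ℤ) * s * t| + |-(2 * (q:ℤ) * h * s * t)|)) ≤ (l:ℤ) := by
    have e1 : |2 * (q:ℤ) * s * t| = 2 * q * (|s| * |t|) := by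
      rw [abs_mul, abs_mul, abs_mul, abs_two, Nat.abs_cast]
      ring
    have e2 : |-(2 * (q:ℤ) * h * s * t)| = 2 * q * (|h| * (|s| * |t|)) := by
      rw [abs_neg, abs_mul, abs_mul, abs_mul, abs_mul, abs_two, Nat.abs_cast]
      ring
    have hst : |s| * |t| ≤ (L:ℤ) * L := mul_le_mul hs ht (abs_nonneg _) (by positivity)
    have hhst : |h| * (|s| * |t|) ≤ (H:ℤ) * ((L:ℤ) * L) :=
      mul_le_mul hh hst (by positivity) (by positivity)
    have hlz : 4 * (q:ℤ) * (L:ℤ) ^ 2 * (1 + (H:ℤ)) * N ≤ l := by exact_mod_cast hl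
    rw [e1, e2]
    calc 2 * ((N:ℤ) * (2 * q * (|s| * |t|) + 2 * q * (|h| * (|s| * |t|))))
        ≤ 2 * ((N:ℤ) * (2 * q * ((L:ℤ) * L) + 2 * q * ((H:ℤ) * ((L:ℤ) * L)))) := by
          gcongr
      _ = 4 * (q:ℤ) * (L:ℤ) ^ 2 * (1 + (H:ℤ)) * N := by ring
      _ ≤ l := hlz
  have hin : ∀ p ∈ bx a1 b1 a2 b2, ‖∑ i ∈ range N, ∑ j ∈ range N,
      CG n (cut n g) (sD q s t (p + (((i:ℤ) + j) * s, ((j:ℤ) - i) * t)))
        (sE q s t h (p + (((i:ℤ) + j) * s, ((j:ℤ) - i) * t)))‖ ≤ (N:ℝ) * (l * m) := by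
    intro p _
    have e : ∀ i j : ℕ, CG n (cut n g) (sD q s t (p + (((i:ℤ) + j) * s, ((j:ℤ) - i) * t)))
        (sE q s t h (p + (((i:ℤ) + j) * s, ((j:ℤ) - i) * t))) =
        CG n (cut n g) (sD q s t p + (2 * (q:ℤ) * s * t) * j)
          (sE q s t h p + (-(2 * (q:ℤ) * h * s * t)) * i) := by
      intro i j
      have a1 : sD q s t (p + (((i:ℤ) + j) * s, ((j:ℤ) - i) * t)) =
          sD q s t p + (2 * (q:ℤ) * s * t) * j := by
        unfold sD
        simp only [Prod.fst_add, Prod.snd_add]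
        ring
      have a2 : sE q s t h (p + (((i:ℤ) + j) * s, ((j:ℤ) - i) * t)) =
          sE q s t h p + (-(2 * (q:ℤ) * h * s * t)) * i := by
        unfold sE
        simp only [Prod.fst_add, Prod.snd_add]
        ring
      rw [a1, a2]
    rw [Finset.sum_congr rfl (fun i _ => Finset.sum_congr rfl (fun j _ => e i j))]
    exact CG_prog l n N hN0 _ _ hP hQ hl' g hg m hm _ _
  have hcard : ((bx a1 b1 a2 b2).card : ℝ) ≤ (A1:ℝ) * A2 := by
    have h3 : (bx a1 b1 a2 b2).card ≤ A1 * A2 := by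
      unfold bx
      rw [Finset.card_product, Int.card_Ico, Int.card_Ico]
      exact Nat.mul_le_mul (by omega) (by omega)
    exact_mod_cast h3
  have hsum := Finset.sum_le_sum hin
  rw [Finset.sum_const, nsmul_eq_mul] at hsum
  have hlm : (0:ℝ) ≤ (N:ℝ) * (l * m) := by positivity
  have hsum2 := hsum.trans (mul_le_mul_of_nonneg_right hcard hlm)
  have hN2 : (0:ℝ) < (N:ℝ) ^ 2 := by positivity
  refine le_of_mul_le_mul_left ?_ hN2
  refine hbox.trans ?_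
  calc _ ≤ (N:ℝ) ^ 2 * (n * (4 * N * L * (A1 + A2))) + (A1:ℝ) * A2 * ((N:ℝ) * (l * m)) := by
        exact add_le_add le_rfl hsum2
    _ = (N:ℝ) ^ 2 * (4 * n * N * L * (A1 + A2) + A1 * A2 * l * m / N) := by
        field_simp

end Pool.Agent.H44W
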