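import Pool.Agent.Lib.H44W.V5
import Pool.Agent.Lib.H44W.V6
import Pool.Agent.Lib.H44W.V8
/-!
CHUNK D1 (S/M). The two steps and the box sum put together (no parameters chosen yet).
Let S = bx A1 B1 A2 B2 and C(s,t) = the first correlation. step1 (V3) with M := the bound M1, where for all nonzero s, t with
|s|,|t| < L: step2 (V5; take M = max n (q B1 B2)) gives |C(s,t)|^2 <= 9 n A1 A2 (n A1 A2 / H + M2), M2 := 4 n N L (A1+A2) +
A1 A2 l m / N, because by cor2_eq (V6) the second correlation is a sum of CG over a box with sides <= A1, A2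
(b1 - a1 <= B1 - A1 <= A1), bounded by M2 by cg_box (V8) (|s| < L gives |s| <= L, |h| < H gives |h| <= H).
So |C(s,t)| <= sqrt(9 n A1 A2 (n A1 A2/H + M2)) =: M1 (m >= 0 is needed for nothing, but M2 >= 0: m >= 0 since hm with w = 0,
WL l 0 holds with ep = 0). Conclusion: step1.
-/
namespace Pool.Agent.H44W
open Finset

theorem two_steps (n q l N L H A1 A2 B1 B2 : ℕ) (hn : 1 ≤ n) (hq : 1 ≤ q) (hN : 1 ≤ N)
    (hL : 1 ≤ L) (hH : 1 ≤ H) (hl : 4 * q * L ^ 2 * (1 + H) * N ≤ l) (h2L1 : 2 * L ≤ A1)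
    (h2L2 : 2 * L ≤ A2) (hHL1 : H * L ≤ A1) (hHL2 : H * L ≤ A2) (hB1 : B1 ≤ 2 * A1)
    (hB2 : B2 ≤ 2 * A2) (W f g : ℤ → ℂ) (hW : ∀ x, ‖W x‖ ≤ 1) (hf : ∀ x, ‖f x‖ ≤ 1)
    (hg : ∀ x, ‖g x‖ ≤ 1) (m : ℝ)
    (hm : ∀ w : ℤ → ℂ, WL l w → ‖∑ y ∈ Icc (1:ℤ) n, g y * w y‖ ≤ m) :
    ‖TF n (pd q (Ico (A1:ℤ) B1) (Ico (A2:ℤ) B2)) W f g‖ ^ 2 ≤
      12 * n * A1 * A2 * (6 * n * A1 * A2 / L + Real.sqrt (9 * n * A1 * A2 *
        (n * A1 * A2 / H + (4 * n * N * L * (A1 + A2) + A1 * A2 * l * m / N)))) := by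
  have hWL0 : WL l (fun _ => (0 : ℂ)) :=
    ⟨0, fun _ => 0, fun _ => 0, fun j => by rw [norm_zero]; exact zero_le_one, fun y => by rw [zero_mul]⟩
  have hm0 : 0 ≤ m := (norm_nonneg _).trans (hm _ hWL0)
  have hM20 : 0 ≤ 4 * (n : ℝ) * N * L * (A1 + A2) + A1 * A2 * l * m / N := by positivity
  refine step1 n q L A1 A2 B1 B2 hn hL h2L1 h2L2 hB1 hB2 W f g hW hf hg _ (Real.sqrt_nonneg _) ?_
  intro s t hs ht hsL htL
  refine Real.le_sqrt_of_sq_le ?_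
  refine step2 n q L H A1 A2 B1 B2 hn hH hHL1 hHL2 hB1 hB2 (max (n : ℤ) ((q : ℤ) * B1 * B2)) (le_max_left _ _) f g hf hg
    s t hsL htL _ hM20 ?_
  intro h hh0 hhH
  obtain ⟨a1, b1, a2, b2, ha1, hb1, ha2, hb2, e⟩ := cor2_eq n q A1 A2 B1 B2 _ (le_max_right (n : ℤ) _) g s t h
  rw [e]
  exact cg_box n q l N L H A1 A2 hq hN hl a1 b1 a2 b2 (by omega) (by omega) s t h hs ht hh0 hsL.le htL.le hhH.le g hg m hm

end Pool.Agent.H44W
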