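import Pool.Agent.Lib.H44W.E1
/-!
CHUNK E2 (S/M). Discrete Parseval for a sparse progression and Fourier inversion on a window.
(a) parseval_prog: expand the square: the sum over k of |sum_j A j * ee(k P j / l)|^2 is the sum over j, j' of A j * conj (A j')
times sum_k ee(k P (j - j') / l) = l if l divides P (j - j'), else 0 (ee_orth). Since |P (j-j')| < l and P is not 0, only j = j'
contributes: the total is l * sum |A j|^2 <= l * N. (use Complex.mul_conj / Complex.normSq_eq_norm_sq, finite sums commute.)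
(b) inversion: G (z+w) = (1/l) sum_k (sum_w' G (z+w') ee(k w'/l)) * ee(-(k w/l)) for w < l: exchange the sums, ee_orth with
m = w' - w, and |w' - w| < l, so only w' = w contributes.
-/
namespace Pool.Agent.H44W
open Finset

theorem parseval_prog (l N : ℕ) (hl : 0 < l) (P : ℤ) (hP : P ≠ 0) (hPl : (N:ℤ) * |P| ≤ l)
    (A : ℕ → ℂ) (hA : ∀ j, ‖A j‖ ≤ 1) :
    ∑ k ∈ range l, ‖∑ j ∈ range N, A j * ee (-((k:ℝ) * (P * j) / l))‖ ^ 2 ≤ (l:ℝ) * N := by
  have key : ∀ j j' : ℕ, ∑ k ∈ range l, ee (-((k:ℝ) * (P * j) / l)) * (starRingEnd ℂ) (ee (-((k:ℝ) * (P * j') / l))) =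
      if (l:ℤ) ∣ P * ((j':ℤ) - j) then (l:ℂ) else 0 := by
    intro j j'
    rw [← ee_orth l hl]
    refine sum_congr rfl fun k _ => ?_
    rw [← ee_neg, ← ee_add]
    congr 1
    push_cast
    ring
  have hdiag : ∀ j ∈ range N, ∀ j' ∈ range N, (l:ℤ) ∣ P * ((j':ℤ) - j) → j' = j := by
    intro j hj j' hj' hd
    rw [mem_range] at hj hj'
    by_contra hne
    have h1 : P * ((j':ℤ) - j) ≠ 0 := by
      refine mul_ne_zero hP ?_
      intro h0
      exact hne (by omega)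
    have h2 := Int.le_of_dvd (abs_pos.2 h1) ((dvd_abs _ _).2 hd)
    rw [abs_mul] at h2
    have h3 : |((j':ℤ) - j)| < N := by
      rw [abs_lt]
      constructor <;> omega
    have h4 : 0 < |P| := abs_pos.2 hP
    nlinarith
  have h0 : ((∑ k ∈ range l, ‖∑ j ∈ range N, A j * ee (-((k:ℝ) * (P * j) / l))‖ ^ 2 : ℝ) : ℂ) =
      ((∑ j ∈ range N, (l:ℝ) * ‖A j‖ ^ 2 : ℝ) : ℂ) := by
    push_cast
    have h1 : ∀ k ∈ range l, ((‖∑ j ∈ range N, A j * ee (-((k:ℝ) * (P * j) / l))‖ : ℂ)) ^ 2 =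
        ∑ j ∈ range N, ∑ j' ∈ range N, A j * (starRingEnd ℂ) (A j') *
          (ee (-((k:ℝ) * (P * j) / l)) * (starRingEnd ℂ) (ee (-((k:ℝ) * (P * j') / l)))) := by
      intro k _
      rw [← Complex.mul_conj', map_sum, sum_mul_sum]
      refine sum_congr rfl fun j _ => sum_congr rfl fun j' _ => ?_
      rw [map_mul]
      ring
    rw [sum_congr rfl h1, sum_comm]
    refine sum_congr rfl fun j hj => ?_
    rw [sum_comm]
    have h2 : ∀ j' ∈ range N, ∑ k ∈ range l, A j * (starRingEnd ℂ) (A j') *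
          (ee (-((k:ℝ) * (P * j) / l)) * (starRingEnd ℂ) (ee (-((k:ℝ) * (P * j') / l)))) =
        if j' = j then (l:ℂ) * (‖A j‖ : ℂ) ^ 2 else 0 := by
      intro j' hj'
      rw [← mul_sum, key j j']
      by_cases h3 : j' = j
      · subst h3
        rw [if_pos rfl, sub_self, mul_zero, if_pos (dvd_zero _), Complex.mul_conj']
        ring
      · rw [if_neg h3, if_neg (fun hd => h3 (hdiag j hj j' hj' hd)), mul_zero]
    rw [sum_congr rfl h2, sum_ite_eq' (range N) j, if_pos hj]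
  have h1 : ∑ k ∈ range l, ‖∑ j ∈ range N, A j * ee (-((k:ℝ) * (P * j) / l))‖ ^ 2 = ∑ j ∈ range N, (l:ℝ) * ‖A j‖ ^ 2 := by
    exact_mod_cast h0
  rw [h1]
  have h2 : ∀ j ∈ range N, (l:ℝ) * ‖A j‖ ^ 2 ≤ (l:ℝ) := by
    intro j _
    have h3 : ‖A j‖ ^ 2 ≤ 1 := pow_le_one₀ (norm_nonneg _) (hA j)
    have h4 : (0:ℝ) ≤ l := Nat.cast_nonneg l
    nlinarith
  refine (sum_le_sum h2).trans ?_
  rw [sum_const, card_range, nsmul_eq_mul, mul_comm]

theorem inversion (l : ℕ) (hl : 0 < l) (G : ℤ → ℂ) (z : ℤ) (w : ℤ) (h0 : 0 ≤ w) (hw : w < l) :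
    G (z + w) = (1 / (l:ℂ)) * ∑ k ∈ range l,
      (∑ w' ∈ range l, G (z + w') * ee ((k:ℝ) * w' / l)) * ee (-((k:ℝ) * w / l)) := by
  have hl0 : (l:ℂ) ≠ 0 := Nat.cast_ne_zero.2 hl.ne'
  obtain ⟨w₀, rfl⟩ := Int.eq_ofNat_of_zero_le h0
  have hw₀ : w₀ < l := by exact_mod_cast hw
  have h1 : ∑ k ∈ range l, (∑ w' ∈ range l, G (z + w') * ee ((k:ℝ) * w' / l)) * ee (-((k:ℝ) * ((w₀:ℤ):ℝ) / l)) =
      ∑ w' ∈ range l, G (z + w') * ∑ k ∈ range l, ee ((k:ℝ) * (((w':ℤ) - (w₀:ℤ) : ℤ) : ℝ) / l) := by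
    have h2 : ∀ k ∈ range l, (∑ w' ∈ range l, G (z + w') * ee ((k:ℝ) * w' / l)) * ee (-((k:ℝ) * ((w₀:ℤ):ℝ) / l)) =
        ∑ w' ∈ range l, G (z + w') * ee ((k:ℝ) * (((w':ℤ) - (w₀:ℤ) : ℤ) : ℝ) / l) := by
      intro k _
      rw [sum_mul]
      refine sum_congr rfl fun w' _ => ?_
      rw [mul_assoc, ← ee_add]
      congr 2
      push_cast
      ring
    rw [sum_congr rfl h2, sum_comm]
    exact sum_congr rfl fun w' _ => by rw [mul_sum]
  rw [h1]
  have h3 : ∀ w' ∈ range l, G (z + w') * ∑ k ∈ range l, ee ((k:ℝ) * (((w':ℤ) - (w₀:ℤ) : ℤ) : ℝ) / l) =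
      if w' = w₀ then (l:ℂ) * G (z + w₀) else 0 := by
    intro w' hw'
    rw [mem_range] at hw'
    rw [ee_orth l hl]
    by_cases h4 : w' = w₀
    · subst h4
      rw [if_pos rfl, sub_self, if_pos (dvd_zero _), mul_comm]
    · rw [if_neg h4, if_neg, mul_zero]
      intro hd
      have h5 : (w':ℤ) - w₀ ≠ 0 := by
        intro h6
        exact h4 (by omega)
      have h6 := Int.le_of_dvd (abs_pos.2 h5) ((dvd_abs _ _).2 hd)
      have h7 : |((w':ℤ) - w₀)| < l := by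
        rw [abs_lt]
        constructor <;> omega
      omega
  rw [sum_congr rfl h3, sum_ite_eq' (range l) w₀, if_pos (mem_range.2 hw₀)]
  field_simp

end Pool.Agent.H44W
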