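import Pool.Agent.Lib.H44W.E2
/-!
CHUNK E3 (M). The local U^2 step (one line of Parseval).
Put X = N (|P| + |P'|), so 2 X <= l. For i, j < N: |P j + P' i| <= (N-1)(|P|+|P'|) < X, so w_ij := X + P j + P' i lies in
[0, l), and z0 + P j + P' i = (z0 - X) + w_ij. Insert inversion (E2) with z = z0 - X:
sum_ij G1 j G2 i G(z0 + P j + P' i)
 = (1/l) sum_k Ghat(k) * ee(-(k X / l)) * (sum_j G1 j ee(-(k (P j)/l))) * (sum_i G2 i ee(-(k (P' i)/l))),
with |Ghat(k)| <= amp l G z for k < l (le_ciSup, the range over Fin l is finite hence bounded: Set.finite_range .. bddAbove).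
Cauchy-Schwarz over k (Finset.sum_mul_sq_le_sq_mul_sq or inner_mul_le_norm_mul_norm) and parseval_prog for both
factors (N |P| <= l and N |P'| <= l): the absolute value is <= (1/l) * amp * sqrt(l N) * sqrt(l N) = N * amp.
amp_nonneg: Real.iSup_nonneg. amp_le: for k < l the k-th coefficient is at most amp.
-/
namespace Pool.Agent.H44W
open Finset

theorem amp_nonneg (l : ℕ) (G : ℤ → ℂ) (z : ℤ) : 0 ≤ amp l G z :=
  Real.iSup_nonneg fun _ => norm_nonneg _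

theorem le_amp (l : ℕ) (G : ℤ → ℂ) (z : ℤ) (k : ℕ) (hk : k < l) :
    ‖∑ w ∈ range l, G (z + w) * ee ((k:ℝ) * w / l)‖ ≤ amp l G z :=
  le_ciSup (f := fun k : Fin l => ‖∑ w ∈ range l, G (z + w) * ee ((k:ℝ) * w / l)‖)
    (Set.finite_range _).bddAbove ⟨k, hk⟩

theorem e3_bound (N : ℕ) (P Q : ℤ) (hP : P ≠ 0) (i j : ℕ) (hi : i < N) (hj : j < N) :
    |P * j + Q * i| < (N:ℤ) * (|P| + |Q|) := by
  have h1 : |P * j| ≤ |P| * (N - 1) := by
    rw [abs_mul, abs_of_nonneg (Int.natCast_nonneg j)]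
    exact mul_le_mul_of_nonneg_left (by omega) (abs_nonneg _)
  have h2 : |Q * i| ≤ |Q| * (N - 1) := by
    rw [abs_mul, abs_of_nonneg (Int.natCast_nonneg i)]
    exact mul_le_mul_of_nonneg_left (by omega) (abs_nonneg _)
  have h3 : 0 < |P| := abs_pos.2 hP
  have h4 : 0 ≤ |Q| := abs_nonneg _
  have h5 := abs_add_le (P * j) (Q * i)
  nlinarith

theorem local_u2 (l N : ℕ) (hN : 0 < N) (P Q : ℤ) (hP : P ≠ 0) (hQ : Q ≠ 0)
    (hl : 2 * ((N:ℤ) * (|P| + |Q|)) ≤ l) (G : ℤ → ℂ) (G1 G2 : ℕ → ℂ) (h1 : ∀ j, ‖G1 j‖ ≤ 1)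
    (h2 : ∀ j, ‖G2 j‖ ≤ 1) (z : ℤ) :
    ‖∑ i ∈ range N, ∑ j ∈ range N, G1 j * G2 i * G (z + P * j + Q * i)‖ ≤
      (N:ℝ) * amp l G (z - (N:ℤ) * (|P| + |Q|)) := by
  have hP0 : 0 < |P| := abs_pos.2 hP
  have hQ0 : 0 < |Q| := abs_pos.2 hQ
  have hN0 : (0:ℤ) < N := by exact_mod_cast hN
  have hNP : 0 < (N:ℤ) * |P| := mul_pos hN0 hP0
  have hNQ : 0 < (N:ℤ) * |Q| := mul_pos hN0 hQ0
  have hl' : 2 * ((N:ℤ) * |P| + (N:ℤ) * |Q|) ≤ l := by
    rw [← mul_add]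
    exact hl
  have hlz : (0:ℤ) < l := by linarith
  have hl0 : 0 < l := by exact_mod_cast hlz
  have hlR : (0:ℝ) < l := by exact_mod_cast hl0
  have hbd := e3_bound N P Q hP
  generalize hX : (N:ℤ) * (|P| + |Q|) = X at *
  set A : ℕ → ℂ := fun k => ∑ j ∈ range N, G1 j * ee (-((k:ℝ) * (P * j) / l)) with hA
  set B : ℕ → ℂ := fun k => ∑ i ∈ range N, G2 i * ee (-((k:ℝ) * (Q * i) / l)) with hB
  set H : ℕ → ℂ := fun k => ∑ w ∈ range l, G (z - X + w) * ee ((k:ℝ) * w / l) with hH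
  have e1 : ∀ i ∈ range N, ∀ j ∈ range N, G1 j * G2 i * G (z + P * j + Q * i)
      = (1 / (l:ℂ)) * ∑ k ∈ range l, H k * ee (-((k:ℝ) * X / l)) *
        ((G1 j * ee (-((k:ℝ) * (P * j) / l))) * (G2 i * ee (-((k:ℝ) * (Q * i) / l)))) := by
    intro i hi j hj
    have h3 := abs_lt.1 (hbd i j (Finset.mem_range.1 hi) (Finset.mem_range.1 hj))
    have h4 := inversion l hl0 G (z - X) (X + P * j + Q * i) (by linarith) (by linarith)
    have e2 : z + P * j + Q * i = z - X + (X + P * j + Q * i) := by ring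
    rw [e2, h4, ← mul_assoc, mul_comm (G1 j * G2 i) (1 / (l:ℂ)), mul_assoc, Finset.mul_sum]
    congr 1
    refine Finset.sum_congr rfl fun k _ => ?_
    have e3 : -((k:ℝ) * ((X + P * j + Q * i : ℤ) : ℝ) / l)
        = -((k:ℝ) * X / l) + (-((k:ℝ) * (P * j) / l) + -((k:ℝ) * (Q * i) / l)) := by
      push_cast
      ring
    rw [e3, ee_add, ee_add]
    ring
  have e4 : ∑ i ∈ range N, ∑ j ∈ range N, G1 j * G2 i * G (z + P * j + Q * i)
      = (1 / (l:ℂ)) * ∑ k ∈ range l, H k * ee (-((k:ℝ) * X / l)) * (A k * B k) := by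
    rw [Finset.sum_congr rfl fun i hi => Finset.sum_congr rfl fun j hj => e1 i hi j hj]
    simp only [← Finset.mul_sum]
    congr 1
    rw [Finset.sum_congr rfl fun i _ => Finset.sum_comm, Finset.sum_comm]
    refine Finset.sum_congr rfl fun k _ => ?_
    simp only [← Finset.mul_sum, ← Finset.sum_mul]
    rfl
  have e5 : ∀ k ∈ range l, ‖H k * ee (-((k:ℝ) * X / l)) * (A k * B k)‖
      ≤ amp l G (z - X) * ((‖A k‖ ^ 2 + ‖B k‖ ^ 2) / 2) := by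
    intro k hk
    rw [norm_mul, norm_mul, norm_ee, mul_one, norm_mul]
    have h3 : ‖H k‖ ≤ amp l G (z - X) := le_amp l G (z - X) k (Finset.mem_range.1 hk)
    have h4 : ‖A k‖ * ‖B k‖ ≤ (‖A k‖ ^ 2 + ‖B k‖ ^ 2) / 2 := by nlinarith [sq_nonneg (‖A k‖ - ‖B k‖)]
    exact mul_le_mul h3 h4 (mul_nonneg (norm_nonneg _) (norm_nonneg _)) (amp_nonneg _ _ _)
  have hpA : ∑ k ∈ range l, ‖A k‖ ^ 2 ≤ (l:ℝ) * N := parseval_prog l N hl0 P hP (by linarith) G1 h1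
  have hpB : ∑ k ∈ range l, ‖B k‖ ^ 2 ≤ (l:ℝ) * N := parseval_prog l N hl0 Q hQ (by linarith) G2 h2
  have e6 : ∑ k ∈ range l, (‖A k‖ ^ 2 + ‖B k‖ ^ 2) / 2 ≤ (l:ℝ) * N := by
    rw [← Finset.sum_div, Finset.sum_add_distrib]
    linarith
  rw [e4, norm_mul, norm_div, norm_one, Complex.norm_natCast]
  have e7 : ‖∑ k ∈ range l, H k * ee (-((k:ℝ) * X / l)) * (A k * B k)‖ ≤ amp l G (z - X) * ((l:ℝ) * N) := by
    refine (norm_sum_le _ _).trans ((Finset.sum_le_sum e5).trans ?_)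
    rw [← Finset.mul_sum]
    exact mul_le_mul_of_nonneg_left e6 (amp_nonneg _ _ _)
  calc (1 / (l:ℝ)) * ‖∑ k ∈ range l, H k * ee (-((k:ℝ) * X / l)) * (A k * B k)‖
      ≤ (1 / (l:ℝ)) * (amp l G (z - X) * ((l:ℝ) * N)) := mul_le_mul_of_nonneg_left e7 (by positivity)
    _ = (N:ℝ) * amp l G (z - X) := by
      field_simp

end Pool.Agent.H44W
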