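import Pool.Agent.Lib.H44W.E3
/-!
CHUNK E4 (M). From windows at all positions to one window-linear function (pigeonhole over residue classes).
Let G = cut n g, hypothesis hm: no WL l function w has |sum_{y in [1,n]} g y * w y| > m. Claim: the sum of amp l G z over n
consecutive integers z = y + ka, y in [1,n], is at most l * m.
Proof. For every z choose k_z < l with amp l G z = |sum_w G(z+w) ee(k_z w / l)| (the supremum over the finite nonempty type
Fin l is attained: exists_eq_ciSup_of_finite) and a phase c_z, |c_z| <= 1, with c_z * sum_w G(z+w) ee(k_z w/l) = amp l G z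
(c_z = conj(S)/|S|, or 0 if S = 0). For r in range l put
 w_r y := (if z in Z then c_z * ee(-(th z)) else 0) * ee(th_z y), where j = (y - r)/l (floor), z = r + j l, th_z = k_z / l,
 Z = {y + ka : y in [1,n]}; that is, w_r (z + w) = c_z ee(k_z w/l) on the window [z, z+l), z = r mod l. It is WL l with this r:
 ep j = if r + j l in Z then c_z * ee(-(k_z/l * z)) else 0, th j = k_z/l.
Then sum_{y in [1,n]} g y * w_r y = sum over all y of G y * w_r y = sum over z in Z, z = r mod l, of
 sum_{w < l} G(z+w) c_z ee(k_z w / l) = sum over those z of amp l G z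
(only windows z with z in Z have a nonzero coefficient; each y lies in exactly one window). Hence for each r the sum of amp l G z
over z in Z, z = r mod l is <= m, and summing over r in range l gives the claim (Finset.sum_fiberwise / sum over z of the
residue z mod l).
-/
namespace Pool.Agent.H44W
open Finset

theorem e4_phase (l : ℕ) (hl : 0 < l) (G : ℤ → ℂ) (z : ℤ) : ∃ (k : ℕ) (c : ℂ), ‖c‖ ≤ 1 ∧
    c * ∑ w ∈ range l, G (z + w) * ee ((k:ℝ) * w / l) = ((amp l G z : ℝ) : ℂ) := by
  have hne : Nonempty (Fin l) := ⟨⟨0, hl⟩⟩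
  obtain ⟨k, hk⟩ := exists_eq_ciSup_of_finite
    (f := fun k : Fin l => ‖∑ w ∈ range l, G (z + w) * ee (((k : ℕ):ℝ) * w / l)‖)
  obtain ⟨S, hS⟩ : ∃ S : ℂ, S = ∑ w ∈ range l, G (z + w) * ee (((k : ℕ):ℝ) * w / l) := ⟨_, rfl⟩
  have hamp : amp l G z = ‖S‖ := by
    rw [hS]
    exact hk.symm
  refine ⟨k, (‖S‖ : ℂ) / S, ?_, ?_⟩
  · rw [norm_div, Complex.norm_real, norm_norm]
    exact div_self_le_one _
  · rw [← hS, hamp]
    by_cases h0 : S = 0
    · rw [h0]
      simp
    · exact div_mul_cancel₀ _ h0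

theorem e4_win (l n : ℕ) (g F : ℤ → ℂ) (z : ℤ) :
    ∑ y ∈ Icc (1:ℤ) n, (if z ≤ y ∧ y < z + l then g y * F y else 0) =
      ∑ w ∈ range l, cut n g (z + w) * F (z + w) := by
  classical
  have h1 : ∑ w ∈ range l, cut n g (z + w) * F (z + w) =
      ∑ y ∈ (range l).image (fun w : ℕ => z + (w : ℤ)), cut n g y * F y := by
    rw [Finset.sum_image]
    intro a _ b _ hab
    have : z + (a : ℤ) = z + (b : ℤ) := hab
    omega
  have h2 : (range l).image (fun w : ℕ => z + (w : ℤ)) = Ico z (z + l) := by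
    ext y
    rw [Finset.mem_image, Finset.mem_Ico]
    constructor
    · rintro ⟨w, hw, rfl⟩
      rw [Finset.mem_range] at hw
      omega
    · rintro ⟨h3, h4⟩
      exact ⟨(y - z).toNat, by rw [Finset.mem_range]; omega, by omega⟩
  have h3 : ∀ y, cut n g y * F y = if y ∈ Icc (1:ℤ) n then g y * F y else 0 := by
    intro y
    unfold cut
    split_ifs
    · rfl
    · exact zero_mul _
  rw [h1, h2, Finset.sum_congr rfl (fun y _ => h3 y), ← Finset.sum_filter, ← Finset.sum_filter]
  refine Finset.sum_congr ?_ fun y _ => rfl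
  ext y
  rw [Finset.mem_filter, Finset.mem_filter, Finset.mem_Ico]
  exact and_comm

theorem e4_key (l n : ℕ) (hl : 0 < l) (g : ℤ → ℂ) (m : ℝ)
    (hm : ∀ w : ℤ → ℂ, WL l w → ‖∑ y ∈ Icc (1:ℤ) n, g y * w y‖ ≤ m) (Z : Finset ℤ) (r : ℤ) :
    ∑ z ∈ Z.filter (fun z => (l:ℤ) ∣ z - r), amp l (cut n g) z ≤ m := by
  classical
  choose k c hc hck using e4_phase l hl (cut n g)
  have hl' : (0:ℤ) < l := by exact_mod_cast hl
  have hlR : (l:ℝ) ≠ 0 := by exact_mod_cast hl.ne'
  obtain ⟨w, hw⟩ : ∃ w : ℤ → ℂ, ∀ y, w y = (if r + ((y - r) / l) * l ∈ Z then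
      c (r + ((y - r) / l) * l) * ee (-((k (r + ((y - r) / l) * l) : ℝ) / l * ((r + ((y - r) / l) * l : ℤ) : ℝ)))
      else 0) * ee ((k (r + ((y - r) / l) * l) : ℝ) / l * y) := ⟨_, fun y => rfl⟩
  have hWL : WL l w := by
    refine ⟨r, fun j => if r + j * l ∈ Z then
      c (r + j * l) * ee (-((k (r + j * l) : ℝ) / l * ((r + j * l : ℤ) : ℝ))) else 0,
      fun j => (k (r + j * l) : ℝ) / l, fun j => ?_, fun y => hw y⟩
    dsimp only
    split_ifs
    · rw [norm_mul, norm_ee, mul_one]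
      exact hc _
    · rw [norm_zero]
      exact zero_le_one
  have hpt : ∀ y, g y * w y = ∑ z ∈ Z.filter (fun z => (l:ℤ) ∣ z - r),
      if z ≤ y ∧ y < z + l then g y * (c z * ee ((k z : ℝ) * ((y - z : ℤ) : ℝ) / l)) else 0 := by
    intro y
    obtain ⟨z₀, hz₀⟩ : ∃ z₀ : ℤ, z₀ = r + ((y - r) / l) * l := ⟨_, rfl⟩
    have h1 : z₀ ≤ y ∧ y < z₀ + l := by
      have h2 := Int.emod_add_mul_ediv (y - r) l
      have h3 := Int.emod_nonneg (y - r) hl'.ne'
      have h4 := Int.emod_lt_of_pos (y - r) hl'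
      rw [hz₀]
      constructor <;> nlinarith
    have h2 : (l:ℤ) ∣ z₀ - r := by
      rw [hz₀]
      exact ⟨(y - r) / l, by ring⟩
    have h3 : ∀ z ∈ Z.filter (fun z => (l:ℤ) ∣ z - r),
        (if z ≤ y ∧ y < z + l then g y * (c z * ee ((k z : ℝ) * ((y - z : ℤ) : ℝ) / l)) else 0) =
        if z = z₀ then g y * (c z₀ * ee ((k z₀ : ℝ) * ((y - z₀ : ℤ) : ℝ) / l)) else 0 := by
      intro z hz
      have h4 := (Finset.mem_filter.1 hz).2
      by_cases h5 : z = z₀
      · rw [if_pos h5, h5, if_pos h1]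
      · rw [if_neg h5, if_neg]
        rintro ⟨h6, h7⟩
        apply h5
        have h8 : (l:ℤ) ∣ z - z₀ := by
          have := dvd_sub h4 h2
          rwa [sub_sub_sub_cancel_right] at this
        obtain ⟨d, hd⟩ := h8
        have h9 : -(l:ℤ) < z - z₀ := by linarith [h1.2]
        have h10 : z - z₀ < l := by linarith [h1.1]
        have h11 : d = 0 := by
          rw [hd] at h9 h10
          have h12 : -1 < d := by nlinarith
          have h13 : d < 1 := by nlinarith
          omega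
        rw [h11, mul_zero] at hd
        linarith
    rw [Finset.sum_congr rfl h3, Finset.sum_ite_eq', hw y, ← hz₀]
    by_cases h4 : z₀ ∈ Z
    · rw [if_pos h4, if_pos (Finset.mem_filter.2 ⟨h4, h2⟩), mul_assoc (c z₀), ← ee_add]
      congr 3
      push_cast
      field_simp
      ring
    · rw [if_neg h4, if_neg (fun h => h4 (Finset.mem_filter.1 h).1), zero_mul, mul_zero]
  have hsum : ∑ y ∈ Icc (1:ℤ) n, g y * w y =
      ((∑ z ∈ Z.filter (fun z => (l:ℤ) ∣ z - r), amp l (cut n g) z : ℝ) : ℂ) := by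
    rw [Finset.sum_congr rfl (fun y _ => hpt y), Finset.sum_comm, Complex.ofReal_sum]
    refine Finset.sum_congr rfl fun z _ => ?_
    rw [e4_win l n g (fun y => c z * ee ((k z : ℝ) * ((y - z : ℤ) : ℝ) / l)) z, ← hck z, Finset.mul_sum]
    refine Finset.sum_congr rfl fun u _ => ?_
    have e : z + (u:ℤ) - z = (u:ℤ) := by ring
    rw [e, Int.cast_natCast]
    ring
  have h1 := hm w hWL
  rw [hsum, Complex.norm_real, Real.norm_of_nonneg (Finset.sum_nonneg fun z _ => amp_nonneg l _ z)] at h1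
  exact h1

theorem amp_sum_le (l n : ℕ) (hl : 0 < l) (g : ℤ → ℂ) (m : ℝ)
    (hm : ∀ w : ℤ → ℂ, WL l w → ‖∑ y ∈ Icc (1:ℤ) n, g y * w y‖ ≤ m) (ka : ℤ) :
    ∑ y ∈ Icc (1:ℤ) n, amp l (cut n g) (y + ka) ≤ (l:ℝ) * m := by
  classical
  have hl' : (0:ℤ) < l := by exact_mod_cast hl
  obtain ⟨Z, hZ⟩ : ∃ Z : Finset ℤ, Z = (Icc (1:ℤ) n).image (fun y => y + ka) := ⟨_, rfl⟩
  have h1 : ∑ y ∈ Icc (1:ℤ) n, amp l (cut n g) (y + ka) = ∑ z ∈ Z, amp l (cut n g) z := by
    rw [hZ, Finset.sum_image]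
    intro a _ b _ hab
    have : a + ka = b + ka := hab
    omega
  have h2 : ∀ z ∈ Z, (z % l).toNat ∈ range l := by
    intro z _
    rw [Finset.mem_range]
    have h3 := Int.emod_nonneg z hl'.ne'
    have h4 := Int.emod_lt_of_pos z hl'
    omega
  rw [h1, ← Finset.sum_fiberwise_of_maps_to h2]
  have h3 : ∀ r ∈ range l, ∑ z ∈ Z.filter (fun z : ℤ => (z % (l:ℤ)).toNat = r), amp l (cut n g) z ≤ m := by
    intro r hr
    have h4 : Z.filter (fun z : ℤ => (z % (l:ℤ)).toNat = r) = Z.filter (fun z => (l:ℤ) ∣ z - r) := by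
      refine Finset.filter_congr fun z _ => ?_
      have h5 := Int.emod_nonneg z hl'.ne'
      have h6 : (r:ℤ) < l := by exact_mod_cast Finset.mem_range.1 hr
      rw [← Int.emod_emod_of_dvd z (dvd_refl (l:ℤ))] at h5
      have h7 : (z % l).toNat = r ↔ z % l = r := by
        have := Int.emod_nonneg z hl'.ne'
        omega
      rw [h7]
      constructor
      · intro h8
        have h9 := Int.emod_add_mul_ediv z l
        rw [h8] at h9
        exact ⟨z / l, by linarith⟩
      · rintro ⟨d, hd⟩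
        have h8 : z = r + l * d := by linarith
        rw [h8, Int.add_mul_emod_self_left]
        exact Int.emod_eq_of_lt (Int.natCast_nonneg r) h6
    rw [h4]
    exact e4_key l n hl g m hm Z r
  refine (Finset.sum_le_sum h3).trans ?_
  rw [Finset.sum_const, Finset.card_range, nsmul_eq_mul]

end Pool.Agent.H44W
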