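import Pool.Agent.Lib.H44W.W1
import Pool.Agent.Lib.H81E.C4
/-!
M0: module C in the form used by psi_cf.
-/
namespace Pool.Agent.H44W
open Finset

theorem type_one_psi (n A : ℕ) (al : ℕ → ℂ) (hn : 1 ≤ n) (hal : ∀ a, ‖al a‖ ≤ 1) (W f g : ℤ → ℂ)
    (hW : ∀ x, ‖W x‖ ≤ 1) (hf : ∀ x, ‖f x‖ ≤ 1) (_hg : ∀ x, ‖g x‖ ≤ 1) :
    ∃ th : ℝ, ‖TF n (psi A al) W f g‖ ≤
      20 * A * (1 + Real.log n) * n * ‖∑ z ∈ Icc (1:ℤ) n, g z * ee (th * z)‖ := by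
  have h1 : Pool.Agent.H81E.Rep n (∑ a ∈ Icc 1 A, ‖al a‖ * 1) (fun m => ∑ a ∈ Icc 1 A, al a * (if (a:ℤ) ∣ m then 1 else 0)) :=
    Pool.Agent.H81E.Rep.sum (Icc 1 A) _ _ fun a ha =>
      (Pool.Agent.H81E.Rep.dvd n a (by rw [mem_Icc] at ha; omega)).smul (al a)
  have h2 : Pool.Agent.H81E.Rep n A (psi A al) := by
    refine (h1.congr fun m _ _ => ?_).mono ?_
    · unfold psi
      refine sum_congr rfl fun a _ => ?_
      by_cases h : (a:ℤ) ∣ m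
      · rw [if_pos h, if_pos h, mul_one]
      · rw [if_neg h, if_neg h, mul_zero]
    · refine (sum_le_sum (g := fun _ => (1:ℝ)) fun a _ => ?_).trans ?_
      · rw [mul_one]; exact hal a
      · simp
  obtain ⟨th, hth⟩ := h2.TF_le W f g hW hf
  refine ⟨th, hth.trans ?_⟩
  have hlog : 0 ≤ Real.log n := Real.log_natCast_nonneg n
  have h3 : 0 ≤ (A:ℝ) * (n * ‖∑ z ∈ Icc (1:ℤ) n, g z * ee (th * z)‖) := by positivity
  calc (A:ℝ) * (2 * n * ‖∑ z ∈ Icc (1:ℤ) n, g z * ee (th * z)‖)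
      = 2 * (A * (n * ‖∑ z ∈ Icc (1:ℤ) n, g z * ee (th * z)‖)) := by ring
    _ ≤ (20 * (1 + Real.log n)) * (A * (n * ‖∑ z ∈ Icc (1:ℤ) n, g z * ee (th * z)‖)) := by
        apply mul_le_mul_of_nonneg_right _ h3
        linarith
    _ = 20 * A * (1 + Real.log n) * n * ‖∑ z ∈ Icc (1:ℤ) n, g z * ee (th * z)‖ := by ring

end Pool.Agent.H44W
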