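import Pool.Agent.Lib.H44W.E1
/-!
CHUNK U2 (S). Algebra of TF.
TF_swap: exchange the sums, x + y = y + x, W' v = W (-v). TF_add / TF_sub / TF_smul / TF_sum: linearity in F.
-/
namespace Pool.Agent.H44W
open Finset

theorem TF_swap (n : ℕ) (F W f g : ℤ → ℂ) :
    TF n F W f g = TF n F (fun v => W (-v)) g f := by
  unfold TF
  rw [Finset.sum_comm]
  refine Finset.sum_congr rfl fun y _ => Finset.sum_congr rfl fun x _ => ?_
  have h1 : x + y = y + x := add_comm x y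
  have h2 : x - y = -(y - x) := by ring
  rw [h1, h2]
  ring

theorem TF_sum_sub {ι : Type*} (n : ℕ) (Q : Finset ι) (ga : ι → ℂ) (P M : ι → ℤ → ℂ)
    (W f g : ℤ → ℂ) :
    TF n (fun m => ∑ q ∈ Q, ga q * (P q m - M q m)) W f g =
      ∑ q ∈ Q, ga q * (TF n (P q) W f g - TF n (M q) W f g) := by
  unfold TF
  have h : ∀ q ∈ Q, ga q * ((∑ x ∈ Icc (1:ℤ) n, ∑ y ∈ Icc (1:ℤ) n, f x * g y * P q (x + y) * W (x - y)) -
      ∑ x ∈ Icc (1:ℤ) n, ∑ y ∈ Icc (1:ℤ) n, f x * g y * M q (x + y) * W (x - y)) =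
      ∑ x ∈ Icc (1:ℤ) n, ∑ y ∈ Icc (1:ℤ) n, ga q * (f x * g y * (P q (x + y) - M q (x + y)) * W (x - y)) := by
    intro q _
    rw [← Finset.sum_sub_distrib, Finset.mul_sum]
    refine Finset.sum_congr rfl fun x _ => ?_
    rw [← Finset.sum_sub_distrib, Finset.mul_sum]
    refine Finset.sum_congr rfl fun y _ => ?_
    ring
  rw [Finset.sum_congr rfl h]
  refine Eq.trans ?_ Finset.sum_comm
  refine Finset.sum_congr rfl fun x _ => ?_
  refine Eq.trans ?_ Finset.sum_comm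
  refine Finset.sum_congr rfl fun y _ => ?_
  rw [Finset.mul_sum, Finset.sum_mul]
  refine Finset.sum_congr rfl fun q _ => ?_
  ring

end Pool.Agent.H44W
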