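import Pool.Agent.Lib.H44W.W1
import Pool.Agent.Lib.H44W.U2
import Pool.Agent.Lib.H81E.C4
/-!
CHUNK M1 (M). Type I sums have the inverse property with polynomial loss, uniformly in their level (from class_two and type_one).
Hypothesis hone (proved in H81E): |TF n (psi A' al') W f g| <= 20 A' (1 + log n) n |ghat(th)| for some th.
Proof. Let I = Nat.log 2 (2n) + 1, so 2n < 2^I and I <= 2 (1 + log n) (1/log 2 < 1.45). For m in [2, 2n] the sum psi A al m splits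
according to a in [2^i, 2^(i+1)), i < I (A <= n < 2^I by hA4, n^(1/4) <= n): psi A al m = sum_{i<I} psi_i m, psi_i m =
sum over a in Ico (2^i) (2^(i+1)), a <= A, of [a | m] al a. TF is linear, so some i < I has n^2/(D I) <= |TF n psi_i W f g|; in
particular psi_i is not 0, so 2^i <= A. Put D1 = D I^2.
Case 1: D1^C <= 2^i. For m in [2,2n]: psi_i m = sum_{j<I} tII (2^i) (2^j) al' 1 m with al' a = al a if a <= A, else 0 (a | m, b = m/a lies
in [1,2n], hence in exactly one [2^j, 2^(j+1))). Some j < I has n^2/D1 <= |TF n (tII (2^i) (2^j) al' 1) W f g|. ClassTwo C with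
K = 2^i <= A <= n^(1/4), D1^C <= K, K^2 D1^C <= K^3 <= n^(3/4) <= n, D1 >= D >= 2 (divisor hypothesis: hdiv) gives n/D1^C <= |ghat|.
Case 2: 2^i < D1^C. psi_i = psi (2^(i+1)) al'' with al'' a = al a if 2^i <= a < 2^(i+1) and a <= A, else 0. hone: n^2/(D I) <=
20 * 2^(i+1) (1 + log n) n |ghat| <= 40 D1^C (1+log n) n |ghat|, so |ghat| >= n/(40 D I (1+log n) D1^C).
In both cases, with D2 = 80 D (1+log n)^2: D1 <= 4 D (1+log n)^2 <= D2 and 40 D I (1+log n) <= D2, so |ghat| >= n/D2^(C+1).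
(TF n F only depends on F at the points x + y in [2, 2n]: Finset.sum_congr.)
-/
namespace Pool.Agent.H44W
open Finset

theorem m1_pigeon (I : ℕ) (hI : 1 ≤ I) (z : ℕ → ℂ) (x : ℝ) (h : x ≤ ‖∑ i ∈ range I, z i‖) :
    ∃ i < I, x / I ≤ ‖z i‖ := by
  by_contra hcon
  push Not at hcon
  have hI' : (0:ℝ) < I := by exact_mod_cast hI
  have h1 : ‖∑ i ∈ range I, z i‖ < x := by
    calc ‖∑ i ∈ range I, z i‖ ≤ ∑ i ∈ range I, ‖z i‖ := norm_sum_le _ _
      _ < ∑ _i ∈ range I, x / I := by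
          apply Finset.sum_lt_sum_of_nonempty
          · exact ⟨0, mem_range.2 (by omega)⟩
          · intro i hi
            exact hcon i (mem_range.1 hi)
      _ = x := by
          rw [Finset.sum_const, card_range, nsmul_eq_mul]
          field_simp
  linarith

theorem m1_dyadic (I : ℕ) (F : ℕ → ℂ) :
    ∑ j ∈ range I, ∑ b ∈ Ico (2 ^ j) (2 * 2 ^ j), F b = ∑ b ∈ Ico 1 (2 ^ I), F b := by
  induction I with
  | zero => simp
  | succ I ih =>
    rw [Finset.sum_range_succ, ih, show 2 * 2 ^ I = 2 ^ (I + 1) by ring]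
    exact Finset.sum_Ico_consecutive F Nat.one_le_two_pow (Nat.pow_le_pow_right (by norm_num) (by omega))

/-- the part of the coefficients with `Nat.log 2 a = i` -/
noncomputable def m1_al (A : ℕ) (al : ℕ → ℂ) (i a : ℕ) : ℂ :=
  if 1 ≤ a ∧ a ≤ A ∧ Nat.log 2 a = i then al a else 0

theorem m1_al_supp {A : ℕ} {al : ℕ → ℂ} {i a : ℕ} (h : m1_al A al i a ≠ 0) :
    1 ≤ a ∧ a ≤ A ∧ 2 ^ i ≤ a ∧ a < 2 ^ (i + 1) := by
  unfold m1_al at h
  by_cases h1 : 1 ≤ a ∧ a ≤ A ∧ Nat.log 2 a = i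
  · refine ⟨h1.1, h1.2.1, ?_, ?_⟩
    · rw [← h1.2.2]
      exact Nat.pow_log_le_self 2 (by omega)
    · rw [← h1.2.2]
      exact Nat.lt_pow_succ_log_self (by norm_num) a
  · rw [if_neg h1] at h
    exact absurd rfl h

theorem m1_split (A I : ℕ) (hAI : A < 2 ^ I) (al : ℕ → ℂ) (m : ℤ) :
    psi A al m = ∑ i ∈ range I, psi (2 ^ (i + 1)) (m1_al A al i) m := by
  have h1 : ∀ i ∈ range I, psi (2 ^ (i + 1)) (m1_al A al i) m =
      ∑ a ∈ Icc 1 A, if (a:ℤ) ∣ m then m1_al A al i a else 0 := by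
    intro i _
    unfold psi
    refine Finset.sum_congr_of_eq_on_inter ?_ ?_ ?_
    · intro a ha ha2
      by_contra h
      have h3 : m1_al A al i a ≠ 0 := by
        intro h0
        apply h
        rw [h0, ite_self]
      have := m1_al_supp h3
      exact ha2 (mem_Icc.2 ⟨this.1, this.2.1⟩)
    · intro a ha ha2
      by_contra h
      have h3 : m1_al A al i a ≠ 0 := by
        intro h0
        apply h
        rw [h0, ite_self]
      have := m1_al_supp h3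
      exact ha2 (mem_Icc.2 ⟨this.1, this.2.2.2.le⟩)
    · intro a _ _
      rfl
  rw [Finset.sum_congr rfl h1, Finset.sum_comm]
  unfold psi
  refine Finset.sum_congr rfl fun a ha => ?_
  rw [mem_Icc] at ha
  by_cases h : (a:ℤ) ∣ m
  · simp only [if_pos h]
    have h2 : ∀ i ∈ range I, m1_al A al i a = if Nat.log 2 a = i then al a else 0 := by
      intro i _
      unfold m1_al
      by_cases h3 : Nat.log 2 a = i
      · rw [if_pos h3, if_pos ⟨ha.1, ha.2, h3⟩]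
      · rw [if_neg h3, if_neg fun h4 => h3 h4.2.2]
    rw [Finset.sum_congr rfl h2, Finset.sum_ite_eq, if_pos]
    rw [mem_range]
    exact Nat.log_lt_of_lt_pow (by omega) (by omega)
  · simp only [if_neg h]
    simp

theorem m1_tII (n A I i : ℕ) (hI : 2 * n < 2 ^ I) (al : ℕ → ℂ) (m : ℤ) (hm1 : 2 ≤ m)
    (hm2 : m ≤ 2 * n) :
    psi (2 ^ (i + 1)) (m1_al A al i) m =
      ∑ j ∈ range I, tII (2 ^ i) (2 ^ j) (m1_al A al i) (fun _ => 1) m := by
  obtain ⟨k, rfl⟩ := Int.eq_ofNat_of_zero_le (show 0 ≤ m by omega)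
  have hk1 : 1 ≤ k := by omega
  have hk2 : k < 2 ^ I := by omega
  unfold tII
  rw [Finset.sum_comm]
  have h1 : ∀ a ∈ Ico (2 ^ i) (2 * 2 ^ i), ∑ j ∈ range I, ∑ b ∈ Ico (2 ^ j) (2 * 2 ^ j),
      (if ((a * b : ℕ) : ℤ) = (k:ℤ) then m1_al A al i a * 1 else 0) =
      if (a:ℤ) ∣ (k:ℤ) then m1_al A al i a else 0 := by
    intro a ha
    rw [mem_Ico] at ha
    have ha0 : 0 < a := lt_of_lt_of_le (by positivity) ha.1
    rw [m1_dyadic I (fun b => if ((a * b : ℕ) : ℤ) = (k:ℤ) then m1_al A al i a * 1 else 0)]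
    by_cases h : (a:ℤ) ∣ (k:ℤ)
    · rw [if_pos h]
      have h' : a ∣ k := by exact_mod_cast h
      obtain ⟨b, hb⟩ := h'
      have hb1 : 1 ≤ b := by
        rcases Nat.eq_zero_or_pos b with h0 | h0
        · rw [h0, mul_zero] at hb
          omega
        · exact h0
      have hb2 : b ≤ k := by rw [hb]; exact Nat.le_mul_of_pos_left b ha0
      rw [Finset.sum_eq_single b]
      · rw [if_pos (by rw [hb]), mul_one]
      · intro b' _ hb'
        rw [if_neg]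
        intro h2
        apply hb'
        have h3 : a * b' = a * b := by rw [← hb]; exact_mod_cast h2
        exact Nat.eq_of_mul_eq_mul_left ha0 h3
      · intro h2
        exact absurd (mem_Ico.2 ⟨hb1, by omega⟩) h2
    · rw [if_neg h]
      refine Finset.sum_eq_zero fun b _ => ?_
      rw [if_neg]
      intro h2
      apply h
      exact ⟨b, by rw [← h2]; push_cast; ring⟩
  rw [Finset.sum_congr rfl h1]
  unfold psi
  refine Finset.sum_congr_of_eq_on_inter ?_ ?_ ?_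
  · intro a ha ha2
    by_contra h
    have h3 : m1_al A al i a ≠ 0 := by
      intro h0
      apply h
      rw [h0, ite_self]
    have := m1_al_supp h3
    refine ha2 (mem_Ico.2 ⟨this.2.2.1, ?_⟩)
    have h4 : 2 * 2 ^ i = 2 ^ (i + 1) := by ring
    omega
  · intro a ha ha2
    by_contra h
    have h3 : m1_al A al i a ≠ 0 := by
      intro h0
      apply h
      rw [h0, ite_self]
    have := m1_al_supp h3
    exact ha2 (mem_Icc.2 ⟨this.1, this.2.2.2.le⟩)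
  · intro a _ _
    rfl

theorem psi_cf (C : ℕ) (h2 : ClassTwo C)
    (hone : ∀ (n A : ℕ) (al : ℕ → ℂ), 1 ≤ n → (∀ a, ‖al a‖ ≤ 1) → ∀ W f g : ℤ → ℂ,
      (∀ x, ‖W x‖ ≤ 1) → (∀ x, ‖f x‖ ≤ 1) → (∀ x, ‖g x‖ ≤ 1) →
      ∃ th : ℝ, ‖TF n (psi A al) W f g‖ ≤
        20 * A * (1 + Real.log n) * n * ‖∑ z ∈ Icc (1:ℤ) n, g z * ee (th * z)‖)
    (n A : ℕ) (hn : 2 ≤ n) (hA4 : (A:ℝ) ≤ (n:ℝ) ^ (1 / 4 : ℝ)) (D : ℝ) (hD : 2 ≤ D)
    (hdiv : ∀ m : ℕ, 1 ≤ m → m ≤ 2 * n → (m.divisors.card : ℝ) ≤ D)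
    (al : ℕ → ℂ) (hal : ∀ a, ‖al a‖ ≤ 1) (W f g : ℤ → ℂ) (hW : ∀ x, ‖W x‖ ≤ 1)
    (hf : ∀ x, ‖f x‖ ≤ 1) (hg : ∀ x, ‖g x‖ ≤ 1)
    (hT : (n:ℝ) ^ 2 / D ≤ ‖TF n (psi A al) W f g‖) :
    ∃ th : ℝ, (n:ℝ) / (80 * D * (1 + Real.log n) ^ 2) ^ (C + 1) ≤
      ‖∑ z ∈ Icc (1:ℤ) n, g z * ee (th * z)‖ := by
  obtain ⟨I, hId⟩ : ∃ I : ℕ, I = Nat.log 2 (2 * n) + 1 := ⟨_, rfl⟩
  have hI1 : 1 ≤ I := by omega
  have hI2 : 2 * n < 2 ^ I := by rw [hId]; exact Nat.lt_pow_succ_log_self (by norm_num) _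
  have hnR : (2:ℝ) ≤ n := by exact_mod_cast hn
  have hn0 : (0:ℝ) < n := by linarith
  have hlog : 0 ≤ Real.log n := Real.log_natCast_nonneg n
  have hI3 : (I:ℝ) ≤ 2 * (1 + Real.log n) := by
    have h1 : ((2:ℝ)) ^ (Nat.log 2 (2 * n)) ≤ 2 * n := by
      have := Nat.pow_log_le_self 2 (show 2 * n ≠ 0 by omega)
      exact_mod_cast this
    have h2 := Real.log_le_log (by positivity) h1
    rw [Real.log_pow, Real.log_mul (by norm_num) hn0.ne'] at h2
    have h3 := Real.log_two_gt_d9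
    have h4 : ((Nat.log 2 (2 * n) : ℕ):ℝ) ≤ 1 + 2 * Real.log n := by
      by_contra h5
      push Not at h5
      have h6 : (1 + 2 * Real.log n) * Real.log 2 < (Nat.log 2 (2 * n) : ℕ) * Real.log 2 :=
        mul_lt_mul_of_pos_right h5 (by linarith)
      have h7 : Real.log n * 1 ≤ Real.log n * (2 * Real.log 2) :=
        mul_le_mul_of_nonneg_left (by linarith) hlog
      nlinarith
    rw [hId]
    push_cast
    linarith
  have hA0 : (A:ℝ) ≤ n := by
    refine hA4.trans ?_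
    calc (n:ℝ) ^ (1 / 4 : ℝ) ≤ (n:ℝ) ^ (1:ℝ) :=
          Real.rpow_le_rpow_of_exponent_le (by linarith) (by norm_num)
      _ = n := Real.rpow_one _
  have hAn : A ≤ n := by exact_mod_cast hA0
  have hIR : (1:ℝ) ≤ I := by exact_mod_cast hI1
  have hD0 : 0 < D := by linarith
  -- first pigeonhole
  have e1 : TF n (psi A al) W f g = ∑ i ∈ range I, TF n (psi (2 ^ (i + 1)) (m1_al A al i)) W f g := by
    rw [← Pool.Agent.H81E.TF_sum]
    exact Pool.Agent.H81E.TF_congr n W f g fun m _ _ => m1_split A I (by omega) al m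
  rw [e1] at hT
  obtain ⟨i, hi, hTi⟩ := m1_pigeon I hI1 _ _ hT
  have hpos : 0 < (n:ℝ) ^ 2 / D / I := by positivity
  have hali : ∀ a, ‖m1_al A al i a‖ ≤ 1 := by
    intro a
    unfold m1_al
    by_cases h : 1 ≤ a ∧ a ≤ A ∧ Nat.log 2 a = i
    · rw [if_pos h]; exact hal a
    · rw [if_neg h, norm_zero]; exact zero_le_one
  have hiA : 2 ^ i ≤ A := by
    by_contra hcon
    have h0 : ∀ a, m1_al A al i a = 0 := by
      intro a
      by_contra h
      have := m1_al_supp h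
      omega
    have h1 : TF n (psi (2 ^ (i + 1)) (m1_al A al i)) W f g = 0 := by
      unfold TF psi
      simp only [h0]
      simp
    rw [h1, norm_zero] at hTi
    linarith
  obtain ⟨D1, hD1⟩ : ∃ D1, D1 = D * (I:ℝ) ^ 2 := ⟨_, rfl⟩
  obtain ⟨D2, hD2⟩ : ∃ D2, D2 = 80 * D * (1 + Real.log n) ^ 2 := ⟨_, rfl⟩
  have hDD1 : D ≤ D1 := by
    rw [hD1]
    have : (1:ℝ) ≤ (I:ℝ) ^ 2 := one_le_pow₀ hIR
    nlinarith
  have hI4 : (I:ℝ) ^ 2 ≤ 4 * (1 + Real.log n) ^ 2 := by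
    have := pow_le_pow_left₀ (by positivity) hI3 2
    calc (I:ℝ) ^ 2 ≤ (2 * (1 + Real.log n)) ^ 2 := this
      _ = 4 * (1 + Real.log n) ^ 2 := by ring
  have hD12 : D1 ≤ D2 := by
    rw [hD1, hD2]
    have h1 : D * (I:ℝ) ^ 2 ≤ D * (4 * (1 + Real.log n) ^ 2) := mul_le_mul_of_nonneg_left hI4 hD0.le
    have h2 : 0 ≤ D * (1 + Real.log n) ^ 2 := by positivity
    linarith
  have hD21 : 1 ≤ D2 := by linarith
  have hD1p : 0 < D1 := by linarith
  have hD2p : 0 < D2 := by linarith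
  rw [← hD2]
  by_cases hc : D1 ^ C ≤ ((2 ^ i : ℕ):ℝ)
  · -- case 1
    have e2 : TF n (psi (2 ^ (i + 1)) (m1_al A al i)) W f g =
        ∑ j ∈ range I, TF n (tII (2 ^ i) (2 ^ j) (m1_al A al i) (fun _ => 1)) W f g := by
      rw [← Pool.Agent.H81E.TF_sum]
      exact Pool.Agent.H81E.TF_congr n W f g fun m h1 h2 => m1_tII n A I i hI2 al m h1 h2
    rw [e2] at hTi
    obtain ⟨j, hj, hTj⟩ := m1_pigeon I hI1 _ _ hTi
    have e3 : (n:ℝ) ^ 2 / D / I / I = (n:ℝ) ^ 2 / D1 := by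
      rw [hD1]
      field_simp
    rw [e3] at hTj
    have hK1 : (1:ℝ) ≤ ((2 ^ i : ℕ):ℝ) := by exact_mod_cast Nat.one_le_two_pow
    have hK4 : ((2 ^ i : ℕ):ℝ) ≤ (n:ℝ) ^ (1 / 4 : ℝ) := le_trans (by exact_mod_cast hiA) hA4
    have hK : ((2 ^ i : ℕ):ℝ) ^ 4 ≤ n := by
      have h1 := pow_le_pow_left₀ (by positivity) hK4 4
      have h2 : ((n:ℝ) ^ (1 / 4 : ℝ)) ^ 4 = n := by
        rw [← Real.rpow_natCast, ← Real.rpow_mul hn0.le]
        norm_num
      linarith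
    have hK3 : ((2 ^ i : ℕ):ℝ) ^ 2 * D1 ^ C ≤ n := by
      calc ((2 ^ i : ℕ):ℝ) ^ 2 * D1 ^ C ≤ ((2 ^ i : ℕ):ℝ) ^ 2 * ((2 ^ i : ℕ):ℝ) :=
            mul_le_mul_of_nonneg_left hc (by positivity)
        _ = ((2 ^ i : ℕ):ℝ) ^ 3 := by ring
        _ ≤ ((2 ^ i : ℕ):ℝ) ^ 4 := pow_le_pow_right₀ hK1 (by norm_num)
        _ ≤ n := hK
    obtain ⟨th, hth⟩ := h2 n (2 ^ i) (2 ^ j) D1 (by linarith) (fun m h1 h2 => (hdiv m h1 h2).trans hDD1)
      hc hK3 (m1_al A al i) (fun _ => 1) hali (by simp) W f g hW hf hg hTj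
    refine ⟨th, le_trans ?_ hth⟩
    apply div_le_div_of_nonneg_left hn0.le (by positivity)
    calc D1 ^ C ≤ D2 ^ C := pow_le_pow_left₀ hD1p.le hD12 C
      _ ≤ D2 ^ (C + 1) := pow_le_pow_right₀ hD21 (by omega)
  · -- case 2
    push Not at hc
    obtain ⟨th, hth⟩ := hone n (2 ^ (i + 1)) (m1_al A al i) (by omega) hali W f g hW hf hg
    refine ⟨th, ?_⟩
    obtain ⟨G, hG⟩ : ∃ G, G = ‖∑ z ∈ Icc (1:ℤ) n, g z * ee (th * z)‖ := ⟨_, rfl⟩
    rw [← hG] at hth ⊢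
    have hG0 : 0 ≤ G := by rw [hG]; exact norm_nonneg _
    have h1 : (n:ℝ) ^ 2 / D / I ≤ 40 * D1 ^ C * (1 + Real.log n) * n * G := by
      refine hTi.trans (hth.trans ?_)
      have h2 : ((2 ^ (i + 1) : ℕ):ℝ) ≤ 2 * D1 ^ C := by
        have : ((2 ^ (i + 1) : ℕ):ℝ) = 2 * ((2 ^ i : ℕ):ℝ) := by push_cast; ring
        rw [this]
        linarith
      calc 20 * ((2 ^ (i + 1) : ℕ):ℝ) * (1 + Real.log n) * n * G ≤
          20 * (2 * D1 ^ C) * (1 + Real.log n) * n * G := by gcongr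
        _ = 40 * D1 ^ C * (1 + Real.log n) * n * G := by ring
    have h3 : (n:ℝ) ^ 2 ≤ (40 * D * I * (1 + Real.log n) * D1 ^ C) * n * G := by
      rw [div_div, div_le_iff₀ (by positivity)] at h1
      linarith
    have h4 : (n:ℝ) ≤ (40 * D * I * (1 + Real.log n) * D1 ^ C) * G := by
      have h5 : (n:ℝ) * n ≤ n * ((40 * D * I * (1 + Real.log n) * D1 ^ C) * G) := by nlinarith
      exact le_of_mul_le_mul_left h5 hn0
    have h6 : 40 * D * I * (1 + Real.log n) ≤ D2 := by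
      rw [hD2]
      have h7 : 40 * D * I * (1 + Real.log n) ≤ 40 * D * (2 * (1 + Real.log n)) * (1 + Real.log n) := by gcongr
      refine h7.trans (le_of_eq (by ring))
    have h8 : (40 * D * I * (1 + Real.log n)) * D1 ^ C ≤ D2 ^ (C + 1) := by
      rw [pow_succ, mul_comm (D2 ^ C)]
      apply mul_le_mul h6 (pow_le_pow_left₀ hD1p.le hD12 C) (by positivity) hD2p.le
    rw [div_le_iff₀ (by positivity)]
    calc (n:ℝ) ≤ (40 * D * I * (1 + Real.log n) * D1 ^ C) * G := h4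
      _ ≤ D2 ^ (C + 1) * G := mul_le_mul_of_nonneg_right h8 hG0
      _ = G * D2 ^ (C + 1) := mul_comm _ _

end Pool.Agent.H44W
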