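import Pool.Agent.Lib.H44W.M4
import Pool.Agent.Lib.H21T.M1
/-!
CHUNK M5 (M). Mass of the difference: sum over m in [1,2n] of |sum_q ga q (pd q m - Mq m)| <= 10 (1 + log n)^4 n.
Proof. By |ga| <= 1 it is at most sum_{q <= R} (sum_m pd q m + sum_m |Mq m|).
(a) sum_{m in [1,2n]} |pd q m| <= 2n/q: it is the number of (a,b) in the box with 1 <= q a b <= 2n; if q A1 B1 > 2n it is 0; otherwise at
most card Ico A1 A2 * card Ico B1 B2 <= A1 B1 <= 2n/q.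
(b) sum_m |Mq m| = sum_{k <= 2n/q} |lbox k| |gQ Q k| <= sum_{k <= 2n/q} sum_{d <= Q, d | k} (1 + log Q) (lbox_bd, H21T.m1)
<= (1 + log Q) sum_{d <= Q} 2n/(q d) <= (2n/q) (1 + log Q)^2 (harmonic sum: sum_{d <= Q} 1/d <= 1 + log Q, harmonic_le_one_add_log).
Sum over q <= R <= n: sum 1/q <= 1 + log n; Q <= n: total <= 2n (1+log n) + 2n (1+log n)^3 <= 10 (1+log n)^4 n.
-/
namespace Pool.Agent.H44W
open Finset

theorem m5_har (N n : ℕ) (h : N ≤ n) : ∑ d ∈ Icc 1 N, 1 / (d : ℝ) ≤ 1 + Real.log n := by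
  have h2 : ∑ r ∈ Icc 1 N, 1 / (r : ℝ) ≤ ∑ r ∈ Icc 1 n, 1 / (r : ℝ) := by
    apply Finset.sum_le_sum_of_subset_of_nonneg
    · exact Finset.Icc_subset_Icc_right h
    · intro i _ _
      positivity
  have h3 : ∑ r ∈ Icc 1 n, 1 / (r : ℝ) ≤ 1 + Real.log n := by
    have h4 := harmonic_le_one_add_log n
    rw [harmonic_eq_sum_Icc] at h4
    push_cast at h4
    simpa only [one_div] using h4
  linarith

theorem m5_mult (r N : ℕ) (hr : 1 ≤ r) :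
    (((Icc (1:ℤ) (N:ℤ)).filter (fun m => (r:ℤ) ∣ m)).card : ℝ) ≤ (N:ℝ) / r := by
  have h1 : (Icc (1:ℤ) (N:ℤ)).filter (fun m => (r:ℤ) ∣ m) ⊆ (Icc 1 (N / r)).image (fun k : ℕ => (r:ℤ) * k) := by
    intro m hm
    rw [mem_filter, mem_Icc] at hm
    obtain ⟨⟨h1, h2⟩, k, rfl⟩ := hm
    have hk : 0 < k := by
      by_contra hc
      have : (r:ℤ) * k ≤ 0 := mul_nonpos_of_nonneg_of_nonpos (by positivity) (not_lt.1 hc)
      omega
    lift k to ℕ using hk.le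
    rw [mem_image]
    refine ⟨k, mem_Icc.2 ⟨by exact_mod_cast hk, ?_⟩, rfl⟩
    rw [Nat.le_div_iff_mul_le (by omega), mul_comm]
    exact_mod_cast h2
  have h2 := (card_le_card h1).trans card_image_le
  rw [Nat.card_Icc, Nat.add_sub_cancel] at h2
  calc _ ≤ ((N / r : ℕ) : ℝ) := by exact_mod_cast h2
    _ ≤ (N:ℝ) / r := Nat.cast_div_le

theorem m5_pd (n q A1 A2 B1 B2 : ℕ) (hq : 1 ≤ q) (hA2 : A2 ≤ 2 * A1) (hB2 : B2 ≤ 2 * B1) :
    ∑ m ∈ Icc (1:ℤ) (2 * n), ‖pd q (Ico (A1:ℤ) A2) (Ico (B1:ℤ) B2) m‖ ≤ 2 * n / q := by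
  classical
  have h0 : ∀ m : ℤ, ‖pd q (Ico (A1:ℤ) A2) (Ico (B1:ℤ) B2) m‖ =
      ((((Ico (A1:ℤ) A2) ×ˢ (Ico (B1:ℤ) B2)).filter (fun p => (q:ℤ) * p.1 * p.2 = m)).card : ℝ) := by
    intro m
    unfold pd
    rw [Complex.norm_natCast]
  rw [sum_congr rfl fun m _ => h0 m]
  have h1 : ∑ m ∈ Icc (1:ℤ) (2 * n), (((Ico (A1:ℤ) A2) ×ˢ (Ico (B1:ℤ) B2)).filter (fun p => (q:ℤ) * p.1 * p.2 = m)).card =
      (((Ico (A1:ℤ) A2) ×ˢ (Ico (B1:ℤ) B2)).filter (fun p => (q:ℤ) * p.1 * p.2 ∈ Icc (1:ℤ) (2 * n))).card := by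
    rw [card_eq_sum_card_fiberwise (f := fun p : ℤ × ℤ => (q:ℤ) * p.1 * p.2) (t := Icc (1:ℤ) (2 * n))
      (by intro p hp; exact (mem_filter.1 hp).2)]
    refine sum_congr rfl fun m hm => ?_
    congr 1
    ext p
    simp only [mem_filter]
    constructor
    · rintro ⟨a, b⟩
      exact ⟨⟨a, b ▸ hm⟩, b⟩
    · rintro ⟨⟨a, _⟩, b⟩
      exact ⟨a, b⟩
  rw [← Nat.cast_sum, h1]
  by_cases hc : 2 * n < q * A1 * B1
  · have h2 : ((Ico (A1:ℤ) A2) ×ˢ (Ico (B1:ℤ) B2)).filter (fun p => (q:ℤ) * p.1 * p.2 ∈ Icc (1:ℤ) (2 * n)) = ∅ := by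
      rw [Finset.filter_eq_empty_iff]
      rintro ⟨a, b⟩ hp hm
      rw [mem_product, mem_Ico, mem_Ico] at hp
      rw [mem_Icc] at hm
      simp only at hp hm
      have h3 : (q:ℤ) * A1 * B1 ≤ (q:ℤ) * a * b := by
        have h4 : (0:ℤ) ≤ A1 := by positivity
        have h5 : (0:ℤ) ≤ B1 := by positivity
        have h6 : (q:ℤ) * A1 ≤ q * a := mul_le_mul_of_nonneg_left hp.1.1 (by positivity)
        exact mul_le_mul h6 hp.2.1 h5 (mul_nonneg (by positivity) (h4.trans hp.1.1))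
      have h7 : (2 * n : ℤ) < (q:ℤ) * A1 * B1 := by exact_mod_cast hc
      omega
    rw [h2, card_empty, Nat.cast_zero]
    positivity
  · have h2 : (((Ico (A1:ℤ) A2) ×ˢ (Ico (B1:ℤ) B2)).filter (fun p => (q:ℤ) * p.1 * p.2 ∈ Icc (1:ℤ) (2 * n))).card ≤ A1 * B1 := by
      refine (card_filter_le _ _).trans ?_
      rw [card_product, Int.card_Ico, Int.card_Ico]
      exact Nat.mul_le_mul (by omega) (by omega)
    have hq0 : (0:ℝ) < q := by exact_mod_cast hq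
    rw [le_div_iff₀ hq0]
    have h3 : A1 * B1 * q ≤ 2 * n := by
      have := not_lt.1 hc
      calc A1 * B1 * q = q * A1 * B1 := by ring
        _ ≤ 2 * n := this
    calc _ ≤ ((A1 * B1 : ℕ) : ℝ) * q := mul_le_mul_of_nonneg_right (by exact_mod_cast h2) hq0.le
      _ ≤ 2 * n := by exact_mod_cast h3

theorem m5_Mq1 (Q A1 A2 B1 B2 q : ℕ) (hQ1 : 1 ≤ Q) (hq : 1 ≤ q) (hA : 1 ≤ A1) (hA2 : A2 ≤ 2 * A1) (m : ℤ) (hm : 1 ≤ m) :
    ‖Mq Q A1 A2 B1 B2 q m‖ ≤ ∑ d ∈ Icc 1 Q, if (((q * d : ℕ) : ℤ) ∣ m) then (1 + Real.log Q) else 0 := by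
  have hL : 0 ≤ 1 + Real.log Q := by
    have := Real.log_natCast_nonneg Q
    linarith
  unfold Mq
  by_cases h : (q:ℤ) ∣ m
  · rw [if_pos h, Complex.norm_real, Real.norm_eq_abs]
    unfold Pool.Agent.Lib.H21T.Mbox
    rw [abs_mul]
    obtain ⟨k, rfl⟩ := h
    have hq0 : (0:ℤ) < q := by exact_mod_cast hq
    have hk : 0 < k := by
      by_contra hc
      have : (q:ℤ) * k ≤ 0 := mul_nonpos_of_nonneg_of_nonpos hq0.le (not_lt.1 hc)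
      omega
    lift k to ℕ using hk.le
    rw [Int.mul_ediv_cancel_left _ hq0.ne', Int.toNat_natCast]
    have h1 := lbox_bd A1 A2 B1 B2 k hA hA2
    rw [abs_of_nonneg h1.1]
    refine (mul_le_of_le_one_left (abs_nonneg _) h1.2).trans ?_
    unfold Pool.Agent.Lib.H21T.gQ
    refine (Finset.abs_sum_le_sum_abs _ _).trans ?_
    rw [Finset.sum_filter]
    refine Finset.sum_le_sum fun d _ => ?_
    by_cases hd : d ∣ k
    · have h2 : ((q * d : ℕ) : ℤ) ∣ (q:ℤ) * k := by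
        exact_mod_cast Nat.mul_dvd_mul_left q hd
      rw [if_pos hd, if_pos h2]
      exact Pool.Agent.Lib.H21T.m1 Q d hQ1
    · rw [if_neg hd]
      split_ifs
      · exact hL
      · exact le_rfl
  · rw [if_neg h, norm_zero]
    refine Finset.sum_nonneg fun d _ => ?_
    split_ifs
    · exact hL
    · exact le_rfl

theorem m5_Mq (n Q A1 A2 B1 B2 q : ℕ) (hQ1 : 1 ≤ Q) (hQ : Q ≤ n) (hq : 1 ≤ q) (hA : 1 ≤ A1) (hA2 : A2 ≤ 2 * A1) :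
    ∑ m ∈ Icc (1:ℤ) (2 * n), ‖Mq Q A1 A2 B1 B2 q m‖ ≤ 2 * n / q * (1 + Real.log n) ^ 2 := by
  have hQr : (0:ℝ) < Q := by exact_mod_cast hQ1
  have hLQ : Real.log Q ≤ Real.log n := Real.log_le_log hQr (by exact_mod_cast hQ)
  have hL : 0 ≤ Real.log Q := Real.log_natCast_nonneg Q
  have hq0 : (0:ℝ) < q := by exact_mod_cast hq
  calc ∑ m ∈ Icc (1:ℤ) (2 * n), ‖Mq Q A1 A2 B1 B2 q m‖
      ≤ ∑ m ∈ Icc (1:ℤ) (2 * n), ∑ d ∈ Icc 1 Q, (if (((q * d : ℕ) : ℤ) ∣ m) then (1 + Real.log Q) else 0) :=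
        Finset.sum_le_sum fun m hm => m5_Mq1 Q A1 A2 B1 B2 q hQ1 hq hA hA2 m (mem_Icc.1 hm).1
    _ = ∑ d ∈ Icc 1 Q, (((Icc (1:ℤ) (((2 * n : ℕ)) : ℤ)).filter (fun m => ((q * d : ℕ) : ℤ) ∣ m)).card : ℝ) * (1 + Real.log Q) := by
        rw [Finset.sum_comm]
        refine Finset.sum_congr rfl fun d _ => ?_
        rw [← Finset.sum_filter, Finset.sum_const, nsmul_eq_mul]
        push_cast
        rfl
    _ ≤ ∑ d ∈ Icc 1 Q, (2 * n / q * (1 + Real.log n)) * (1 / (d:ℝ)) := by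
        refine Finset.sum_le_sum fun d hd => ?_
        have hd1 := (mem_Icc.1 hd).1
        have h1 := m5_mult (q * d) (2 * n) (Nat.mul_pos hq hd1)
        have hd0 : (0:ℝ) < d := by exact_mod_cast hd1
        have e : ((2 * n : ℕ) : ℝ) / ((q * d : ℕ) : ℝ) = 2 * n / q * (1 / d) := by
          push_cast
          field_simp
        rw [e] at h1
        calc _ ≤ (2 * n / q * (1 / (d:ℝ))) * (1 + Real.log n) :=
              mul_le_mul h1 (by linarith) (by linarith) (by positivity)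
          _ = _ := by ring
    _ = (2 * n / q * (1 + Real.log n)) * ∑ d ∈ Icc 1 Q, 1 / (d:ℝ) := by rw [Finset.mul_sum]
    _ ≤ (2 * n / q * (1 + Real.log n)) * (1 + Real.log n) :=
        mul_le_mul_of_nonneg_left (m5_har Q n hQ) (mul_nonneg (by positivity) (by linarith))
    _ = _ := by ring

theorem mass_le (n Q R A1 A2 B1 B2 : ℕ) (hn : 1 ≤ n) (hQ1 : 1 ≤ Q) (hQ : Q ≤ n) (hR : R ≤ n)
    (hA : 1 ≤ A1) (hB : 1 ≤ B1) (hA2 : A2 ≤ 2 * A1) (hB2 : B2 ≤ 2 * B1) (ga : ℕ → ℂ)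
    (hga : ∀ q, ‖ga q‖ ≤ 1) :
    ∑ m ∈ Icc (1:ℤ) (2 * n), ‖∑ q ∈ Icc 1 R, ga q *
      (pd q (Ico (A1:ℤ) A2) (Ico (B1:ℤ) B2) m - Mq Q A1 A2 B1 B2 q m)‖ ≤
      10 * (1 + Real.log n) ^ 4 * n := by
  have hn1 : (1:ℝ) ≤ n := by exact_mod_cast hn
  have hLn : 0 ≤ Real.log n := Real.log_natCast_nonneg n
  have hstep : ∀ m ∈ Icc (1:ℤ) (2 * n), ‖∑ q ∈ Icc 1 R, ga q *
      (pd q (Ico (A1:ℤ) A2) (Ico (B1:ℤ) B2) m - Mq Q A1 A2 B1 B2 q m)‖ ≤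
      ∑ q ∈ Icc 1 R, (‖pd q (Ico (A1:ℤ) A2) (Ico (B1:ℤ) B2) m‖ + ‖Mq Q A1 A2 B1 B2 q m‖) := by
    intro m _
    refine norm_sum_le_of_le _ fun q _ => ?_
    rw [norm_mul]
    exact (mul_le_of_le_one_left (norm_nonneg _) (hga q)).trans (norm_sub_le _ _)
  refine (Finset.sum_le_sum hstep).trans ?_
  rw [Finset.sum_comm]
  have hq : ∀ q ∈ Icc 1 R, ∑ m ∈ Icc (1:ℤ) (2 * n),
      (‖pd q (Ico (A1:ℤ) A2) (Ico (B1:ℤ) B2) m‖ + ‖Mq Q A1 A2 B1 B2 q m‖) ≤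
      (2 * n * (1 + (1 + Real.log n) ^ 2)) * (1 / (q:ℝ)) := by
    intro q hq
    have hq1 := (mem_Icc.1 hq).1
    rw [Finset.sum_add_distrib]
    have h1 := m5_pd n q A1 A2 B1 B2 hq1 hA2 hB2
    have h2 := m5_Mq n Q A1 A2 B1 B2 q hQ1 hQ hq1 hA hA2
    refine (add_le_add h1 h2).trans (le_of_eq ?_)
    ring
  refine (Finset.sum_le_sum hq).trans ?_
  rw [← Finset.mul_sum]
  have h3 := m5_har R n hR
  have h4 : 0 ≤ 2 * (n:ℝ) * (1 + (1 + Real.log n) ^ 2) := by positivity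
  refine (mul_le_mul_of_nonneg_left h3 h4).trans ?_
  set L : ℝ := 1 + Real.log n with hLdef
  have hL1 : 1 ≤ L := by linarith
  have h5 : L ^ 1 ≤ L ^ 4 := pow_le_pow_right₀ hL1 (by norm_num)
  have h6 : L ^ 3 ≤ L ^ 4 := pow_le_pow_right₀ hL1 (by norm_num)
  have h7 : 0 ≤ L ^ 4 := by positivity
  calc 2 * (n:ℝ) * (1 + L ^ 2) * L = n * (2 * L ^ 1 + 2 * L ^ 3) := by ring
    _ ≤ n * (10 * L ^ 4) := mul_le_mul_of_nonneg_left (by linarith) (by linarith)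
    _ = _ := by ring

end Pool.Agent.H44W
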