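import Pool.Agent.Lib.H44W.E1
/-!
CHUNK U1 (M). Replacement of g by a dual function (abstract kernel TF).
D(y) := sum_{x in [1,n]} f x * F(x+y) * W(x-y), so TF n F W f g = sum_{y in [1,n]} g y * D y. For y in [1,n]:
|D y| <= sum_{x in [1,n]} |F(x+y)| <= sum_{m in [1,2n]} |F m| <= ka n (x -> x + y injective into Icc 1 (2n)).
g' y := conj(D y)/(ka n) if y in [1,n], else 0: |g'| <= 1. TF n F W f g' = sum_y |D y|^2/(ka n) (real and nonnegative).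
Cauchy-Schwarz: (de n^2)^2 <= |sum g D|^2 <= n * sum |D|^2 (|g| <= 1, card (Icc 1 n) = n). Hence
|TF n F W f g'| >= de^2 n^4/(n * ka n) = (de^2/ka) n^2. By hypothesis hinv there is w, WL l w, with ph * n <= |sum g' w|.
conj w is again WL l (WL_conj: ep -> conj ep, th -> -th, ee_neg), and TF n F W f (conj w) = sum_y conj(w y) D y, whose norm is
|sum_y w y * conj(D y)| = ka n |sum_y g' y * w y| >= ka ph n^2.
-/
namespace Pool.Agent.H44W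
open Finset

/-- The dual function. -/
noncomputable def u1D (n : ℕ) (F W f : ℤ → ℂ) (y : ℤ) : ℂ := ∑ x ∈ Icc (1:ℤ) n, f x * F (x + y) * W (x - y)

theorem u1_TF (n : ℕ) (F W f g : ℤ → ℂ) : TF n F W f g = ∑ y ∈ Icc (1:ℤ) n, g y * u1D n F W f y := by
  rw [TF, Finset.sum_comm]
  refine Finset.sum_congr rfl fun y _ => ?_
  rw [u1D, Finset.mul_sum]
  exact Finset.sum_congr rfl fun x _ => by ring

theorem u1_bd (n : ℕ) (F W f : ℤ → ℂ) (hW : ∀ x, ‖W x‖ ≤ 1) (hf : ∀ x, ‖f x‖ ≤ 1) (K : ℝ)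
    (hF : ∑ m ∈ Icc (1:ℤ) (2 * n), ‖F m‖ ≤ K) (y : ℤ) (hy : y ∈ Icc (1:ℤ) n) : ‖u1D n F W f y‖ ≤ K := by
  have hy' := Finset.mem_Icc.1 hy
  calc ‖u1D n F W f y‖ ≤ ∑ x ∈ Icc (1:ℤ) n, ‖f x * F (x + y) * W (x - y)‖ := norm_sum_le _ _
    _ ≤ ∑ x ∈ Icc (1:ℤ) n, ‖F (x + y)‖ := by
        refine Finset.sum_le_sum fun x _ => ?_
        rw [norm_mul, norm_mul]
        calc ‖f x‖ * ‖F (x + y)‖ * ‖W (x - y)‖ ≤ 1 * ‖F (x + y)‖ * 1 := by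
              gcongr
              · exact hf x
              · exact hW _
          _ = ‖F (x + y)‖ := by ring
    _ = ∑ m ∈ (Icc (1:ℤ) n).image (fun x => x + y), ‖F m‖ := by
        rw [Finset.sum_image]
        intro a _ b _ h
        exact add_right_cancel h
    _ ≤ ∑ m ∈ Icc (1:ℤ) (2 * n), ‖F m‖ := by
        refine Finset.sum_le_sum_of_subset_of_nonneg ?_ fun _ _ _ => norm_nonneg _
        intro m hm
        obtain ⟨x, hx, rfl⟩ := Finset.mem_image.1 hm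
        have hx' := Finset.mem_Icc.1 hx
        exact Finset.mem_Icc.2 ⟨by omega, by omega⟩
    _ ≤ K := hF

theorem u1_sq (z : ℂ) : (starRingEnd ℂ) z * z = ((‖z‖ ^ 2 : ℝ) : ℂ) := by
  rw [mul_comm, Complex.mul_conj, Complex.normSq_eq_norm_sq]

theorem WL_conj (l : ℕ) (w : ℤ → ℂ) (h : WL l w) : WL l (fun y => (starRingEnd ℂ) (w y)) := by
  obtain ⟨r, ep, th, h1, h2⟩ := h
  refine ⟨r, fun k => (starRingEnd ℂ) (ep k), fun k => -th k, fun k => ?_, fun y => ?_⟩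
  · rw [Complex.norm_conj]
    exact h1 k
  · show (starRingEnd ℂ) (w y) = (starRingEnd ℂ) (ep ((y - r) / l)) * ee (-th ((y - r) / l) * y)
    rw [h2 y, map_mul, ← ee_neg, neg_mul]

theorem norm_WL (l : ℕ) (w : ℤ → ℂ) (h : WL l w) (y : ℤ) : ‖w y‖ ≤ 1 := by
  obtain ⟨r, ep, th, h1, h2⟩ := h
  rw [h2 y, norm_mul, norm_ee, mul_one]
  exact h1 _

theorem dual_step (n l : ℕ) (hn : 1 ≤ n) (F W f : ℤ → ℂ) (hW : ∀ x, ‖W x‖ ≤ 1)
    (hf : ∀ x, ‖f x‖ ≤ 1) (ka : ℝ) (hka : 0 < ka)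
    (hF : ∑ m ∈ Icc (1:ℤ) (2 * n), ‖F m‖ ≤ ka * n) (de ph : ℝ) (hde : 0 ≤ de)
    (hinv : ∀ g : ℤ → ℂ, (∀ x, ‖g x‖ ≤ 1) → de ^ 2 / ka * (n:ℝ) ^ 2 ≤ ‖TF n F W f g‖ →
      ∃ w : ℤ → ℂ, WL l w ∧ ph * n ≤ ‖∑ y ∈ Icc (1:ℤ) n, g y * w y‖)
    (g : ℤ → ℂ) (hg : ∀ x, ‖g x‖ ≤ 1) (hT : de * (n:ℝ) ^ 2 ≤ ‖TF n F W f g‖) :
    ∃ w : ℤ → ℂ, WL l w ∧ ka * ph * (n:ℝ) ^ 2 ≤ ‖TF n F W f w‖ := by
  have hn0 : (0:ℝ) < n := by exact_mod_cast hn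
  have hK : 0 < ka * n := mul_pos hka hn0
  set D : ℤ → ℂ := u1D n F W f with hD
  have hDb : ∀ y ∈ Icc (1:ℤ) n, ‖D y‖ ≤ ka * n := fun y hy => u1_bd n F W f hW hf _ hF y hy
  set S : ℝ := ∑ y ∈ Icc (1:ℤ) n, ‖D y‖ ^ 2 with hS
  have hS0 : 0 ≤ S := Finset.sum_nonneg fun _ _ => by positivity
  obtain ⟨g', hg'⟩ : ∃ g' : ℤ → ℂ, ∀ y, g' y = if y ∈ Icc (1:ℤ) n then (starRingEnd ℂ) (D y) / ((ka * n : ℝ) : ℂ) else 0 :=
    ⟨_, fun _ => rfl⟩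
  have h1 : ∀ y, ‖g' y‖ ≤ 1 := by
    intro y
    rw [hg' y]
    split_ifs with hy
    · rw [norm_div, Complex.norm_conj, Complex.norm_real, Real.norm_of_nonneg hK.le, div_le_one hK]
      exact hDb y hy
    · rw [norm_zero]
      exact zero_le_one
  have h2 : TF n F W f g' = ((S / (ka * n) : ℝ) : ℂ) := by
    rw [u1_TF, Complex.ofReal_div, hS, Complex.ofReal_sum, Finset.sum_div]
    refine Finset.sum_congr rfl fun y hy => ?_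
    rw [hg' y, if_pos hy, ← hD, div_mul_eq_mul_div, u1_sq]
  have h3 : ‖TF n F W f g'‖ = S / (ka * n) := by
    rw [h2, Complex.norm_real, Real.norm_of_nonneg (div_nonneg hS0 hK.le)]
  have h4 : (de * (n:ℝ) ^ 2) ^ 2 ≤ n * S := by
    have h5 : ‖TF n F W f g‖ ≤ ∑ y ∈ Icc (1:ℤ) n, ‖D y‖ := by
      rw [u1_TF]
      refine (norm_sum_le _ _).trans (Finset.sum_le_sum fun y _ => ?_)
      rw [norm_mul]
      exact mul_le_of_le_one_left (norm_nonneg _) (hg y)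
    have h6 : (∑ y ∈ Icc (1:ℤ) n, ‖D y‖) ^ 2 ≤ ((Icc (1:ℤ) n).card : ℝ) * S := sq_sum_le_card_mul_sum_sq
    have h7 : ((Icc (1:ℤ) n).card : ℝ) = n := by
      rw [Int.card_Icc]
      simp
    rw [h7] at h6
    exact (pow_le_pow_left₀ (by positivity) (hT.trans h5) 2).trans h6
  have h8 : de ^ 2 / ka * (n:ℝ) ^ 2 ≤ ‖TF n F W f g'‖ := by
    rw [h3, le_div_iff₀ hK]
    have h9 : de ^ 2 / ka * (n:ℝ) ^ 2 * (ka * n) = de ^ 2 * (n:ℝ) ^ 3 := by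
      field_simp
    rw [h9]
    have h10 : (n:ℝ) * (de ^ 2 * (n:ℝ) ^ 3) ≤ n * S := by
      calc (n:ℝ) * (de ^ 2 * (n:ℝ) ^ 3) = (de * (n:ℝ) ^ 2) ^ 2 := by ring
        _ ≤ _ := h4
    exact le_of_mul_le_mul_left h10 hn0
  obtain ⟨w, hw, h11⟩ := hinv g' h1 h8
  refine ⟨fun y => (starRingEnd ℂ) (w y), WL_conj l w hw, ?_⟩
  have h12 : TF n F W f (fun y => (starRingEnd ℂ) (w y)) =
      (starRingEnd ℂ) (((ka * n : ℝ) : ℂ) * ∑ y ∈ Icc (1:ℤ) n, g' y * w y) := by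
    rw [u1_TF, map_mul, Complex.conj_ofReal, map_sum, Finset.mul_sum]
    refine Finset.sum_congr rfl fun y hy => ?_
    have h13 : ((ka * n : ℝ) : ℂ) ≠ 0 := Complex.ofReal_ne_zero.2 hK.ne'
    rw [hg' y, if_pos hy, map_mul, map_div₀, Complex.conj_conj, Complex.conj_ofReal, ← hD]
    field_simp
  rw [h12, Complex.norm_conj, norm_mul, Complex.norm_real, Real.norm_of_nonneg hK.le]
  calc ka * ph * (n:ℝ) ^ 2 = (ka * n) * (ph * n) := by ring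
    _ ≤ _ := mul_le_mul_of_nonneg_left h11 hK.le

end Pool.Agent.H44W
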