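import Pool.Agent.Lib.H44W.E1
/-!
CHUNK U3 (M). One pair of windows.
Let v be fixed. Claim (one_pair_v): for windows J = Ico u1 (u1 + l), I = Ico u2 (u2 + l) (meaning x in J, y in I) and real al, be,
|sum over x in [1,n] cap J, with x - v in [1,n] cap I, of F(2x - v) * ee(al x + be (x - v))| <= l * tau.
Proof: x runs over an interval Ico c (c + r) with 0 <= r <= l (intersection of intervals), m = 2x - v runs over the m in
Ico (2c - v) (2c + 2r - v) with m = v mod 2 and x + y = m in [2, 2n]. If the x-interval is empty the sum is 0. Otherwise cut the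
m-interval to u = 2c - v >= 1 and v' = 2(c + r) - v - 1 <= 2n + 1 (the last m is 2(c+r-1) - v <= 2n): the sum over m in Ico u v' with
m = v mod 2 of F m * ee(al (m+v)/2 + be (m-v)/2) = ee((al-be) v/2) * sum of F m ee((al+be)/2 * m) [m = v mod 2], and the indicator
of m = v mod 2 is (1 + ee((m-v)/2))/2 (ee_half), so the sum is the mean of two sums of the type in hF
(gamma = (al+be)/2 and gamma = (al+be)/2 + 1/2), each <= l tau, v' - u <= 2 l.
-/
namespace Pool.Agent.H44W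
open Finset

theorem u3_term (v m : ℤ) (al be : ℝ) (z : ℂ) :
    (if Even (m - v) then z * ee (al * ((m + v) / 2) + be * ((m - v) / 2)) else 0)
      = (1 / 2) * ee ((al - be) * (v / 2)) * (z * ee ((al + be) / 2 * m))
        + (1 / 2) * (ee ((al - be) * (v / 2)) * ee (-((v:ℝ) / 2))) * (z * ee (((al + be) / 2 + 1 / 2) * m)) := by
  have e1 : ee (((al + be) / 2 + 1 / 2) * m) = ee ((al + be) / 2 * m) * ee ((m:ℝ) / 2) := by
    rw [← ee_add]
    congr 1
    ring
  have e2 : ee (-((v:ℝ) / 2)) * ee ((m:ℝ) / 2) = if Even (m - v) then 1 else -1 := by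
    rw [← ee_half, ← ee_add]
    congr 1
    push_cast
    ring
  have e3 : ee (al * ((m + v) / 2) + be * ((m - v) / 2)) = ee ((al - be) * (v / 2)) * ee ((al + be) / 2 * m) := by
    rw [← ee_add]
    congr 1
    ring
  have e4 : (1 / 2) * (ee ((al - be) * (v / 2)) * ee (-((v:ℝ) / 2))) * (z * (ee ((al + be) / 2 * m) * ee ((m:ℝ) / 2)))
      = (1 / 2) * ee ((al - be) * (v / 2)) * (z * ee ((al + be) / 2 * m)) * (ee (-((v:ℝ) / 2)) * ee ((m:ℝ) / 2)) := by
    ring
  rw [e1, e4, e2, e3]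
  split_ifs
  · ring
  · ring

theorem one_pair_v (n l : ℕ) (F : ℤ → ℂ) (tau : ℝ) (htau : 0 ≤ tau)
    (hF : ∀ u v : ℤ, 1 ≤ u → u ≤ v → v ≤ 2 * n + 1 → v - u ≤ 2 * l → ∀ ga : ℝ,
      ‖∑ m ∈ Ico u v, F m * ee (ga * m)‖ ≤ l * tau)
    (v u1 u2 : ℤ) (al be : ℝ) :
    ‖∑ x ∈ (Icc (1:ℤ) n).filter (fun x => x ∈ Ico u1 (u1 + l) ∧ x - v ∈ Icc (1:ℤ) n ∧
        x - v ∈ Ico u2 (u2 + l)), F (2 * x - v) * ee (al * x + be * (x - v))‖ ≤ l * tau := by
  have hlt : 0 ≤ (l:ℝ) * tau := mul_nonneg (Nat.cast_nonneg _) htau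
  obtain ⟨c, hc⟩ : ∃ c : ℤ, c = max (max 1 u1) (max (v + 1) (v + u2)) := ⟨_, rfl⟩
  obtain ⟨d, hd⟩ : ∃ d : ℤ, d = min (min ((n:ℤ) + 1) (u1 + l)) (min (v + n + 1) (v + u2 + l)) := ⟨_, rfl⟩
  have hcd : (Icc (1:ℤ) n).filter (fun x => x ∈ Ico u1 (u1 + l) ∧ x - v ∈ Icc (1:ℤ) n ∧
        x - v ∈ Ico u2 (u2 + l)) = Ico c d := by
    ext x
    simp only [Finset.mem_filter, Finset.mem_Icc, Finset.mem_Ico]
    omega
  rw [hcd]
  rcases le_or_gt d c with hle | hgt
  · rw [Finset.Ico_eq_empty (by omega), Finset.sum_empty, norm_zero]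
    exact hlt
  have e1 : ∑ x ∈ Ico c d, F (2 * x - v) * ee (al * x + be * (x - v))
      = ∑ m ∈ (Ico (2 * c - v) (2 * d - v - 1)).filter (fun m => Even (m - v)),
          F m * ee (al * ((m + v) / 2) + be * ((m - v) / 2)) := by
    refine Finset.sum_nbij' (fun x => 2 * x - v) (fun m => (m + v) / 2) ?_ ?_ ?_ ?_ ?_
    · intro x hx
      have h3 := Finset.mem_Ico.1 hx
      refine Finset.mem_filter.2 ⟨Finset.mem_Ico.2 ⟨by omega, by omega⟩, ?_⟩
      exact ⟨x - v, by ring⟩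
    · intro m hm
      obtain ⟨h3, k, hk⟩ := Finset.mem_filter.1 hm
      have h4 := Finset.mem_Ico.1 h3
      exact Finset.mem_Ico.2 ⟨by omega, by omega⟩
    · intro x _
      omega
    · intro m hm
      obtain ⟨h3, k, hk⟩ := Finset.mem_filter.1 hm
      omega
    · intro x _
      congr 2
      push_cast
      ring
  rw [e1, Finset.sum_filter, Finset.sum_congr rfl fun m _ => u3_term v m al be (F m), Finset.sum_add_distrib,
    ← Finset.mul_sum, ← Finset.mul_sum]
  have h5 := hF (2 * c - v) (2 * d - v - 1) (by omega) (by omega) (by omega) (by omega)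
  refine (norm_add_le _ _).trans ?_
  rw [norm_mul, norm_mul, norm_mul, norm_mul, norm_mul, norm_ee, norm_ee, norm_div, norm_one, Complex.norm_ofNat]
  have h6 := h5 ((al + be) / 2)
  have h7 := h5 ((al + be) / 2 + 1 / 2)
  linarith

end Pool.Agent.H44W
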