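import Pool.Agent.Lib.H44W.U3
/-!
CHUNK U4 (M). The form at two window-linear functions.
w1 y = ep1 (j) ee(th1 j * y), j = (y - r1)/l; w2 y = ep2 (k) ee(th2 k * y), k = (y - r2)/l (floor division by l >= 1).
The sum over x in [1,n], y in [1,n] is split according to j = (x - r1)/l, k = (y - r2)/l and v = x - y:
for given j, k: x in Ico (r1 + j l) (r1 + (j+1) l) and y in Ico (r2 + k l) (r2 + (k+1) l), so v = x - y takes at most 2 l values
(v lies in Ico (c - l) (c + l), c = r1 + j l - r2 - k l), and for given j, k, v the sum over x is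
ep1 j * ep2 k * W v * sum of F (2x - v) ee(th1 j x + th2 k (x - v)) over the set of one_pair_v: norm <= l tau (|W| <= 1, |ep| <= 1).
The number of j (windows meeting [1,n]) is at most n/l + 2 <= 3 n/l (l <= n), the same for k. Total <= (3n/l)^2 * 2l * l tau
= 18 n^2 tau.
Suggestion: image of Icc 1 n under x -> (x - r1)/l is contained in Icc ((1-r1)/l) ((n-r1)/l), whose cardinality is <= n/l + 2
(Int.ediv facts); use Finset.sum_fiberwise_of_maps_to for (x,y) -> (j,k,v) on the product Icc x Icc, and card of a set of triples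
contained in a sigma/product.
-/
namespace Pool.Agent.H44W
open Finset

theorem u4_div (l : ℕ) (hl : 1 ≤ l) (a j : ℤ) : a / (l:ℤ) = j ↔ j * l ≤ a ∧ a < j * l + l := by
  have hl' : (0:ℤ) < l := by exact_mod_cast hl
  constructor
  · rintro rfl
    constructor
    · exact Int.ediv_mul_le a hl'.ne'
    · have := Int.lt_ediv_add_one_mul_self a hl'
      linarith
  · rintro ⟨h1, h2⟩
    apply le_antisymm
    · have : a / (l:ℤ) < j + 1 := Int.ediv_lt_of_lt_mul hl' (by linarith)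
      omega
    · exact Int.le_ediv_of_mul_le hl' h1

theorem u4_card (n l : ℕ) (hl : 1 ≤ l) (hln : l ≤ n) (r : ℤ) :
    ((Icc ((1 - r) / (l:ℤ)) (((n:ℤ) - r) / l)).card : ℝ) ≤ 3 * n / l := by
  have hl' : (0:ℤ) < l := by exact_mod_cast hl
  have hlr : (0:ℝ) < l := by exact_mod_cast hl
  rw [le_div_iff₀ hlr, Int.card_Icc]
  obtain ⟨A, hAd⟩ : ∃ A, A = ((n:ℤ) - r) / l := ⟨_, rfl⟩
  obtain ⟨B, hBd⟩ : ∃ B, B = (1 - r) / (l:ℤ) := ⟨_, rfl⟩
  rw [← hAd, ← hBd]
  have hA : A * l ≤ n - r := by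
    rw [hAd]
    exact Int.ediv_mul_le _ hl'.ne'
  have hB : 1 - r < (B + 1) * l := by
    rw [hBd]
    exact Int.lt_ediv_add_one_mul_self _ hl'
  have hln' : (l:ℤ) ≤ n := by exact_mod_cast hln
  have key : ((A + 1 - B).toNat : ℤ) * l ≤ 3 * n := by
    rcases le_total 0 (A + 1 - B) with h | h
    · rw [Int.toNat_of_nonneg h]
      have e1 : (A + 1 - B) * (l:ℤ) = A * l + l - B * l := by ring
      have e2 : (B + 1) * (l:ℤ) = B * l + l := by ring
      rw [e1]
      rw [e2] at hB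
      linarith
    · rw [Int.toNat_of_nonpos h]
      simp
  exact_mod_cast key

theorem TF_WL (n l : ℕ) (hl : 1 ≤ l) (hln : l ≤ n) (F W : ℤ → ℂ) (hW : ∀ x, ‖W x‖ ≤ 1) (tau : ℝ)
    (htau : 0 ≤ tau)
    (hF : ∀ u v : ℤ, 1 ≤ u → u ≤ v → v ≤ 2 * n + 1 → v - u ≤ 2 * l → ∀ ga : ℝ,
      ‖∑ m ∈ Ico u v, F m * ee (ga * m)‖ ≤ l * tau)
    (w1 w2 : ℤ → ℂ) (h1 : WL l w1) (h2 : WL l w2) :
    ‖TF n F W w1 w2‖ ≤ 18 * (n:ℝ) ^ 2 * tau := by
  classical
  obtain ⟨r1, ep1, th1, he1, hw1⟩ := h1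
  obtain ⟨r2, ep2, th2, he2, hw2⟩ := h2
  have hl' : (0:ℤ) < l := by exact_mod_cast hl
  have hlr : (0:ℝ) < l := by exact_mod_cast hl
  let S : Finset (ℤ × ℤ) := Icc (1:ℤ) n ×ˢ Icc (1:ℤ) n
  let f : ℤ × ℤ → ℂ := fun p => w1 p.1 * w2 p.2 * F (p.1 + p.2) * W (p.1 - p.2)
  let cc : ℤ → ℤ → ℤ := fun j k => (r1 + j * l) - (r2 + k * l)
  let g : ℤ × ℤ → ℤ × ℤ × ℤ := fun p =>
    ((p.1 - r1) / l, (p.2 - r2) / l, p.1 - p.2 - cc ((p.1 - r1) / l) ((p.2 - r2) / l))
  let J := Icc ((1 - r1) / (l:ℤ)) (((n:ℤ) - r1) / l)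
  let K := Icc ((1 - r2) / (l:ℤ)) (((n:ℤ) - r2) / l)
  let T : Finset (ℤ × ℤ × ℤ) := J ×ˢ K ×ˢ Ico (-(l:ℤ)) l
  have hTF : TF n F W w1 w2 = ∑ p ∈ S, f p := by
    unfold TF
    simp only [S, f]
    rw [Finset.sum_product]
  have hmaps : ∀ p ∈ S, g p ∈ T := by
    intro p hp
    rw [Finset.mem_product, mem_Icc, mem_Icc] at hp
    obtain ⟨⟨a1, a2⟩, b1, b2⟩ := hp
    have e1 := (u4_div l hl (p.1 - r1) _).1 rfl
    have e2 := (u4_div l hl (p.2 - r2) _).1 rfl
    simp only [T, g, J, K, Finset.mem_product, mem_Icc, mem_Ico]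
    refine ⟨⟨Int.ediv_le_ediv hl' (by linarith), Int.ediv_le_ediv hl' (by linarith)⟩,
      ⟨Int.ediv_le_ediv hl' (by linarith), Int.ediv_le_ediv hl' (by linarith)⟩, ?_, ?_⟩
    · simp only [cc]
      linarith [e1.1, e1.2, e2.1, e2.2]
    · simp only [cc]
      linarith [e1.1, e1.2, e2.1, e2.2]
  have hfib : ∀ τ ∈ T, ‖∑ p ∈ S with g p = τ, f p‖ ≤ l * tau := by
    rintro ⟨j, k, u⟩ _
    obtain ⟨v, hv⟩ : ∃ v, v = u + cc j k := ⟨_, rfl⟩
    have hsum : ∑ p ∈ S with g p = (j, k, u), f p = (ep1 j * ep2 k * W v) *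
        ∑ x ∈ (Icc (1:ℤ) n).filter (fun x => x ∈ Ico (r1 + j * l) (r1 + j * l + l) ∧
          x - v ∈ Icc (1:ℤ) n ∧ x - v ∈ Ico (r2 + k * l) (r2 + k * l + l)),
          F (2 * x - v) * ee (th1 j * x + th2 k * (x - v)) := by
      rw [Finset.mul_sum]
      have hkey : ∀ p : ℤ × ℤ, g p = (j, k, u) ↔ ((p.1 - r1) / l = j ∧ (p.2 - r2) / l = k ∧
          p.2 = p.1 - v) := by
        intro p
        simp only [g, Prod.mk.injEq]
        constructor
        · rintro ⟨c1, c2, c3⟩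
          refine ⟨c1, c2, ?_⟩
          rw [c1, c2] at c3
          rw [hv]
          linarith
        · rintro ⟨c1, c2, c3⟩
          refine ⟨c1, c2, ?_⟩
          rw [c1, c2, c3, hv]
          ring
      refine Finset.sum_bij' (fun p _ => p.1) (fun x _ => (x, x - v)) ?_ ?_ ?_ ?_ ?_
      · intro p hp
        rw [Finset.mem_filter, hkey] at hp
        obtain ⟨hpS, c1, c2, c3⟩ := hp
        rw [Finset.mem_product] at hpS
        have d1 := (u4_div l hl _ _).1 c1
        have d2 := (u4_div l hl _ _).1 c2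
        rw [Finset.mem_filter, mem_Ico, mem_Ico, ← c3]
        refine ⟨hpS.1, ⟨by linarith [d1.1], by linarith [d1.2]⟩, hpS.2,
          by linarith [d2.1], by linarith [d2.2]⟩
      · intro x hx
        rw [Finset.mem_filter, mem_Ico, mem_Ico] at hx
        obtain ⟨hx1, ⟨hx2, hx3⟩, hx4, hx5, hx6⟩ := hx
        rw [Finset.mem_filter, hkey]
        refine ⟨Finset.mem_product.2 ⟨hx1, hx4⟩, ?_, ?_, rfl⟩
        · exact (u4_div l hl _ _).2 ⟨by linarith, by linarith⟩
        · exact (u4_div l hl _ _).2 ⟨by linarith, by linarith⟩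
      · intro p hp
        rw [Finset.mem_filter, hkey] at hp
        exact Prod.ext rfl hp.2.2.2.symm
      · intro x hx
        rfl
      · intro p hp
        rw [Finset.mem_filter, hkey] at hp
        obtain ⟨hpS, c1, c2, c3⟩ := hp
        simp only [f]
        rw [hw1 p.1, hw2 p.2, c1, c2, ee_add]
        have g1 : p.1 + p.2 = 2 * p.1 - v := by
          rw [c3]
          ring
        have g2 : p.1 - p.2 = v := by
          rw [c3]
          ring
        have g3 : (p.2 : ℝ) = (p.1 : ℝ) - (v : ℝ) := by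
          rw [c3]
          push_cast
          ring
        rw [g1, g2, g3]
        ring
    rw [hsum, norm_mul, norm_mul, norm_mul]
    have hone := one_pair_v n l F tau htau hF v (r1 + j * l) (r2 + k * l) (th1 j) (th2 k)
    have hc : ‖ep1 j‖ * ‖ep2 k‖ * ‖W v‖ ≤ 1 :=
      mul_le_one₀ (mul_le_one₀ (he1 j) (norm_nonneg _) (he2 k)) (norm_nonneg _) (hW v)
    calc ‖ep1 j‖ * ‖ep2 k‖ * ‖W v‖ * _ ≤ 1 * (l * tau) := by
          exact mul_le_mul hc hone (norm_nonneg _) zero_le_one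
      _ = l * tau := one_mul _
  rw [hTF, ← Finset.sum_fiberwise_of_maps_to hmaps f]
  refine (norm_sum_le _ _).trans ?_
  refine (Finset.sum_le_sum hfib).trans ?_
  rw [Finset.sum_const, nsmul_eq_mul]
  have hJ : (J.card : ℝ) ≤ 3 * n / l := u4_card n l hl hln r1
  have hK : (K.card : ℝ) ≤ 3 * n / l := u4_card n l hl hln r2
  have hTc : (T.card : ℝ) = J.card * (K.card * (2 * l)) := by
    simp only [T]
    rw [Finset.card_product, Finset.card_product, Int.card_Ico]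
    have : ((l:ℤ) - -(l:ℤ)).toNat = 2 * l := by omega
    rw [this]
    push_cast
    ring
  rw [hTc]
  calc (J.card : ℝ) * (K.card * (2 * l)) * (l * tau)
      ≤ (3 * n / l) * ((3 * n / l) * (2 * l)) * (l * tau) := by
        gcongr
    _ = 18 * (n:ℝ) ^ 2 * tau := by
        field_simp
        ring

end Pool.Agent.H44W
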