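import Pool.Agent.Lib.H44W.D2
import Pool.Agent.Lib.H44W.U2
/-!
CHUNK U5 (S/M). The inverse property of the difference F = sum_q ga q (pd q I1 I2 - M q).
Proof. By TF_sum_sub and |ga| <= 1: be n^2 <= |TF n F W f g| <= sum over q in Q of (|TF (pd q)| + |TF (M q)|), |Q| <= Q0, so some
q in Q has be/(2 Q0) n^2 <= |TF n (pd q ..)| or be/(2 Q0) n^2 <= |TF n (M q)| (be > 0 so Q is nonempty). Note
5000 y^2 <= be/(2 Q0) <= 1.
Case 1 (pd): by contradiction assume |sum g w| < y^24 n =: m for all w with WL l w. D12 with the parameter 5000 y^2 (in (0,1]; its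
hypotheses follow from hA1, hA2, hlq because 5000 y^2 >= y^2, and q <= Q0) gives (5000 y^2)^12 n <= 10^18 y^24 n, false
(5000^12 > 10^18, y > 0, n > 0). So some w has y^24 n <= |sum g w|, and min (y^24) ph <= y^24.
Case 2 (M q): hM gives th with ph n <= |sum g ee(th y)|; w y = ee(th * y) is WL l (r = 0, ep = 1, th constant).
-/
namespace Pool.Agent.H44W
open Finset

theorem inv_F (n l A1 A2 B1 B2 : ℕ) (hn : 1 ≤ n) (Q : Finset ℕ) (Q0 : ℕ) (hQ0 : 1 ≤ Q0) (hQ : Q.card ≤ Q0)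
    (hQ1 : ∀ q ∈ Q, 1 ≤ q ∧ q ≤ Q0) (ga : ℕ → ℂ) (hga : ∀ q, ‖ga q‖ ≤ 1) (M : ℕ → ℤ → ℂ)
    (be y ph : ℝ) (hbe1 : be ≤ 1) (hy : 0 < y) (hby : 10000 * Q0 * y ^ 2 ≤ be)
    (hB1 : B1 ≤ 2 * A1) (hB2 : B2 ≤ 2 * A2) (hA1 : (10:ℝ) ^ 8 ≤ A1 * y ^ 12)
    (hA2 : (10:ℝ) ^ 8 ≤ A2 * y ^ 12) (hlq : (10:ℝ) ^ 12 * Q0 ≤ l * y ^ 16)
    (hlA : l * (A1 + A2) ≤ n) (W f g : ℤ → ℂ) (hW : ∀ x, ‖W x‖ ≤ 1) (hf : ∀ x, ‖f x‖ ≤ 1)
    (hg : ∀ x, ‖g x‖ ≤ 1)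
    (hM : ∀ q ∈ Q, y ^ 2 * (n:ℝ) ^ 2 ≤ ‖TF n (M q) W f g‖ →
      ∃ th : ℝ, ph * n ≤ ‖∑ z ∈ Icc (1:ℤ) n, g z * ee (th * z)‖)
    (hT : be * (n:ℝ) ^ 2 ≤ ‖TF n (fun m => ∑ q ∈ Q, ga q *
      (pd q (Ico (A1:ℤ) B1) (Ico (A2:ℤ) B2) m - M q m)) W f g‖) :
    ∃ w : ℤ → ℂ, WL l w ∧ min (y ^ 24) ph * n ≤ ‖∑ z ∈ Icc (1:ℤ) n, g z * w z‖ := by
  have hn0 : (0:ℝ) < n := by exact_mod_cast hn
  have hQ0' : (1:ℝ) ≤ Q0 := by exact_mod_cast hQ0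
  have hy2 : 0 < y ^ 2 := by positivity
  rw [TF_sum_sub] at hT
  -- some q has a large term
  have hex : ∃ q ∈ Q, 5000 * y ^ 2 * (n:ℝ) ^ 2 ≤ ‖TF n (pd q (Ico (A1:ℤ) B1) (Ico (A2:ℤ) B2)) W f g‖ ∨
      5000 * y ^ 2 * (n:ℝ) ^ 2 ≤ ‖TF n (M q) W f g‖ := by
    by_contra hcon
    push Not at hcon
    have h1 : ‖∑ q ∈ Q, ga q * (TF n (pd q (Ico (A1:ℤ) B1) (Ico (A2:ℤ) B2)) W f g - TF n (M q) W f g)‖ ≤
        ∑ q ∈ Q, 10000 * y ^ 2 * (n:ℝ) ^ 2 := by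
      refine (norm_sum_le _ _).trans (Finset.sum_le_sum fun q hq => ?_)
      obtain ⟨h2, h3⟩ := hcon q hq
      rw [norm_mul]
      calc ‖ga q‖ * ‖TF n (pd q (Ico (A1:ℤ) B1) (Ico (A2:ℤ) B2)) W f g - TF n (M q) W f g‖
          ≤ 1 * (‖TF n (pd q (Ico (A1:ℤ) B1) (Ico (A2:ℤ) B2)) W f g‖ + ‖TF n (M q) W f g‖) :=
            mul_le_mul (hga q) (norm_sub_le _ _) (norm_nonneg _) zero_le_one
        _ ≤ 10000 * y ^ 2 * (n:ℝ) ^ 2 := by linarith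
    rw [Finset.sum_const, nsmul_eq_mul] at h1
    rcases Finset.eq_empty_or_nonempty Q with h0 | ⟨q, hq⟩
    · rw [h0, Finset.sum_empty, norm_zero] at hT
      have h2 : 0 < be * (n:ℝ) ^ 2 := by
        have : 0 < be := lt_of_lt_of_le (by positivity) hby
        positivity
      linarith
    · -- strict inequality for the terms
      have h2 : ‖∑ q ∈ Q, ga q * (TF n (pd q (Ico (A1:ℤ) B1) (Ico (A2:ℤ) B2)) W f g - TF n (M q) W f g)‖ <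
          ∑ q ∈ Q, 10000 * y ^ 2 * (n:ℝ) ^ 2 := by
        refine (norm_sum_le _ _).trans_lt (Finset.sum_lt_sum_of_nonempty ⟨q, hq⟩ fun q hq => ?_)
        obtain ⟨h2, h3⟩ := hcon q hq
        rw [norm_mul]
        calc ‖ga q‖ * ‖TF n (pd q (Ico (A1:ℤ) B1) (Ico (A2:ℤ) B2)) W f g - TF n (M q) W f g‖
            ≤ 1 * (‖TF n (pd q (Ico (A1:ℤ) B1) (Ico (A2:ℤ) B2)) W f g‖ + ‖TF n (M q) W f g‖) :=
              mul_le_mul (hga q) (norm_sub_le _ _) (norm_nonneg _) zero_le_one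
          _ < 10000 * y ^ 2 * (n:ℝ) ^ 2 := by linarith
      rw [Finset.sum_const, nsmul_eq_mul] at h2
      have h3 : (Q.card : ℝ) ≤ Q0 := by exact_mod_cast hQ
      have h4 : (Q.card : ℝ) * (10000 * y ^ 2 * (n:ℝ) ^ 2) ≤ Q0 * (10000 * y ^ 2 * (n:ℝ) ^ 2) :=
        mul_le_mul_of_nonneg_right h3 (by positivity)
      have h5 : (Q0 : ℝ) * (10000 * y ^ 2 * (n:ℝ) ^ 2) = (10000 * Q0 * y ^ 2) * (n:ℝ) ^ 2 := by ring
      have h6 : (10000 * (Q0:ℝ) * y ^ 2) * (n:ℝ) ^ 2 ≤ be * (n:ℝ) ^ 2 :=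
        mul_le_mul_of_nonneg_right hby (by positivity)
      linarith
  obtain ⟨q, hq, hor⟩ := hex
  obtain ⟨hq1, hq2⟩ := hQ1 q hq
  rcases hor with h1 | h1
  · by_contra hcon
    push Not at hcon
    have hsm : ∀ w : ℤ → ℂ, WL l w → ‖∑ z ∈ Icc (1:ℤ) n, g z * w z‖ ≤ y ^ 24 * n := by
      intro w hw
      refine (hcon w hw).le.trans ?_
      exact mul_le_mul_of_nonneg_right (min_le_left _ _) hn0.le
    have h5y : 5000 * y ^ 2 ≤ 1 := by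
      have h2 : 10000 * 1 * y ^ 2 ≤ 10000 * (Q0:ℝ) * y ^ 2 := by
        refine mul_le_mul_of_nonneg_right ?_ hy2.le
        linarith
      linarith
    have hle : y ^ 2 ≤ 5000 * y ^ 2 := by linarith
    have hp6 : y ^ 12 ≤ (5000 * y ^ 2) ^ 6 := by
      calc y ^ 12 = (y ^ 2) ^ 6 := by ring
        _ ≤ _ := pow_le_pow_left₀ hy2.le hle 6
    have hp8 : y ^ 16 ≤ (5000 * y ^ 2) ^ 8 := by
      calc y ^ 16 = (y ^ 2) ^ 8 := by ring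
        _ ≤ _ := pow_le_pow_left₀ hy2.le hle 8
    have h2 := D12 n q l A1 A2 B1 B2 hn hq1 (5000 * y ^ 2) (by positivity) h5y hB1 hB2
      (hA1.trans (mul_le_mul_of_nonneg_left hp6 (Nat.cast_nonneg _)))
      (hA2.trans (mul_le_mul_of_nonneg_left hp6 (Nat.cast_nonneg _)))
      (by
        have h3 : (q:ℝ) ≤ Q0 := by exact_mod_cast hq2
        calc (10:ℝ) ^ 12 * q ≤ 10 ^ 12 * Q0 := mul_le_mul_of_nonneg_left h3 (by positivity)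
          _ ≤ l * y ^ 16 := hlq
          _ ≤ l * (5000 * y ^ 2) ^ 8 := mul_le_mul_of_nonneg_left hp8 (Nat.cast_nonneg _))
      hlA W f g hW hf hg h1 (y ^ 24 * n) hsm
    have h3 : (5000 * y ^ 2) ^ 12 * (n:ℝ) = 5000 ^ 12 * (y ^ 24 * n) := by ring
    have h4 : 0 < y ^ 24 * (n:ℝ) := by positivity
    rw [h3] at h2
    norm_num at h2
    nlinarith
  · obtain ⟨th, hth⟩ := hM q hq (by
      refine le_trans ?_ h1
      refine mul_le_mul_of_nonneg_right ?_ (by positivity)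
      linarith)
    refine ⟨fun y => ee (th * y), ⟨0, fun _ => 1, fun _ => th, fun _ => norm_one.le, fun y => by rw [one_mul]⟩, ?_⟩
    exact le_trans (mul_le_mul_of_nonneg_right (min_le_right _ _) hn0.le) hth

end Pool.Agent.H44W
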