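import Pool.Agent.Lib.H44W.U5
import Pool.Agent.Lib.H44W.U1
import Pool.Agent.Lib.H44W.U4
/-!
CHUNK U6 (S/M). MAIN THEOREM of D1 + D2 (explicit).
Let F be the difference function and suppose de n^2 < |TF n F W f g|. (If Q is empty F = 0: contradiction.)
First dual step (U1, with de): hinv is inv_F (U5) with be = de^2/ka (<= 1), y = y0, ph = ph1: 10000 Q0 y0^2 = de^2/(Q0 ka^2) <= be.
Its hypotheses on A1, A2, l hold because y1 <= y0 (y1 <= y0^24/(100 Q0 ka) and y0 <= 1). Result: w2 with WL l w2 and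
ka * min (y0^24) ph1 * n^2 <= |TF n F W f w2|; put de1 = min (y0^24) ph1 (0 < de1 <= 1), so de1 n^2 <= |TF n F W f w2| (ka >= 1).
Swap (TF_swap, U2): |TF n F W f w2| = |TF n F W' w2 f|, W' v = W (-v). Second dual step (U1) with de1, f := w2 (norm_WL), W':
be = de1^2/ka, y = y1, ph = ph2: 10000 Q0 y1^2 <= de1^2/(Q0 ka^2) <= be. Result: w1 with WL l w1 and
ka * min (y1^24) ph2 * n^2 <= |TF n F W' w2 w1|. TF_WL (U4) with tau' := Q0 * tau (the sum of F over Ico u v is at most the sum over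
q in Q of |ga q| * l tau <= Q0 * (l tau)): |TF n F W' w2 w1| <= 18 n^2 Q0 tau. So min (y1^24) ph2 <= 18 Q0 tau, contradiction with htau.
l <= n follows from hlA (A1 >= 1 by hA1).
-/
namespace Pool.Agent.H44W
open Finset

theorem u6_small {y : ℝ} (h0 : 0 ≤ y) (h1 : y ≤ 1) {k : ℕ} (hk : k ≠ 0) : y ^ k ≤ y := by
  obtain ⟨j, rfl⟩ := Nat.exists_eq_succ_of_ne_zero hk
  rw [pow_succ]
  exact mul_le_of_le_one_left h0 (pow_le_one₀ h0 h1)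

theorem u6_window (l A1 A2 B1 B2 : ℕ) (Q : Finset ℕ) (Q0 : ℕ) (hQ : Q.card ≤ Q0) (ga : ℕ → ℂ)
    (hga : ∀ q, ‖ga q‖ ≤ 1) (M : ℕ → ℤ → ℂ) (tau : ℝ) (htau0 : 0 ≤ tau) (u v : ℤ) (th : ℝ)
    (hX : ∀ q ∈ Q, ‖∑ m ∈ Ico u v, (pd q (Ico (A1:ℤ) B1) (Ico (A2:ℤ) B2) m - M q m) * ee (th * m)‖ ≤ l * tau) :
    ‖∑ m ∈ Ico u v, (∑ q ∈ Q, ga q * (pd q (Ico (A1:ℤ) B1) (Ico (A2:ℤ) B2) m - M q m)) * ee (th * m)‖ ≤
      l * (Q0 * tau) := by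
  have e : ∑ m ∈ Ico u v, (∑ q ∈ Q, ga q * (pd q (Ico (A1:ℤ) B1) (Ico (A2:ℤ) B2) m - M q m)) * ee (th * m) =
      ∑ q ∈ Q, ga q * ∑ m ∈ Ico u v, (pd q (Ico (A1:ℤ) B1) (Ico (A2:ℤ) B2) m - M q m) * ee (th * m) := by
    simp_rw [Finset.sum_mul]
    rw [Finset.sum_comm]
    refine Finset.sum_congr rfl fun q _ => ?_
    rw [Finset.mul_sum]
    refine Finset.sum_congr rfl fun m _ => ?_
    ring
  rw [e]
  refine (norm_sum_le _ _).trans ?_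
  have h1 : ∀ q ∈ Q, ‖ga q * ∑ m ∈ Ico u v, (pd q (Ico (A1:ℤ) B1) (Ico (A2:ℤ) B2) m - M q m) * ee (th * m)‖ ≤ l * tau := by
    intro q hq
    rw [norm_mul]
    exact (mul_le_of_le_one_left (norm_nonneg _) (hga q)).trans (hX q hq)
  refine (Finset.sum_le_sum h1).trans ?_
  rw [Finset.sum_const, nsmul_eq_mul]
  have h2 : (Q.card : ℝ) ≤ Q0 := by exact_mod_cast hQ
  have h3 : 0 ≤ (l : ℝ) * tau := by positivity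
  calc (Q.card : ℝ) * (l * tau) ≤ Q0 * (l * tau) := mul_le_mul_of_nonneg_right h2 h3
    _ = l * (Q0 * tau) := by ring

theorem near_diag (n l A1 A2 B1 B2 : ℕ) (hn : 1 ≤ n) (hl1 : 1 ≤ l) (Q : Finset ℕ) (Q0 : ℕ)
    (hQ0 : 1 ≤ Q0) (hQ : Q.card ≤ Q0) (hQ1 : ∀ q ∈ Q, 1 ≤ q ∧ q ≤ Q0) (ga : ℕ → ℂ)
    (hga : ∀ q, ‖ga q‖ ≤ 1) (M : ℕ → ℤ → ℂ) (ka : ℝ) (hka : 1 ≤ ka)
    (hB1 : B1 ≤ 2 * A1) (hB2 : B2 ≤ 2 * A2) (hlA : l * (A1 + A2) ≤ n)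
    (hK : ∑ m ∈ Icc (1:ℤ) (2 * n), ‖∑ q ∈ Q, ga q *
      (pd q (Ico (A1:ℤ) B1) (Ico (A2:ℤ) B2) m - M q m)‖ ≤ ka * n)
    (tau : ℝ) (htau0 : 0 ≤ tau)
    (hX : ∀ q ∈ Q, ∀ u v : ℤ, 1 ≤ u → u ≤ v → v ≤ 2 * n + 1 → v - u ≤ 2 * l → ∀ th : ℝ,
      ‖∑ m ∈ Ico u v, (pd q (Ico (A1:ℤ) B1) (Ico (A2:ℤ) B2) m - M q m) * ee (th * m)‖ ≤ l * tau)
    (de y0 ph1 y1 ph2 : ℝ) (hde : 0 < de) (hde1 : de ≤ 1) (hy0 : y0 = de / (100 * Q0 * ka))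
    (hph1 : 0 < ph1) (hph1' : ph1 ≤ 1) (hy1 : 0 < y1)
    (hy1' : 100 * Q0 * ka * y1 ≤ min (y0 ^ 24) ph1) (hph2 : 0 < ph2)
    (hM1 : ∀ q ∈ Q, ∀ W f g : ℤ → ℂ, (∀ x, ‖W x‖ ≤ 1) → (∀ x, ‖f x‖ ≤ 1) → (∀ x, ‖g x‖ ≤ 1) →
      y0 ^ 2 * (n:ℝ) ^ 2 ≤ ‖TF n (M q) W f g‖ →
      ∃ th : ℝ, ph1 * n ≤ ‖∑ z ∈ Icc (1:ℤ) n, g z * ee (th * z)‖)
    (hM2 : ∀ q ∈ Q, ∀ W f g : ℤ → ℂ, (∀ x, ‖W x‖ ≤ 1) → (∀ x, ‖f x‖ ≤ 1) → (∀ x, ‖g x‖ ≤ 1) →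
      y1 ^ 2 * (n:ℝ) ^ 2 ≤ ‖TF n (M q) W f g‖ →
      ∃ th : ℝ, ph2 * n ≤ ‖∑ z ∈ Icc (1:ℤ) n, g z * ee (th * z)‖)
    (htau : 18 * Q0 * tau < min (y1 ^ 24) ph2) (hA1 : (10:ℝ) ^ 8 ≤ A1 * y1 ^ 12)
    (hA2 : (10:ℝ) ^ 8 ≤ A2 * y1 ^ 12) (hlX : (10:ℝ) ^ 12 * Q0 ≤ l * y1 ^ 16)
    (W f g : ℤ → ℂ) (hW : ∀ x, ‖W x‖ ≤ 1) (hf : ∀ x, ‖f x‖ ≤ 1) (hg : ∀ x, ‖g x‖ ≤ 1) :
    ‖TF n (fun m => ∑ q ∈ Q, ga q *
      (pd q (Ico (A1:ℤ) B1) (Ico (A2:ℤ) B2) m - M q m)) W f g‖ ≤ de * (n:ℝ) ^ 2 := by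
  by_contra hcon
  rw [not_le] at hcon
  have hQ0' : (1 : ℝ) ≤ Q0 := by exact_mod_cast hQ0
  have hn' : (1 : ℝ) ≤ n := by exact_mod_cast hn
  have hn2 : 0 < (n : ℝ) ^ 2 := by positivity
  have hka0 : 0 < ka := by linarith
  have hQk : (1 : ℝ) ≤ Q0 * ka := by nlinarith
  have hy00 : 0 < y0 := by
    rw [hy0]
    positivity
  have hy01 : y0 ≤ 1 := by
    rw [hy0, div_le_one (by positivity)]
    nlinarith
  set de1 : ℝ := min (y0 ^ 24) ph1 with hde1d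
  have hde10 : 0 < de1 := lt_min (by positivity) hph1
  have hde11 : de1 ≤ 1 := (min_le_right _ _).trans hph1'
  have hy1de : y1 ≤ de1 := by
    have h1 : y1 ≤ 100 * Q0 * ka * y1 := by nlinarith
    exact h1.trans hy1'
  have hy1y0 : y1 ≤ y0 := hy1de.trans ((min_le_left _ _).trans (u6_small hy00.le hy01 (by norm_num)))
  have hy11 : y1 ≤ 1 := hy1y0.trans hy01
  have hA1' : (10:ℝ) ^ 8 ≤ A1 * y0 ^ 12 :=
    hA1.trans (mul_le_mul_of_nonneg_left (pow_le_pow_left₀ hy1.le hy1y0 12) (Nat.cast_nonneg _))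
  have hA2' : (10:ℝ) ^ 8 ≤ A2 * y0 ^ 12 :=
    hA2.trans (mul_le_mul_of_nonneg_left (pow_le_pow_left₀ hy1.le hy1y0 12) (Nat.cast_nonneg _))
  have hlX' : (10:ℝ) ^ 12 * Q0 ≤ l * y0 ^ 16 :=
    hlX.trans (mul_le_mul_of_nonneg_left (pow_le_pow_left₀ hy1.le hy1y0 16) (Nat.cast_nonneg _))
  have hln : l ≤ n := by
    have h1 : 1 ≤ A1 := by
      rcases Nat.eq_zero_or_pos A1 with h | h
      · rw [h, Nat.cast_zero, zero_mul] at hA1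
        norm_num at hA1
      · exact h
    have h2 : l * 1 ≤ l * (A1 + A2) := Nat.mul_le_mul_left l (by omega)
    omega
  -- first dual step
  have hbe1 : de ^ 2 / ka ≤ 1 := by
    rw [div_le_one hka0]
    nlinarith
  have hby : 10000 * Q0 * y0 ^ 2 ≤ de ^ 2 / ka := by
    rw [hy0, div_pow, ← mul_div_assoc, div_le_div_iff₀ (by positivity) hka0]
    have h1 : ka ≤ Q0 * ka ^ 2 := by nlinarith
    have h2 : 0 ≤ 10000 * (Q0 : ℝ) * de ^ 2 := by positivity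
    nlinarith [mul_le_mul_of_nonneg_left h1 h2]
  obtain ⟨w2, hw2, hT2⟩ := dual_step n l hn (fun m => ∑ q ∈ Q, ga q *
      (pd q (Ico (A1:ℤ) B1) (Ico (A2:ℤ) B2) m - M q m)) W f hW hf ka hka0 hK de de1 hde.le
    (fun g' hg' h => inv_F n l A1 A2 B1 B2 hn Q Q0 hQ0 hQ hQ1 ga hga M (de ^ 2 / ka) y0 ph1 hbe1 hy00 hby hB1 hB2
      hA1' hA2' hlX' hlA W f g' hW hf hg' (fun q hq => hM1 q hq W f g' hW hf hg') h) g hg hcon.le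
  have hT2' : de1 * (n:ℝ) ^ 2 ≤ ‖TF n (fun m => ∑ q ∈ Q, ga q *
      (pd q (Ico (A1:ℤ) B1) (Ico (A2:ℤ) B2) m - M q m)) (fun v => W (-v)) w2 f‖ := by
    rw [← TF_swap]
    refine le_trans ?_ hT2
    have h1 : 0 ≤ de1 * (n:ℝ) ^ 2 := by positivity
    nlinarith
  -- second dual step
  have hbe1' : de1 ^ 2 / ka ≤ 1 := by
    rw [div_le_one hka0]
    nlinarith
  have hby' : 10000 * Q0 * y1 ^ 2 ≤ de1 ^ 2 / ka := by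
    rw [le_div_iff₀ hka0]
    have h1 : (100 * Q0 * ka * y1) ^ 2 ≤ de1 ^ 2 := pow_le_pow_left₀ (by positivity) hy1' 2
    have h2 : ka ≤ Q0 * ka ^ 2 := by nlinarith
    have h3 : 0 ≤ 10000 * (Q0 : ℝ) * y1 ^ 2 := by positivity
    nlinarith [mul_le_mul_of_nonneg_left h2 h3]
  have hW' : ∀ x, ‖(fun v => W (-v)) x‖ ≤ 1 := fun x => hW (-x)
  have hw2' := norm_WL l w2 hw2
  obtain ⟨w1, hw1, hT1⟩ := dual_step n l hn (fun m => ∑ q ∈ Q, ga q *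
      (pd q (Ico (A1:ℤ) B1) (Ico (A2:ℤ) B2) m - M q m)) (fun v => W (-v)) w2 hW' hw2' ka hka0 hK de1
    (min (y1 ^ 24) ph2) hde10.le
    (fun g' hg' h => inv_F n l A1 A2 B1 B2 hn Q Q0 hQ0 hQ hQ1 ga hga M (de1 ^ 2 / ka) y1 ph2 hbe1' hy1 hby' hB1 hB2
      hA1 hA2 hlX hlA (fun v => W (-v)) w2 g' hW' hw2' hg'
      (fun q hq => hM2 q hq (fun v => W (-v)) w2 g' hW' hw2' hg') h) f hf hT2'
  have hfin := TF_WL n l hl1 hln (fun m => ∑ q ∈ Q, ga q *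
      (pd q (Ico (A1:ℤ) B1) (Ico (A2:ℤ) B2) m - M q m)) (fun v => W (-v)) hW' (Q0 * tau) (by positivity)
    (fun u v h1 h2 h3 h4 th => u6_window l A1 A2 B1 B2 Q Q0 hQ ga hga M tau htau0 u v th
      (fun q hq => hX q hq u v h1 h2 h3 h4 th)) w2 w1 hw2 hw1
  have h1 := hT1.trans hfin
  have hmn : 0 < min (y1 ^ 24) ph2 := lt_min (by positivity) hph2
  have h2 : min (y1 ^ 24) ph2 * (n:ℝ) ^ 2 ≤ ka * min (y1 ^ 24) ph2 * (n:ℝ) ^ 2 := by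
    have h3 : 0 ≤ min (y1 ^ 24) ph2 * (n:ℝ) ^ 2 := by positivity
    nlinarith
  have h3 : min (y1 ^ 24) ph2 * (n:ℝ) ^ 2 ≤ 18 * Q0 * tau * (n:ℝ) ^ 2 := by linarith
  have h4 := le_of_mul_le_mul_right h3 hn2
  linarith

end Pool.Agent.H44W
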