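import Pool.Agent.Lib.H44W.W0
/-!
CHUNK V1 (M). General van der Corput inequality with an invariant weight.
S, S' finite sets of Z x Z, V finite, J a finite index set with shifts ta i. Th p v = 0 for p not in S; for p in S, i in J the point
p - ta i lies in S'; the weight w is invariant: w (p + ta i) v = w p v for i in J.
Proof. For i in J: sum_{p in S} sum_{v in V} w p v * Th p v = sum_{p in S'} sum_{v in V} w (p + ta i) v * Th (p + ta i) v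
(the map p -> p + ta i is injective, its image of S' contains S, and Th = 0 off S) = sum_{p in S'} sum_v w p v * Th (p + ta i) v.
Summing over i: |J| T = sum_{p in S', v in V} w p v * (sum_i Th (p + ta i) v). Cauchy-Schwarz on the product S' x V:
|J|^2 |T|^2 <= (sum |w|^2) * sum_{p in S', v} |sum_i Th(p + ta i) v|^2, and the last sum is the real number
sum_{i,j} sum_{p in S', v} Th(p + ta i) v * conj Th(p + ta j) v = sum_{i,j} Cor S V Th (ta i - ta j)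
(translate p by - ta j: the terms with p + ta j not in S vanish, and p - ta j is in S' for p in S). Take norms (norm_sum_le).
Finset tools: Finset.sum_bij_ne_zero or sum_subset after Finset.sum_map with the embedding of the translation.
-/
namespace Pool.Agent.H44W
open Finset

theorem v1_tr (S S' : Finset (ℤ × ℤ)) (t : ℤ × ℤ) (G : ℤ × ℤ → ℂ) (hG : ∀ p, p ∉ S → G p = 0)
    (hS' : ∀ p ∈ S, p - t ∈ S') : ∑ p ∈ S, G p = ∑ p ∈ S', G (p + t) := by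
  have h1 : ∑ p ∈ S.image (fun p => p - t), G (p + t) = ∑ p ∈ S, G p := by
    rw [Finset.sum_image]
    · exact Finset.sum_congr rfl fun p _ => by rw [sub_add_cancel]
    · intro a _ b _ h
      exact sub_left_injective h
  rw [← h1]
  apply Finset.sum_subset
  · intro p hp
    obtain ⟨q, hq, rfl⟩ := Finset.mem_image.1 hp
    exact hS' q hq
  · intro p _ hp
    apply hG
    intro h
    exact hp (Finset.mem_image.2 ⟨p + t, h, by simp⟩)

theorem v1_sq (z : ℂ) : ((‖z‖ ^ 2 : ℝ) : ℂ) = z * (starRingEnd ℂ) z := by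
  rw [Complex.mul_conj, Complex.normSq_eq_norm_sq]

theorem vdc {ι : Type*} (S S' : Finset (ℤ × ℤ)) (V : Finset ℤ) (J : Finset ι) (ta : ι → ℤ × ℤ)
    (Th w : ℤ × ℤ → ℤ → ℂ) (hTh : ∀ p v, p ∉ S → Th p v = 0)
    (hS' : ∀ p ∈ S, ∀ i ∈ J, p - ta i ∈ S')
    (hw : ∀ p v, ∀ i ∈ J, w (p + ta i) v = w p v) (B : ℝ)
    (hB : ∑ p ∈ S', ∑ v ∈ V, ‖w p v‖ ^ 2 ≤ B) :
    (J.card : ℝ) ^ 2 * ‖∑ p ∈ S, ∑ v ∈ V, w p v * Th p v‖ ^ 2 ≤
      B * ∑ i ∈ J, ∑ j ∈ J, ‖Cor S V Th (ta i - ta j)‖ := by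
  set T : ℂ := ∑ p ∈ S, ∑ v ∈ V, w p v * Th p v with hT
  set A : ℤ × ℤ → ℤ → ℂ := fun p v => ∑ i ∈ J, Th (p + ta i) v with hA
  have h1 : (J.card : ℂ) * T = ∑ p ∈ S', ∑ v ∈ V, w p v * A p v := by
    have h2 : ∀ i ∈ J, T = ∑ p ∈ S', ∑ v ∈ V, w p v * Th (p + ta i) v := by
      intro i hi
      rw [hT, v1_tr S S' (ta i) (fun p => ∑ v ∈ V, w p v * Th p v)
        (fun p hp => Finset.sum_eq_zero fun v _ => by rw [hTh p v hp, mul_zero])
        (fun p hp => hS' p hp i hi)]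
      exact Finset.sum_congr rfl fun p _ => Finset.sum_congr rfl fun v _ => by rw [hw p v i hi]
    rw [← nsmul_eq_mul, ← Finset.sum_const, Finset.sum_congr rfl h2, Finset.sum_comm]
    refine Finset.sum_congr rfl fun p _ => ?_
    rw [Finset.sum_comm]
    refine Finset.sum_congr rfl fun v _ => ?_
    rw [hA, Finset.mul_sum]
  have h3 : (J.card : ℝ) * ‖T‖ ≤ ∑ x ∈ S' ×ˢ V, ‖w x.1 x.2‖ * ‖A x.1 x.2‖ := by
    have h4 : (J.card : ℝ) * ‖T‖ = ‖(J.card : ℂ) * T‖ := by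
      rw [norm_mul, Complex.norm_natCast]
    rw [h4, h1, ← Finset.sum_product']
    refine (norm_sum_le _ _).trans (Finset.sum_le_sum fun x _ => ?_)
    rw [norm_mul]
  have h5 : ((J.card : ℝ) * ‖T‖) ^ 2 ≤
      (∑ x ∈ S' ×ˢ V, ‖w x.1 x.2‖ ^ 2) * ∑ x ∈ S' ×ˢ V, ‖A x.1 x.2‖ ^ 2 :=
    (pow_le_pow_left₀ (by positivity) h3 2).trans (Finset.sum_mul_sq_le_sq_mul_sq _ _ _)
  have h6 : ∑ x ∈ S' ×ˢ V, ‖w x.1 x.2‖ ^ 2 ≤ B := by
    rw [Finset.sum_product]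
    exact hB
  have h7 : ((∑ x ∈ S' ×ˢ V, ‖A x.1 x.2‖ ^ 2 : ℝ) : ℂ) = ∑ i ∈ J, ∑ j ∈ J, Cor S V Th (ta i - ta j) := by
    have h8 : ∀ i ∈ J, ∀ j ∈ J, Cor S V Th (ta i - ta j) =
        ∑ x ∈ S' ×ˢ V, Th (x.1 + ta i) x.2 * (starRingEnd ℂ) (Th (x.1 + ta j) x.2) := by
      intro i _ j hj
      rw [Cor, v1_tr S S' (ta j) (fun p => ∑ v ∈ V, Th (p + (ta i - ta j)) v * (starRingEnd ℂ) (Th p v))
        (fun p hp => Finset.sum_eq_zero fun v _ => by rw [hTh p v hp, map_zero, mul_zero])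
        (fun p hp => hS' p hp j hj), Finset.sum_product]
      refine Finset.sum_congr rfl fun p _ => Finset.sum_congr rfl fun v _ => ?_
      rw [add_add_sub_cancel]
    rw [Complex.ofReal_sum]
    have h9 : ∀ x ∈ S' ×ˢ V, ((‖A x.1 x.2‖ ^ 2 : ℝ) : ℂ) =
        ∑ i ∈ J, ∑ j ∈ J, Th (x.1 + ta i) x.2 * (starRingEnd ℂ) (Th (x.1 + ta j) x.2) := by
      intro x _
      rw [v1_sq, hA, map_sum, Finset.sum_mul_sum]
    rw [Finset.sum_congr rfl h9, Finset.sum_comm]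
    refine Finset.sum_congr rfl fun i hi => ?_
    rw [Finset.sum_comm]
    refine Finset.sum_congr rfl fun j hj => ?_
    rw [h8 i hi j hj]
  have h10 : ∑ x ∈ S' ×ˢ V, ‖A x.1 x.2‖ ^ 2 ≤ ∑ i ∈ J, ∑ j ∈ J, ‖Cor S V Th (ta i - ta j)‖ := by
    have h11 : ∑ x ∈ S' ×ˢ V, ‖A x.1 x.2‖ ^ 2 = ‖((∑ x ∈ S' ×ˢ V, ‖A x.1 x.2‖ ^ 2 : ℝ) : ℂ)‖ := by
      rw [Complex.norm_real, Real.norm_of_nonneg (Finset.sum_nonneg fun _ _ => by positivity)]
    rw [h11, h7]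
    exact (norm_sum_le _ _).trans (Finset.sum_le_sum fun i _ => norm_sum_le _ _)
  have h12 : 0 ≤ ∑ x ∈ S' ×ˢ V, ‖A x.1 x.2‖ ^ 2 := Finset.sum_nonneg fun _ _ => by positivity
  have h13 : 0 ≤ B := le_trans (Finset.sum_nonneg fun _ _ => by positivity) h6
  calc (J.card : ℝ) ^ 2 * ‖T‖ ^ 2 = ((J.card : ℝ) * ‖T‖) ^ 2 := by ring
    _ ≤ _ := h5
    _ ≤ B * ∑ x ∈ S' ×ˢ V, ‖A x.1 x.2‖ ^ 2 := mul_le_mul_of_nonneg_right h6 h12
    _ ≤ _ := mul_le_mul_of_nonneg_left h10 h13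

end Pool.Agent.H44W
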