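import Pool.Agent.Lib.H44W.W0
/-!
CHUNK V2 (M). The form TF of a near-diagonal piece in the variables (a,b), v = x - y.
Proof. Unfold TF, pd: the cardinality is the sum over p in I1 x I2 of the indicator of q p1 p2 = x + y (Finset.card_filter,
push_cast), so TF = sum_{p} sum_{x,y in [1,n], x + y = q p1 p2} f x g y W(x - y). For fixed p (m := q p1 p2) the map
(x,y) -> x - y is a bijection from {(x,y) in [1,n]^2, x + y = m} onto the set of v in [-n,n] with m + v even and
(m+v)/2, (m-v)/2 in [1,n]; inverse v -> ((m+v)/2, (m-v)/2). In the sum over v the other v contribute 0 (parity or cut).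
Use Finset.sum_bij_ne_zero or: sum over (x,y) in the filtered product, sum_nbij' to the filtered Icc (-n) n, then
Finset.sum_filter. omega for the arithmetic (write m for the product first, generalize).
-/
namespace Pool.Agent.H44W
open Finset

theorem v2_cut_ne {n : ℕ} {f : ℤ → ℂ} {x : ℤ} (h : cut n f x ≠ 0) : 1 ≤ x ∧ x ≤ n := by
  unfold cut at h
  by_cases hx : x ∈ Icc (1:ℤ) n
  · exact Finset.mem_Icc.1 hx
  · rw [if_neg hx] at h
    exact absurd rfl h

theorem v2_cut_eq {n : ℕ} {f : ℤ → ℂ} {x : ℤ} (h1 : 1 ≤ x) (h2 : x ≤ n) : cut n f x = f x := by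
  unfold cut
  rw [if_pos (Finset.mem_Icc.2 ⟨h1, h2⟩)]

theorem v2_inner (n : ℕ) (m : ℤ) (W f g : ℤ → ℂ) :
    ∑ x ∈ Icc (1:ℤ) n, ∑ y ∈ Icc (1:ℤ) n, (if m = x + y then f x * g y * W (x - y) else 0) =
      ∑ v ∈ Icc (-(n:ℤ)) n, W v * (if Even (m + v) then cut n f ((m + v) / 2) * cut n g ((m - v) / 2) else 0) := by
  have h1 : ∀ x : ℤ, ∑ y ∈ Icc (1:ℤ) n, (if m = x + y then f x * g y * W (x - y) else 0)
      = f x * cut n g (m - x) * W (2 * x - m) := by
    intro x
    by_cases hx : m - x ∈ Icc (1:ℤ) n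
    · rw [Finset.sum_eq_single (m - x)]
      · rw [if_pos (by ring), v2_cut_eq (Finset.mem_Icc.1 hx).1 (Finset.mem_Icc.1 hx).2]
        congr 2
        ring
      · intro y _ hy
        rw [if_neg]
        intro h
        exact hy (by omega)
      · intro h
        exact absurd hx h
    · unfold cut
      rw [if_neg hx, mul_zero, zero_mul]
      refine Finset.sum_eq_zero fun y hy => ?_
      rw [if_neg]
      intro h
      apply hx
      have : m - x = y := by omega
      rw [this]
      exact hy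
  rw [Finset.sum_congr rfl fun x _ => h1 x]
  refine Finset.sum_bij_ne_zero (fun x _ _ => 2 * x - m) ?_ ?_ ?_ ?_
  · intro x hx h
    have h2 := v2_cut_ne (right_ne_zero_of_mul (left_ne_zero_of_mul h))
    have h3 := Finset.mem_Icc.1 hx
    exact Finset.mem_Icc.2 ⟨by omega, by omega⟩
  · intro x _ _ y _ _ h
    omega
  · intro v hv h
    have h2 := right_ne_zero_of_mul h
    by_cases he : Even (m + v)
    · rw [if_pos he] at h2
      obtain ⟨c, hc⟩ := he
      have e1 : (m + v) / 2 = c := by omega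
      have e2 : (m - v) / 2 = m - c := by omega
      have e3 : 2 * c - m = v := by omega
      rw [e1, e2] at h2
      have h3 := v2_cut_ne (left_ne_zero_of_mul h2)
      refine ⟨c, Finset.mem_Icc.2 h3, ?_, e3⟩
      rw [e3]
      rw [v2_cut_eq h3.1 h3.2] at h2
      exact mul_ne_zero h2 (left_ne_zero_of_mul h)
    · rw [if_neg he] at h2
      exact absurd rfl h2
  · intro x hx _
    have h3 := Finset.mem_Icc.1 hx
    have e1 : m + (2 * x - m) = 2 * x := by ring
    have e2 : m - (2 * x - m) = 2 * (m - x) := by ring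
    rw [e1, e2, if_pos (even_two_mul x), Int.mul_ediv_cancel_left _ two_ne_zero, Int.mul_ediv_cancel_left _ two_ne_zero,
      v2_cut_eq h3.1 h3.2]
    ring

theorem TF_pd (n q : ℕ) (I1 I2 : Finset ℤ) (W f g : ℤ → ℂ) :
    TF n (pd q I1 I2) W f g =
      ∑ p ∈ I1 ×ˢ I2, ∑ v ∈ Icc (-(n:ℤ)) n, W v * Th1 n q (I1 ×ˢ I2) f g p v := by
  have h1 : ∀ p ∈ I1 ×ˢ I2, ∑ v ∈ Icc (-(n:ℤ)) n, W v * Th1 n q (I1 ×ˢ I2) f g p v
      = ∑ x ∈ Icc (1:ℤ) n, ∑ y ∈ Icc (1:ℤ) n, (if (q:ℤ) * p.1 * p.2 = x + y then f x * g y * W (x - y) else 0) := by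
    intro p hp
    rw [v2_inner]
    refine Finset.sum_congr rfl fun v _ => ?_
    unfold Th1
    simp only [hp, true_and]
  rw [Finset.sum_congr rfl h1, Finset.sum_comm]
  unfold TF pd
  refine Finset.sum_congr rfl fun x _ => ?_
  rw [Finset.sum_comm]
  refine Finset.sum_congr rfl fun y _ => ?_
  rw [← Finset.sum_filter, Finset.sum_const, nsmul_eq_mul]
  ring

end Pool.Agent.H44W
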