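import Pool.Agent.Lib.H44W.V1
import Pool.Agent.Lib.H44W.V2
import Pool.Agent.Lib.H44W.E5
/-!
CHUNK V3 (M). First van der Corput step, shifts (2s, 2t), 0 <= s, t < L.
Apply vdc with S = bx A1 A1' A2 A2' (S = Ico x Ico by unfolding bx), S' = bx (A1 - 2L) A1' (A2 - 2L) A2', V = Icc (-n) n,
J = range L x range L, ta (s,t) = (2s, 2t), Th = Th1 .. (zero off S by definition), w p v = W v.
B: sum over p in S', v in V of |W v|^2 <= card S' * (2n+1) <= (A1' - A1 + 2L)(A2' - A2 + 2L)(2n+1) <= (2 A1)(2 A2)(3n)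
= 12 n A1 A2 (A1' <= 2 A1, 2L <= A1, 1 <= n; if A1' < A1 - 2L the box is empty and the bound is trivial: card of Ico is
toNat of the difference; use card <= 2 A1 and card <= 2 A2 for the two factors).
The double sum over J x J: for pairs (s,t),(s',t') with s = s' or t = t' (at most 2 L^3 pairs) use the trivial bound
|Cor| <= card S * (2n+1) <= A1 A2 * 3n (norm_Th1_le, card S <= A1 A2); for the others ta i - ta j = (2(s-s'), 2(t-t')) with
0 < |s - s'| < L etc., so |Cor| <= M by hypothesis. Total <= 2 L^3 * 3 n A1 A2 + L^4 M. Divide by L^4 (card J = L^2).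
-/
namespace Pool.Agent.H44W
open Finset

theorem norm_Th1_le (n q : ℕ) (S : Finset (ℤ × ℤ)) (f g : ℤ → ℂ) (hf : ∀ x, ‖f x‖ ≤ 1)
    (hg : ∀ x, ‖g x‖ ≤ 1) (p : ℤ × ℤ) (v : ℤ) : ‖Th1 n q S f g p v‖ ≤ 1 := by
  unfold Th1
  split_ifs
  · rw [norm_mul]
    exact mul_le_one₀ (norm_cut n f hf _) (norm_nonneg _) (norm_cut n g hg _)
  · rw [norm_zero]
    exact zero_le_one

theorem v3_cor (n q : ℕ) (A1 A2 B1 B2 : ℕ) (hn : 1 ≤ n) (hB1 : B1 ≤ 2 * A1) (hB2 : B2 ≤ 2 * A2)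
    (f g : ℤ → ℂ) (hf : ∀ x, ‖f x‖ ≤ 1) (hg : ∀ x, ‖g x‖ ≤ 1) (t : ℤ × ℤ) :
    ‖Cor (bx A1 B1 A2 B2) (Icc (-(n:ℤ)) n) (Th1 n q (bx A1 B1 A2 B2) f g) t‖ ≤ 3 * n * A1 * A2 := by
  unfold Cor
  refine (norm_sum_le _ _).trans ?_
  have h1 : ∀ p ∈ bx (A1:ℤ) B1 A2 B2, ‖∑ v ∈ Icc (-(n:ℤ)) n,
      Th1 n q (bx A1 B1 A2 B2) f g (p + t) v *
        (starRingEnd ℂ) (Th1 n q (bx A1 B1 A2 B2) f g p v)‖ ≤ 3 * n := by
    intro p _
    refine (norm_sum_le _ _).trans ((Finset.sum_le_sum (g := fun _ => (1:ℝ)) fun v _ => ?_).trans ?_)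
    · rw [norm_mul, RCLike.norm_conj]
      exact mul_le_one₀ (norm_Th1_le n q _ f g hf hg _ _) (norm_nonneg _)
        (norm_Th1_le n q _ f g hf hg _ _)
    · rw [Finset.sum_const, nsmul_eq_mul, mul_one]
      have h2 : (Icc (-(n:ℤ)) n).card ≤ 3 * n := by
        rw [Int.card_Icc]
        omega
      exact_mod_cast h2
  refine (Finset.sum_le_sum h1).trans ?_
  rw [Finset.sum_const, nsmul_eq_mul]
  have hcard : ((bx (A1:ℤ) B1 A2 B2).card : ℝ) ≤ (A1:ℝ) * A2 := by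
    have h3 : (bx (A1:ℤ) B1 A2 B2).card ≤ A1 * A2 := by
      unfold bx
      rw [Finset.card_product, Int.card_Ico, Int.card_Ico]
      exact Nat.mul_le_mul (by omega) (by omega)
    exact_mod_cast h3
  calc ((bx (A1:ℤ) B1 A2 B2).card : ℝ) * (3 * n) ≤ (A1:ℝ) * A2 * (3 * n) :=
        mul_le_mul_of_nonneg_right hcard (by positivity)
    _ = 3 * n * A1 * A2 := by ring

theorem step1 (n q L A1 A2 B1 B2 : ℕ) (hn : 1 ≤ n) (hL : 1 ≤ L) (hA1 : 2 * L ≤ A1)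
    (hA2 : 2 * L ≤ A2) (hB1 : B1 ≤ 2 * A1) (hB2 : B2 ≤ 2 * A2) (W f g : ℤ → ℂ)
    (hW : ∀ x, ‖W x‖ ≤ 1) (hf : ∀ x, ‖f x‖ ≤ 1) (hg : ∀ x, ‖g x‖ ≤ 1) (M : ℝ) (hM0 : 0 ≤ M)
    (hM : ∀ s t : ℤ, s ≠ 0 → t ≠ 0 → |s| < L → |t| < L →
      ‖Cor (bx A1 B1 A2 B2) (Icc (-(n:ℤ)) n) (Th1 n q (bx A1 B1 A2 B2) f g) (2 * s, 2 * t)‖ ≤ M) :
    ‖TF n (pd q (Ico (A1:ℤ) B1) (Ico (A2:ℤ) B2)) W f g‖ ^ 2 ≤
      12 * n * A1 * A2 * (6 * n * A1 * A2 / L + M) := by
  classical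
  have hLr : (0:ℝ) < L := by
    have : 0 < L := by omega
    exact_mod_cast this
  obtain ⟨S, hS⟩ : ∃ S, S = bx (A1:ℤ) B1 A2 B2 := ⟨_, rfl⟩
  obtain ⟨V, hV⟩ : ∃ V, V = Icc (-(n:ℤ)) n := ⟨_, rfl⟩
  have hTF : TF n (pd q (Ico (A1:ℤ) B1) (Ico (A2:ℤ) B2)) W f g =
      ∑ p ∈ S, ∑ v ∈ V, W v * Th1 n q S f g p v := by
    rw [TF_pd, hS, hV]
    rfl
  rw [← hS, ← hV] at hM
  have hcor := v3_cor n q A1 A2 B1 B2 hn hB1 hB2 f g hf hg
  rw [← hS, ← hV] at hcor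
  have hv := vdc S (bx ((A1:ℤ) - 2 * L) B1 ((A2:ℤ) - 2 * L) B2) V (range L ×ˢ range L)
    (fun i => (2 * (i.1 : ℤ), 2 * (i.2 : ℤ))) (Th1 n q S f g) (fun _ v => W v) ?_ ?_
    (fun _ _ _ _ => rfl) (12 * n * A1 * A2) ?_
  rotate_left
  · intro p v hp
    unfold Th1
    rw [if_neg]
    exact fun h => hp h.1
  · intro p hp i hi
    rw [hS] at hp
    unfold bx at hp ⊢
    rw [Finset.mem_product, mem_Ico, mem_Ico] at hp ⊢
    rw [Finset.mem_product, mem_range, mem_range] at hi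
    simp only [Prod.fst_sub, Prod.snd_sub]
    omega
  · have h1 : ∀ p ∈ bx ((A1:ℤ) - 2 * L) B1 ((A2:ℤ) - 2 * L) B2, ∑ v ∈ V, ‖W v‖ ^ 2 ≤ 3 * (n:ℝ) := by
      intro p _
      refine (Finset.sum_le_sum (g := fun _ => (1:ℝ)) fun v _ => ?_).trans ?_
      · exact pow_le_one₀ (norm_nonneg _) (hW v)
      · rw [Finset.sum_const, nsmul_eq_mul, mul_one]
        have h2 : V.card ≤ 3 * n := by
          rw [hV, Int.card_Icc]
          omega
        exact_mod_cast h2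
    refine (Finset.sum_le_sum h1).trans ?_
    rw [Finset.sum_const, nsmul_eq_mul]
    have hcard : ((bx ((A1:ℤ) - 2 * L) B1 ((A2:ℤ) - 2 * L) B2).card : ℝ) ≤ (2 * A1:ℝ) * (2 * A2) := by
      have h3 : (bx ((A1:ℤ) - 2 * L) B1 ((A2:ℤ) - 2 * L) B2).card ≤ (2 * A1) * (2 * A2) := by
        unfold bx
        rw [Finset.card_product, Int.card_Ico, Int.card_Ico]
        exact Nat.mul_le_mul (by omega) (by omega)
      exact_mod_cast h3
    calc _ ≤ (2 * A1:ℝ) * (2 * A2) * (3 * n) :=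
          mul_le_mul_of_nonneg_right hcard (by positivity)
      _ = 12 * n * A1 * A2 := by ring
  rw [← hTF, Finset.card_product, card_range] at hv
  -- the double sum
  obtain ⟨T, hT⟩ : ∃ T : ℝ, T = 3 * n * A1 * A2 := ⟨_, rfl⟩
  rw [← hT] at hcor
  have hT0 : 0 ≤ T := by
    rw [hT]
    positivity
  let z : (ℕ × ℕ) → (ℕ × ℕ) → ℝ := fun i j =>
    ‖Cor S V (Th1 n q S f g) ((2 * (i.1 : ℤ), 2 * (i.2 : ℤ)) - (2 * (j.1 : ℤ), 2 * (j.2 : ℤ)))‖
  have hz1 : ∀ i ∈ range L ×ˢ range L, ∀ j ∈ range L ×ˢ range L,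
      z i j ≤ (if i.1 = j.1 then T else 0) + (if i.2 = j.2 then T else 0) + M := by
    intro i hi j hj
    rw [Finset.mem_product, mem_range, mem_range] at hi hj
    have hz := hcor ((2 * (i.1 : ℤ), 2 * (i.2 : ℤ)) - (2 * (j.1 : ℤ), 2 * (j.2 : ℤ)))
    by_cases h1 : i.1 = j.1
    · rw [if_pos h1]
      have : (0:ℝ) ≤ if i.2 = j.2 then T else 0 := by
        split_ifs
        · exact hT0
        · exact le_rfl
      simp only [z]
      linarith
    · by_cases h2 : i.2 = j.2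
      · rw [if_neg h1, if_pos h2]
        simp only [z]
        linarith
      · rw [if_neg h1, if_neg h2]
        have e : ((2 * (i.1 : ℤ), 2 * (i.2 : ℤ)) - (2 * (j.1 : ℤ), 2 * (j.2 : ℤ)) : ℤ × ℤ) =
            (2 * ((i.1 : ℤ) - j.1), 2 * ((i.2 : ℤ) - j.2)) := by
          ext
          · simp only [Prod.fst_sub]
            ring
          · simp only [Prod.snd_sub]
            ring
        have h3 := hM ((i.1 : ℤ) - j.1) ((i.2 : ℤ) - j.2) (by omega) (by omega)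
          (by rw [abs_lt]; omega) (by rw [abs_lt]; omega)
        simp only [z]
        rw [e]
        linarith
  have hin : ∀ i ∈ range L ×ˢ range L, ∑ j ∈ range L ×ˢ range L, z i j ≤
      L * T + L * T + (L:ℝ) * L * M := by
    intro i hi
    refine (Finset.sum_le_sum fun j hj => hz1 i hi j hj).trans (le_of_eq ?_)
    rw [Finset.mem_product, mem_range, mem_range] at hi
    rw [Finset.sum_add_distrib, Finset.sum_add_distrib]
    have s1 : ∑ j ∈ range L ×ˢ range L, (if i.1 = j.1 then T else 0) = L * T := by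
      rw [Finset.sum_product]
      have : ∀ a ∈ range L, ∑ b ∈ range L, (if i.1 = (a, b).1 then T else 0) =
          if i.1 = a then L * T else 0 := by
        intro a _
        simp only
        split_ifs
        · rw [Finset.sum_const, card_range, nsmul_eq_mul]
        · rw [Finset.sum_const_zero]
      rw [Finset.sum_congr rfl this, Finset.sum_ite_eq, if_pos (mem_range.2 hi.1)]
    have s2 : ∑ j ∈ range L ×ˢ range L, (if i.2 = j.2 then T else 0) = L * T := by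
      rw [Finset.sum_product]
      have : ∀ a ∈ range L, ∑ b ∈ range L, (if i.2 = (a, b).2 then T else 0) = T := by
        intro a _
        simp only
        rw [Finset.sum_ite_eq, if_pos (mem_range.2 hi.2)]
      rw [Finset.sum_congr rfl this, Finset.sum_const, card_range, nsmul_eq_mul]
    rw [s1, s2, Finset.sum_const, Finset.card_product, card_range, nsmul_eq_mul]
    push_cast
    ring
  have hdouble : ∑ i ∈ range L ×ˢ range L, ∑ j ∈ range L ×ˢ range L, z i j ≤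
      (L:ℝ) * L * (L * T + L * T + (L:ℝ) * L * M) := by
    refine (Finset.sum_le_sum hin).trans (le_of_eq ?_)
    rw [Finset.sum_const, Finset.card_product, card_range, nsmul_eq_mul]
    push_cast
    ring
  have hB0 : (0:ℝ) ≤ 12 * n * A1 * A2 := by positivity
  have hv2 := hv.trans (mul_le_mul_of_nonneg_left hdouble hB0)
  have hL4 : (0:ℝ) < (L:ℝ) ^ 4 := by positivity
  refine le_of_mul_le_mul_left ?_ hL4
  calc (L:ℝ) ^ 4 * ‖TF n (pd q (Ico (A1:ℤ) B1) (Ico (A2:ℤ) B2)) W f g‖ ^ 2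
      = ((L * L : ℕ) : ℝ) ^ 2 * ‖TF n (pd q (Ico (A1:ℤ) B1) (Ico (A2:ℤ) B2)) W f g‖ ^ 2 := by
        push_cast
        ring
    _ ≤ 12 * n * A1 * A2 * ((L:ℝ) * L * (L * T + L * T + (L:ℝ) * L * M)) := hv2
    _ = (L:ℝ) ^ 4 * (12 * n * A1 * A2 * (6 * n * A1 * A2 / L + M)) := by
        rw [hT]
        field_simp
        ring

end Pool.Agent.H44W
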