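import Pool.Agent.Lib.H44W.W0
/-!
CHUNK V4 (M). The first correlation in the variable x = (q a b + v)/2.
Let S2 = S.filter (p + (2s,2t) in S). For p in S2 and v with q p1 p2 + v even put x = (q p1 p2 + v)/2, y = (q p1 p2 - v)/2
= q p1 p2 - x. Since q (p1+2s)(p2+2t) = q p1 p2 + 2 sD q s t p, the shifted pair is x + sD, y + sD. Hence
Cor S (Icc (-n) n) (Th1 ..) (2s,2t) = sum_{p in S2} sum_{v: parity} cut f (x + sD) cut g (y + sD) conj(cut f x) conj(cut g y)
= sum_{p in S2} sum_{x in V2} w2 .. p x * Th2 .. p x, where V2 = Icc (-n) (M) is ANY interval containing [1,n]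
(here n <= M): terms with x not in [1,n] vanish because of conj(cut f x); terms with y not in [1,n] vanish because of cut g;
and x, y in [1,n] imply v = x - y in [-n,n]. Bijection v -> x, inverse x -> v = 2x - q p1 p2
(Finset.sum_bij_ne_zero). For p not in S2 (p in S) the Th1 factor is 0.
-/
namespace Pool.Agent.H44W
open Finset

theorem v4_cut_ne {n : ℕ} {f : ℤ → ℂ} {x : ℤ} (h : cut n f x ≠ 0) : 1 ≤ x ∧ x ≤ n := by
  unfold cut at h
  by_cases hx : x ∈ Icc (1:ℤ) n
  · exact Finset.mem_Icc.1 hx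
  · rw [if_neg hx] at h
    exact absurd rfl h

theorem v4_conj_ne {z : ℂ} (h : (starRingEnd ℂ) z ≠ 0) : z ≠ 0 := by
  rintro rfl
  exact h (map_zero _)

theorem v4_inner (n : ℕ) (M m D : ℤ) (hM : (n:ℤ) ≤ M) (f g : ℤ → ℂ) :
    ∑ v ∈ Icc (-(n:ℤ)) n, (if Even (m + 2 * D + v) then
        cut n f ((m + 2 * D + v) / 2) * cut n g ((m + 2 * D - v) / 2) else 0) *
      (starRingEnd ℂ) (if Even (m + v) then cut n f ((m + v) / 2) * cut n g ((m - v) / 2) else 0)
    = ∑ x ∈ Icc (-(n:ℤ)) M, (cut n f (x + D) * (starRingEnd ℂ) (cut n f x)) *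
      (cut n g (m - x + D) * (starRingEnd ℂ) (cut n g (m - x))) := by
  symm
  refine Finset.sum_bij_ne_zero (fun x _ _ => 2 * x - m) ?_ ?_ ?_ ?_
  · intro x _ h
    have h2 := v4_cut_ne (v4_conj_ne (right_ne_zero_of_mul (left_ne_zero_of_mul h)))
    have h3 := v4_cut_ne (v4_conj_ne (right_ne_zero_of_mul (right_ne_zero_of_mul h)))
    exact Finset.mem_Icc.2 ⟨by omega, by omega⟩
  · intro x _ _ y _ _ h
    omega
  · intro v hv h
    have h2 := v4_conj_ne (right_ne_zero_of_mul h)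
    have h1 := left_ne_zero_of_mul h
    by_cases he : Even (m + v)
    · have he' : Even (m + 2 * D + v) := by
        have e : m + 2 * D + v = (m + v) + 2 * D := by ring
        rw [e]
        exact he.add (even_two_mul D)
      rw [if_pos he] at h2
      rw [if_pos he'] at h1
      obtain ⟨c, hc⟩ := he
      have e1 : (m + v) / 2 = c := by omega
      have e2 : (m - v) / 2 = m - c := by omega
      have e3 : 2 * c - m = v := by omega
      have e4 : (m + 2 * D + v) / 2 = c + D := by omega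
      have e5 : (m + 2 * D - v) / 2 = m - c + D := by omega
      rw [e1, e2] at h2
      rw [e4, e5] at h1
      have h3 := v4_cut_ne (left_ne_zero_of_mul h2)
      refine ⟨c, Finset.mem_Icc.2 ⟨by omega, by omega⟩, ?_, e3⟩
      refine mul_ne_zero (mul_ne_zero (left_ne_zero_of_mul h1) ?_) (mul_ne_zero (right_ne_zero_of_mul h1) ?_)
      · exact (map_ne_zero _).2 (left_ne_zero_of_mul h2)
      · exact (map_ne_zero _).2 (right_ne_zero_of_mul h2)
    · rw [if_neg he] at h2
      exact absurd rfl h2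
  · intro x _ _
    have e1 : m + (2 * x - m) = 2 * x := by ring
    have e2 : m - (2 * x - m) = 2 * (m - x) := by ring
    have e3 : m + 2 * D + (2 * x - m) = 2 * (x + D) := by ring
    have e4 : m + 2 * D - (2 * x - m) = 2 * (m - x + D) := by ring
    rw [e1, e2, e3, e4, if_pos (even_two_mul x), if_pos (even_two_mul _), Int.mul_ediv_cancel_left _ two_ne_zero,
      Int.mul_ediv_cancel_left _ two_ne_zero, Int.mul_ediv_cancel_left _ two_ne_zero,
      Int.mul_ediv_cancel_left _ two_ne_zero, map_mul]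
    ring

theorem cor1_eq (n q : ℕ) (M : ℤ) (hM : (n:ℤ) ≤ M) (S : Finset (ℤ × ℤ)) (f g : ℤ → ℂ) (s t : ℤ) :
    Cor S (Icc (-(n:ℤ)) n) (Th1 n q S f g) (2 * s, 2 * t) =
      ∑ p ∈ S.filter (fun p => p + (2 * s, 2 * t) ∈ S), ∑ x ∈ Icc (-(n:ℤ)) M,
        w2 n q s t f p x * Th2 n q (S.filter (fun p => p + (2 * s, 2 * t) ∈ S)) s t g p x := by
  unfold Cor
  rw [← Finset.sum_filter_add_sum_filter_not S (fun p => p + (2 * s, 2 * t) ∈ S)]
  have h0 : ∑ p ∈ S.filter (fun p => ¬ (p + (2 * s, 2 * t) ∈ S)), ∑ v ∈ Icc (-(n:ℤ)) n,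
      Th1 n q S f g (p + (2 * s, 2 * t)) v * (starRingEnd ℂ) (Th1 n q S f g p v) = 0 := by
    refine Finset.sum_eq_zero fun p hp => Finset.sum_eq_zero fun v _ => ?_
    have h1 := (Finset.mem_filter.1 hp).2
    unfold Th1
    rw [if_neg (fun h => h1 h.1), zero_mul]
  rw [h0, add_zero]
  refine Finset.sum_congr rfl fun p hp => ?_
  obtain ⟨hp1, hp2⟩ := Finset.mem_filter.1 hp
  have h3 := v4_inner n M ((q:ℤ) * p.1 * p.2) (sD q s t p) hM f g
  have h4 : ∀ x ∈ Icc (-(n:ℤ)) M, w2 n q s t f p x * Th2 n q (S.filter (fun p => p + (2 * s, 2 * t) ∈ S)) s t g p x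
      = (cut n f (x + sD q s t p) * (starRingEnd ℂ) (cut n f x)) *
      (cut n g ((q:ℤ) * p.1 * p.2 - x + sD q s t p) * (starRingEnd ℂ) (cut n g ((q:ℤ) * p.1 * p.2 - x))) := by
    intro x _
    unfold w2 Th2
    rw [if_pos hp]
  rw [Finset.sum_congr rfl h4, ← h3]
  refine Finset.sum_congr rfl fun v _ => ?_
  have e : (q:ℤ) * (p + (2 * s, 2 * t)).1 * (p + (2 * s, 2 * t)).2 = (q:ℤ) * p.1 * p.2 + 2 * sD q s t p := by
    unfold sD
    simp only [Prod.fst_add, Prod.snd_add]
    ring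
  unfold Th1
  rw [e]
  simp only [hp1, hp2, true_and]

end Pool.Agent.H44W
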