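import Pool.Agent.Lib.H44W.V3
import Pool.Agent.Lib.H44W.V4
/-!
CHUNK V5 (M). Second van der Corput step, shifts h (s, -t), 0 <= h < H; the weight w2 is invariant.
S2 = S.filter (p + (2s,2t) in S), S = bx A1 B1 A2 B2. By cor1_eq (V4) with M = any integer >= n the correlation is
sum_{p in S2} sum_{x in V2} w2 p x * Th2 p x, V2 = Icc (-n) M.
sD q s t (p + (h s, -h t)) = sD q s t p (ring), so w2 is invariant. Apply vdc with J = range H, ta h = (h s, -(h t)),
S' = bx (A1 - H L) (B1 + H L) (A2 - H L) (B2 + H L) (|h s| <= H L; the coordinates of p - ta h are in these intervals),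
B = 9 n A1 A2: |w2 p x|^2 <= 1 if x in [1,n] and = 0 otherwise (norm_cut), so the sum is <= card S' * n <= (3 A1)(3 A2) n
because B1 - A1 + 2 H L <= A1 + 2 A1. The double sum: pairs h = h': H of them, |Cor S2 V2 Th2 0| <= n A1 A2
(for fixed p: |Th2 p x|^2 <= 1 and it vanishes unless q p1 p2 - x in [1,n], so at most n values of x; card S2 <= A1 A2);
pairs h # h': ta h - ta h' = ((h-h') s, -((h-h') t)), hypothesis: <= M2. Total <= H n A1 A2 + H^2 M2. Divide by H^2.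
-/
namespace Pool.Agent.H44W
open Finset

theorem v5_norm_cut {n : ℕ} {f : ℤ → ℂ} (hf : ∀ x, ‖f x‖ ≤ 1) (x : ℤ) : ‖cut n f x‖ ≤ 1 := by
  unfold cut
  split_ifs
  · exact hf x
  · rw [norm_zero]; exact zero_le_one

theorem v5_cut_zero {n : ℕ} {f : ℤ → ℂ} {x : ℤ} (hx : x ∉ Icc (1:ℤ) n) : cut n f x = 0 := by
  unfold cut
  rw [if_neg hx]

/-- A function bounded by 1, supported on [1,n] after a reflection: sum of squares over any interval. -/
theorem v5_sum {n : ℕ} (V : Finset ℤ) (e : ℤ → ℤ) (he : Function.Injective e) (F : ℤ → ℝ) (hF : ∀ x, F x ≤ 1) (hF0 : ∀ x, 0 ≤ F x)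
    (hz : ∀ x, e x ∉ Icc (1:ℤ) n → F x = 0) : ∑ x ∈ V, F x ≤ n := by
  classical
  have h1 : ∑ x ∈ V, F x = ∑ x ∈ V.filter (fun x => e x ∈ Icc (1:ℤ) n), F x := by
    rw [Finset.sum_filter]
    refine Finset.sum_congr rfl fun x _ => ?_
    split_ifs with h
    · rfl
    · exact hz x h
  rw [h1]
  calc ∑ x ∈ V.filter (fun x => e x ∈ Icc (1:ℤ) n), F x ≤ ∑ x ∈ V.filter (fun x => e x ∈ Icc (1:ℤ) n), (1 : ℝ) :=
        Finset.sum_le_sum fun x _ => hF x
    _ = ((V.filter (fun x => e x ∈ Icc (1:ℤ) n)).card : ℝ) := by rw [Finset.sum_const, nsmul_eq_mul, mul_one]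
    _ ≤ ((Icc (1:ℤ) n).card : ℝ) := by
        have : (V.filter (fun x => e x ∈ Icc (1:ℤ) n)).card ≤ (Icc (1:ℤ) n).card :=
          Finset.card_le_card_of_injOn e (fun x hx => (Finset.mem_filter.1 hx).2) (he.injOn)
        exact_mod_cast this
    _ = n := by rw [Int.card_Icc]; simp

theorem v5_card (a b : ℤ) (c : ℕ) (h : b - a ≤ c) : ((Ico a b).card : ℝ) ≤ c := by
  rw [Int.card_Ico]
  have : (b - a).toNat ≤ c := by omega
  exact_mod_cast this

theorem step2 (n q L H A1 A2 B1 B2 : ℕ) (hn : 1 ≤ n) (hH : 1 ≤ H) (hA1 : H * L ≤ A1)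
    (hA2 : H * L ≤ A2) (hB1 : B1 ≤ 2 * A1) (hB2 : B2 ≤ 2 * A2) (M : ℤ) (hM : (n:ℤ) ≤ M)
    (f g : ℤ → ℂ) (hf : ∀ x, ‖f x‖ ≤ 1) (hg : ∀ x, ‖g x‖ ≤ 1) (s t : ℤ) (hs : |s| < L)
    (ht : |t| < L) (M2 : ℝ) (hM20 : 0 ≤ M2)
    (hM2 : ∀ h : ℤ, h ≠ 0 → |h| < H →
      ‖Cor ((bx A1 B1 A2 B2).filter (fun p => p + (2 * s, 2 * t) ∈ bx A1 B1 A2 B2))
        (Icc (-(n:ℤ)) M)
        (Th2 n q ((bx A1 B1 A2 B2).filter (fun p => p + (2 * s, 2 * t) ∈ bx A1 B1 A2 B2)) s t g)
        (h * s, -(h * t))‖ ≤ M2) :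
    ‖Cor (bx A1 B1 A2 B2) (Icc (-(n:ℤ)) n) (Th1 n q (bx A1 B1 A2 B2) f g) (2 * s, 2 * t)‖ ^ 2 ≤
      9 * n * A1 * A2 * (n * A1 * A2 / H + M2) := by
  rw [cor1_eq n q M hM]
  set S2 := (bx A1 B1 A2 B2).filter (fun p => p + (2 * s, 2 * t) ∈ bx A1 B1 A2 B2) with hS2
  set V := Icc (-(n:ℤ)) M with hV
  have hsub : S2 ⊆ bx A1 B1 A2 B2 := Finset.filter_subset _ _
  -- cardinality of S2
  have hcS : (S2.card : ℝ) ≤ A1 * A2 := by
    have h1 : (S2.card : ℝ) ≤ ((bx A1 B1 A2 B2).card : ℝ) := by exact_mod_cast Finset.card_le_card hsub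
    refine h1.trans ?_
    unfold bx
    rw [Finset.card_product, Nat.cast_mul]
    exact mul_le_mul (v5_card _ _ _ (by omega)) (v5_card _ _ _ (by omega)) (by positivity) (by positivity)
  have hHL : (0:ℤ) ≤ (H:ℤ) * L := by positivity
  have hshift : ∀ i ∈ range H, ∀ u : ℤ, |u| < L → |(i:ℤ) * u| ≤ (H:ℤ) * L := by
    intro i hi u hu
    rw [abs_mul, Nat.abs_cast]
    have h1 : (i:ℤ) ≤ H := by have := Finset.mem_range.1 hi; omega
    exact mul_le_mul h1 hu.le (abs_nonneg _) (by positivity)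
  have hvdc := vdc S2 (bx ((A1:ℤ) - H * L) ((B1:ℤ) + H * L) ((A2:ℤ) - H * L) ((B2:ℤ) + H * L)) V (range H)
    (fun i => ((i:ℤ) * s, -((i:ℤ) * t))) (Th2 n q S2 s t g) (w2 n q s t f)
    (fun p v hp => by unfold Th2; rw [if_neg hp])
    (by
      intro p hp i hi
      have h1 := hsub hp
      unfold bx at h1 ⊢
      rw [Finset.mem_product, Finset.mem_Ico, Finset.mem_Ico] at h1
      have h2 := abs_le.1 (hshift i hi s hs)
      have h3 := abs_le.1 (hshift i hi t ht)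
      rw [Finset.mem_product, Finset.mem_Ico, Finset.mem_Ico]
      obtain ⟨⟨a1, a2⟩, a3, a4⟩ := h1
      obtain ⟨b1, b2⟩ := h2
      obtain ⟨c1, c2⟩ := h3
      change ((A1:ℤ) - H * L ≤ p.1 - (i:ℤ) * s ∧ p.1 - (i:ℤ) * s < (B1:ℤ) + H * L) ∧
        ((A2:ℤ) - H * L ≤ p.2 - (-((i:ℤ) * t)) ∧ p.2 - (-((i:ℤ) * t)) < (B2:ℤ) + H * L)
      refine ⟨⟨?_, ?_⟩, ?_, ?_⟩ <;> linarith)
    (by
      intro p v i _
      have h1 : sD q s t (p + ((i:ℤ) * s, -((i:ℤ) * t))) = sD q s t p := by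
        unfold sD
        change (q:ℤ) * ((p.1 + (i:ℤ) * s) * t + (p.2 + -((i:ℤ) * t)) * s + 2 * s * t) = _
        ring
      unfold w2
      rw [h1])
    (9 * n * A1 * A2)
    (by
      have h1 : ∀ p : ℤ × ℤ, ∑ v ∈ V, ‖w2 n q s t f p v‖ ^ 2 ≤ n := by
        intro p
        refine v5_sum V id Function.injective_id _ ?_ (fun _ => sq_nonneg _) ?_
        · intro x
          unfold w2
          rw [norm_mul, RCLike.norm_conj]
          have := mul_le_one₀ (v5_norm_cut (n := n) hf (x + sD q s t p)) (norm_nonneg _) (v5_norm_cut (n := n) hf x)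
          exact pow_le_one₀ (by positivity) this
        · intro x hx
          unfold w2
          rw [v5_cut_zero (f := f) (x := x) hx, map_zero, mul_zero, norm_zero]
          norm_num
      refine (Finset.sum_le_sum fun p _ => h1 p).trans ?_
      rw [Finset.sum_const, nsmul_eq_mul]
      unfold bx
      rw [Finset.card_product, Nat.cast_mul]
      have hc1 : ((Ico ((A1:ℤ) - H * L) ((B1:ℤ) + H * L)).card : ℝ) ≤ (3 * A1 : ℕ) := by
        refine v5_card _ _ _ ?_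
        have h2 : (H:ℤ) * L ≤ A1 := by exact_mod_cast hA1
        push_cast
        have h3 : (B1:ℤ) ≤ 2 * A1 := by exact_mod_cast hB1
        linarith
      have hc2 : ((Ico ((A2:ℤ) - H * L) ((B2:ℤ) + H * L)).card : ℝ) ≤ (3 * A2 : ℕ) := by
        refine v5_card _ _ _ ?_
        have h2 : (H:ℤ) * L ≤ A2 := by exact_mod_cast hA2
        push_cast
        have h3 : (B2:ℤ) ≤ 2 * A2 := by exact_mod_cast hB2
        linarith
      have h4 := mul_le_mul hc1 hc2 (by positivity) (by positivity)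
      push_cast at h4
      have h5 : (0:ℝ) ≤ n := by positivity
      nlinarith)
  rw [Finset.card_range] at hvdc
  -- double sum
  have hdiag : ‖Cor S2 V (Th2 n q S2 s t g) 0‖ ≤ n * A1 * A2 := by
    unfold Cor
    have h1 : ∀ p ∈ S2, ‖∑ v ∈ V, Th2 n q S2 s t g (p + 0) v * (starRingEnd ℂ) (Th2 n q S2 s t g p v)‖ ≤ n := by
      intro p hp
      refine (norm_sum_le _ _).trans ?_
      refine v5_sum V (fun x => (q:ℤ) * p.1 * p.2 - x) (fun a b h => by
        have h' : (q:ℤ) * p.1 * p.2 - a = (q:ℤ) * p.1 * p.2 - b := h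
        omega) _ ?_ (fun _ => norm_nonneg _) ?_
      · intro x
        rw [add_zero, norm_mul, RCLike.norm_conj]
        have h2 : ‖Th2 n q S2 s t g p x‖ ≤ 1 := by
          unfold Th2
          rw [if_pos hp, norm_mul, RCLike.norm_conj]
          exact mul_le_one₀ (v5_norm_cut hg _) (norm_nonneg _) (v5_norm_cut hg _)
        exact mul_le_one₀ h2 (norm_nonneg _) h2
      · intro x hx
        have h2 : Th2 n q S2 s t g p x = 0 := by
          unfold Th2
          rw [if_pos hp, v5_cut_zero hx, map_zero, mul_zero]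
        rw [h2, map_zero, mul_zero, norm_zero]
    refine (norm_sum_le _ _).trans ((Finset.sum_le_sum h1).trans ?_)
    rw [Finset.sum_const, nsmul_eq_mul]
    have h5 : (0:ℝ) ≤ n := by positivity
    nlinarith
  have hdouble : ∑ i ∈ range H, ∑ j ∈ range H, ‖Cor S2 V (Th2 n q S2 s t g)
      (((i:ℤ) * s, -((i:ℤ) * t)) - ((j:ℤ) * s, -((j:ℤ) * t)))‖ ≤ H * (n * A1 * A2) + (H:ℝ) ^ 2 * M2 := by
    have h1 : ∀ i ∈ range H, ∑ j ∈ range H, ‖Cor S2 V (Th2 n q S2 s t g)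
        (((i:ℤ) * s, -((i:ℤ) * t)) - ((j:ℤ) * s, -((j:ℤ) * t)))‖ ≤ n * A1 * A2 + H * M2 := by
      intro i hi
      have h2 : ∀ j ∈ range H, ‖Cor S2 V (Th2 n q S2 s t g)
          (((i:ℤ) * s, -((i:ℤ) * t)) - ((j:ℤ) * s, -((j:ℤ) * t)))‖ ≤ (if i = j then (n * A1 * A2 : ℝ) else 0) + M2 := by
        intro j hj
        split_ifs with hij
        · rw [hij, sub_self]
          linarith
        · rw [zero_add]
          have h3 : (((i:ℤ) * s, -((i:ℤ) * t)) - ((j:ℤ) * s, -((j:ℤ) * t)) : ℤ × ℤ) =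
              (((i:ℤ) - j) * s, -(((i:ℤ) - j) * t)) := by
            rw [Prod.mk_sub_mk]
            congr 1 <;> ring
          rw [h3]
          have hi' := Finset.mem_range.1 hi
          have hj' := Finset.mem_range.1 hj
          exact hM2 _ (by omega) (by rw [abs_lt]; constructor <;> omega)
      refine (Finset.sum_le_sum h2).trans ?_
      rw [Finset.sum_add_distrib, Finset.sum_ite_eq, if_pos hi, Finset.sum_const, Finset.card_range, nsmul_eq_mul]
    refine (Finset.sum_le_sum h1).trans ?_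
    rw [Finset.sum_const, Finset.card_range, nsmul_eq_mul]
    apply le_of_eq
    ring
  have hH0 : (0:ℝ) < H := by exact_mod_cast hH
  have hfin := hvdc.trans (mul_le_mul_of_nonneg_left hdouble (by positivity))
  have h9 : (H:ℝ) ^ 2 * ‖∑ p ∈ S2, ∑ v ∈ V, w2 n q s t f p v * Th2 n q S2 s t g p v‖ ^ 2 ≤
      (H:ℝ) ^ 2 * (9 * n * A1 * A2 * (n * A1 * A2 / H + M2)) := by
    refine hfin.trans (le_of_eq ?_)
    field_simp
  exact le_of_mul_le_mul_left h9 (by positivity)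

end Pool.Agent.H44W
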