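import Pool.Agent.Lib.H44W.W0
/-!
CHUNK V7 (S/M). Averaging over translates of a box.
(a) box_shift: for one translation u = (u1,u2) with |u1|, |u2| <= U the sums of ph over the box and over the translated box
differ by at most n * 2U * (A1 + A2) when |ph| <= n everywhere and the sides of the box are <= A1, A2.
Proof: one variable: |sum_{a in Ico a1 b1} psi a - sum_{a in Ico a1 b1} psi (a + u)| <= 2 |u| * sup |psi| (both sums are sums of psi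
over intervals Ico a1 b1 and Ico (a1+u) (b1+u); the symmetric difference has at most 2|u| elements; also true if the
interval is empty or shorter than |u|). Two variables: change a first (error card(Ico a2 b2) * 2 U n <= 2 U n A2), then b.
(b) box_avg: average (a) over the N^2 translations u = ((i + j) s, (j - i) t), i, j < N, |s|, |t| <= L: |u1|, |u2| <= 2 N L.
N^2 |sum_p ph p| = |sum_ij sum_p ph p| <= N^2 * n * 4 N L (A1 + A2) + |sum_ij sum_p ph (p + u_ij)| and exchange the sums,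
then the triangle inequality over p.
-/
namespace Pool.Agent.H44W
open Finset

theorem v7_one (a1 b1 u : ℤ) (c : ℝ) (psi : ℤ → ℂ) (hpsi : ∀ a, ‖psi a‖ ≤ c) :
    ‖∑ a ∈ Ico a1 b1, psi a - ∑ a ∈ Ico a1 b1, psi (a + u)‖ ≤ 2 * (|u| : ℤ) * c := by
  classical
  have hc : 0 ≤ c := (norm_nonneg _).trans (hpsi 0)
  rw [Finset.sum_Ico_add' psi a1 b1 u, ← Finset.sum_sdiff_sub_sum_sdiff]
  have key : ∀ s : Finset ℤ, s.card ≤ u.natAbs → ‖∑ a ∈ s, psi a‖ ≤ (|u| : ℤ) * c := by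
    intro s hs
    refine (norm_sum_le _ _).trans ((Finset.sum_le_sum fun a _ => hpsi a).trans ?_)
    rw [Finset.sum_const, nsmul_eq_mul]
    refine mul_le_mul_of_nonneg_right ?_ hc
    have h1 : (s.card : ℝ) ≤ (u.natAbs : ℝ) := by exact_mod_cast hs
    have h2 : ((|u| : ℤ) : ℝ) = (u.natAbs : ℝ) := (Nat.cast_natAbs u).symm
    rw [h2]
    exact h1
  have h1 : (Ico a1 b1 \ Ico (a1 + u) (b1 + u)).card ≤ u.natAbs := by
    have hsub : Ico a1 b1 \ Ico (a1 + u) (b1 + u) ⊆ Ico a1 (a1 + u) ∪ Ico (b1 + u) b1 := by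
      intro x hx
      rw [mem_sdiff, mem_Ico, mem_Ico] at hx
      rw [mem_union, mem_Ico, mem_Ico]
      omega
    refine (card_le_card hsub).trans ((card_union_le _ _).trans ?_)
    rw [Int.card_Ico, Int.card_Ico]
    omega
  have h2 : (Ico (a1 + u) (b1 + u) \ Ico a1 b1).card ≤ u.natAbs := by
    have hsub : Ico (a1 + u) (b1 + u) \ Ico a1 b1 ⊆ Ico b1 (b1 + u) ∪ Ico (a1 + u) a1 := by
      intro x hx
      rw [mem_sdiff, mem_Ico, mem_Ico] at hx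
      rw [mem_union, mem_Ico, mem_Ico]
      omega
    refine (card_le_card hsub).trans ((card_union_le _ _).trans ?_)
    rw [Int.card_Ico, Int.card_Ico]
    omega
  refine (norm_sub_le _ _).trans ?_
  have k1 := key _ h1
  have k2 := key _ h2
  linarith

theorem box_shift (a1 b1 a2 b2 : ℤ) (A1 A2 : ℕ) (h1 : b1 - a1 ≤ A1) (h2 : b2 - a2 ≤ A2) (n : ℝ)
    (hn : 0 ≤ n) (ph : ℤ × ℤ → ℂ) (hph : ∀ p, ‖ph p‖ ≤ n) (U : ℕ) (u : ℤ × ℤ)
    (hu1 : |u.1| ≤ U) (hu2 : |u.2| ≤ U) :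
    ‖∑ p ∈ bx a1 b1 a2 b2, ph p - ∑ p ∈ bx a1 b1 a2 b2, ph (p + u)‖ ≤ n * (2 * U * (A1 + A2)) := by
  have e1 : ∑ p ∈ bx a1 b1 a2 b2, ph p = ∑ a ∈ Ico a1 b1, ∑ b ∈ Ico a2 b2, ph (a, b) := by
    unfold bx
    rw [Finset.sum_product]
  have e2 : ∑ p ∈ bx a1 b1 a2 b2, ph (p + u) =
      ∑ a ∈ Ico a1 b1, ∑ b ∈ Ico a2 b2, ph (a + u.1, b + u.2) := by
    unfold bx
    rw [Finset.sum_product]
    rfl
  have c1 : ((Ico a1 b1).card : ℝ) ≤ A1 := by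
    have : (Ico a1 b1).card ≤ A1 := by
      rw [Int.card_Ico]
      omega
    exact_mod_cast this
  have c2 : ((Ico a2 b2).card : ℝ) ≤ A2 := by
    have : (Ico a2 b2).card ≤ A2 := by
      rw [Int.card_Ico]
      omega
    exact_mod_cast this
  have hU1 : ((|u.1| : ℤ) : ℝ) ≤ U := by exact_mod_cast hu1
  have hU2 : ((|u.2| : ℤ) : ℝ) ≤ U := by exact_mod_cast hu2
  have hU0 : (0:ℝ) ≤ U := Nat.cast_nonneg U
  have f1 : ‖∑ a ∈ Ico a1 b1, ∑ b ∈ Ico a2 b2, ph (a, b) -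
      ∑ a ∈ Ico a1 b1, ∑ b ∈ Ico a2 b2, ph (a + u.1, b)‖ ≤ 2 * U * (A2 * n) := by
    have h := v7_one a1 b1 u.1 (A2 * n) (fun a => ∑ b ∈ Ico a2 b2, ph (a, b)) (fun a => by
      refine (norm_sum_le _ _).trans ((Finset.sum_le_sum fun b _ => hph (a, b)).trans ?_)
      rw [Finset.sum_const, nsmul_eq_mul]
      exact mul_le_mul_of_nonneg_right c2 hn)
    refine h.trans ?_
    have h0 : (0:ℝ) ≤ A2 * n := by positivity
    nlinarith
  have f2 : ‖∑ a ∈ Ico a1 b1, ∑ b ∈ Ico a2 b2, ph (a + u.1, b) -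
      ∑ a ∈ Ico a1 b1, ∑ b ∈ Ico a2 b2, ph (a + u.1, b + u.2)‖ ≤ A1 * (2 * U * n) := by
    rw [← Finset.sum_sub_distrib]
    refine (norm_sum_le _ _).trans ((Finset.sum_le_sum (g := fun _ => 2 * (U:ℝ) * n) fun a _ => ?_).trans ?_)
    · have h := v7_one a2 b2 u.2 n (fun b => ph (a + u.1, b)) (fun b => hph _)
      refine h.trans ?_
      have h3 : 2 * ((|u.2| : ℤ) : ℝ) ≤ 2 * (U:ℝ) := by linarith
      exact mul_le_mul_of_nonneg_right h3 hn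
    · rw [Finset.sum_const, nsmul_eq_mul]
      exact mul_le_mul_of_nonneg_right c1 (by positivity)
  rw [e1, e2]
  have e3 : ∑ a ∈ Ico a1 b1, ∑ b ∈ Ico a2 b2, ph (a, b) -
      ∑ a ∈ Ico a1 b1, ∑ b ∈ Ico a2 b2, ph (a + u.1, b + u.2) =
      (∑ a ∈ Ico a1 b1, ∑ b ∈ Ico a2 b2, ph (a, b) -
        ∑ a ∈ Ico a1 b1, ∑ b ∈ Ico a2 b2, ph (a + u.1, b)) +
      (∑ a ∈ Ico a1 b1, ∑ b ∈ Ico a2 b2, ph (a + u.1, b) -
        ∑ a ∈ Ico a1 b1, ∑ b ∈ Ico a2 b2, ph (a + u.1, b + u.2)) := by ring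
  rw [e3]
  refine (norm_add_le _ _).trans ((add_le_add f1 f2).trans (le_of_eq ?_))
  ring

theorem box_avg (a1 b1 a2 b2 : ℤ) (A1 A2 : ℕ) (h1 : b1 - a1 ≤ A1) (h2 : b2 - a2 ≤ A2) (n : ℝ)
    (hn : 0 ≤ n) (ph : ℤ × ℤ → ℂ) (hph : ∀ p, ‖ph p‖ ≤ n) (N L : ℕ) (hN : 1 ≤ N) (s t : ℤ)
    (hs : |s| ≤ L) (ht : |t| ≤ L) :
    (N:ℝ) ^ 2 * ‖∑ p ∈ bx a1 b1 a2 b2, ph p‖ ≤ (N:ℝ) ^ 2 * (n * (4 * N * L * (A1 + A2))) +
      ∑ p ∈ bx a1 b1 a2 b2, ‖∑ i ∈ range N, ∑ j ∈ range N,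
        ph (p + (((i:ℤ) + j) * s, ((j:ℤ) - i) * t))‖ := by
  have hsh : ∀ i ∈ range N, ∀ j ∈ range N, ‖∑ p ∈ bx a1 b1 a2 b2, ph p -
      ∑ p ∈ bx a1 b1 a2 b2, ph (p + (((i:ℤ) + j) * s, ((j:ℤ) - i) * t))‖ ≤
      n * (4 * N * L * (A1 + A2)) := by
    intro i hi j hj
    rw [mem_range] at hi hj
    have hi' : (i:ℤ) < N := by exact_mod_cast hi
    have hj' : (j:ℤ) < N := by exact_mod_cast hj
    have hi0 : (0:ℤ) ≤ i := Int.natCast_nonneg i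
    have hj0 : (0:ℤ) ≤ j := Int.natCast_nonneg j
    have hL0 : (0:ℤ) ≤ L := Int.natCast_nonneg L
    have g1 : |((i:ℤ) + j) * s| ≤ ((2 * N * L : ℕ) : ℤ) := by
      rw [abs_mul]
      push_cast
      refine mul_le_mul ?_ hs (abs_nonneg _) (by positivity)
      rw [abs_of_nonneg (by linarith)]
      linarith
    have g2 : |((j:ℤ) - i) * t| ≤ ((2 * N * L : ℕ) : ℤ) := by
      rw [abs_mul]
      push_cast
      refine mul_le_mul ?_ ht (abs_nonneg _) (by positivity)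
      rw [abs_le]
      constructor <;> linarith
    have h := box_shift a1 b1 a2 b2 A1 A2 h1 h2 n hn ph hph (2 * N * L)
      (((i:ℤ) + j) * s, ((j:ℤ) - i) * t) g1 g2
    refine h.trans (le_of_eq ?_)
    push_cast
    ring
  obtain ⟨Z, hZ⟩ : ∃ Z, Z = ∑ p ∈ bx a1 b1 a2 b2, ph p := ⟨_, rfl⟩
  rw [← hZ]
  rw [← hZ] at hsh
  have e1 : ((N:ℂ) ^ 2) * Z = (∑ i ∈ range N, ∑ j ∈ range N,
      (Z - ∑ p ∈ bx a1 b1 a2 b2, ph (p + (((i:ℤ) + j) * s, ((j:ℤ) - i) * t)))) +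
      ∑ p ∈ bx a1 b1 a2 b2, ∑ i ∈ range N, ∑ j ∈ range N,
        ph (p + (((i:ℤ) + j) * s, ((j:ℤ) - i) * t)) := by
    have e2 : ∑ p ∈ bx a1 b1 a2 b2, ∑ i ∈ range N, ∑ j ∈ range N,
        ph (p + (((i:ℤ) + j) * s, ((j:ℤ) - i) * t)) =
        ∑ i ∈ range N, ∑ j ∈ range N, ∑ p ∈ bx a1 b1 a2 b2,
          ph (p + (((i:ℤ) + j) * s, ((j:ℤ) - i) * t)) := by
      rw [Finset.sum_comm]
      refine Finset.sum_congr rfl fun i _ => ?_
      rw [Finset.sum_comm]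
    rw [e2, ← Finset.sum_add_distrib]
    have e3 : ∀ i ∈ range N, (∑ j ∈ range N,
        (Z - ∑ p ∈ bx a1 b1 a2 b2, ph (p + (((i:ℤ) + j) * s, ((j:ℤ) - i) * t)))) +
        ∑ j ∈ range N, ∑ p ∈ bx a1 b1 a2 b2, ph (p + (((i:ℤ) + j) * s, ((j:ℤ) - i) * t)) =
        (N:ℂ) * Z := by
      intro i _
      rw [← Finset.sum_add_distrib]
      simp only [sub_add_cancel, Finset.sum_const, card_range, nsmul_eq_mul]
    rw [Finset.sum_congr rfl e3, Finset.sum_const, card_range, nsmul_eq_mul]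
    ring
  have e4 : (N:ℝ) ^ 2 * ‖Z‖ = ‖((N:ℂ) ^ 2) * Z‖ := by
    rw [norm_mul, norm_pow, Complex.norm_natCast]
  rw [e4, e1]
  refine (norm_add_le _ _).trans (add_le_add ?_ (norm_sum_le _ _))
  refine (norm_sum_le _ _).trans ((Finset.sum_le_sum (g := fun _ => (N:ℝ) * (n * (4 * N * L * (A1 + A2))))
    fun i hi => ?_).trans ?_)
  · refine (norm_sum_le _ _).trans ((Finset.sum_le_sum fun j hj => hsh i hi j hj).trans ?_)
    rw [Finset.sum_const, card_range, nsmul_eq_mul]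
  · rw [Finset.sum_const, card_range, nsmul_eq_mul]
    refine le_of_eq ?_
    ring

end Pool.Agent.H44W
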