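import Pool.Agent.Lib.H44W.W1
import Pool.Agent.Lib.H21T.Defs
/-!
H44W: the model of the near-diagonal piece with cofactor q.
-/
namespace Pool.Agent.H44W
open Finset

/-- Model of pd q (Ico A1 A2) (Ico B1 B2). -/
noncomputable def Mq (Q A1 A2 B1 B2 q : ℕ) (m : ℤ) : ℂ :=
  if (q:ℤ) ∣ m then ((Pool.Agent.Lib.H21T.Mbox Q A1 A2 B1 B2 (m / q).toNat : ℝ) : ℂ) else 0

end Pool.Agent.H44W
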